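import Pool.Agent.MP_a9d3bd_x.St

namespace Pool.Agent.MP_a9d3bd_x

open MvPolynomial Sum Pool.Agent.MP_a9d3bd_q Pool.Agent.MP_a9d3bd_h Pool.Agent.MP_a9d3bd_v

theorem red_K (hT : StT0) (hM : StMT) (hP : StPT) (hC : StCL) {K ι : Type} [Field K]
    [IsAlgClosed K] [Finite ι] {S : Set (MvPolynomial ι K)} (hS : Homog S) (hc : Core S)
    {z : Cy K (ι ⊕ R1)} (hz : Al (AdmI S 1) z) (hcl : ClI inr z) : z ∈ Bd S R1 1 := by
  classical
  by_contra hn
  obtain ⟨l, hl, hl0⟩ := Submodule.exists_dual_map_eq_bot_of_notMem hn inferInstance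
  have hB : ∀ w ∈ Bd S R1 1, l w = 0 := fun w hw => by
    have : l w ∈ (Bd S R1 1).map l := ⟨w, hw, rfl⟩
    rwa [hl0, Submodule.mem_bot] at this
  have hG := hM K ι S hS _ (hT K ι S hS l hB)
  choose E iF iA y t hE hy hOn ht hpc using
    fun P : z.support => hP K ι R1 S 1 P (hz P (Finsupp.mem_support_iff.1 P.2))
  have hsum : ∀ T : Cy K (ι ⊕ R1) →ₗ[ℚ] ℚ,
      T z = ∑ P : z.support, z P * T (cc K (y P) (t P)) := by
    intro T
    conv_lhs => rw [← Finsupp.sum_single z, Finsupp.sum, map_sum, ← Finset.sum_coe_sort]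
    refine Finset.sum_congr rfl fun P _ => ?_
    rw [← hpc P, ← smul_eq_mul, ← map_smul, pc, Finsupp.smul_single, smul_eq_mul, mul_one]
  have h0 : fc0 (0 : K) z = 0 := (fc0_zero_iff 0 z).2 (hcl none 0 (Or.inl rfl))
  have h1 : fc0 (1 : K) z = 0 := (fc0_zero_iff 1 z).2 (hcl none 1 (Or.inr rfl))
  have hu : ∀ P, t P none - 1 ≠ 0 := fun P => sub_ne_zero.2 (ht P none).2
  have key := hc _ hG z.support E y (fun P => t P none / (t P none - 1)) (fun P => z P)
    (fun P => ⟨hE P, hy P, hOn P, div_ne_zero (ht P none).1 (hu P)⟩) (by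
      intro Φ hΦ
      obtain ⟨w, hw⟩ := hC K ι Φ hΦ
      have e0 := hsum (pair w ∘ₗ fc0 0)
      have e1 := hsum (pair w ∘ₗ fc0 1)
      simp only [LinearMap.comp_apply, h0, h1, map_zero] at e0 e1
      simp only [hw _ (hE _) _ _ (hy _) (ht _ none).1 (ht _ none).2, mul_sub,
        Finset.sum_sub_distrib, ← e0, ← e1, sub_zero])
  apply hl
  have e := hsum (l ∘ₗ nrm)
  have hz' : nrm z = z := by simp [nrm, h1]
  rw [LinearMap.comp_apply, hz'] at e
  rw [e, ← key]
  refine Finset.sum_congr rfl fun P _ => ?_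
  have hne : t P none / (t P none - 1) ≠ 1 := fun h => by
    rw [div_eq_one_iff_eq (hu P)] at h
    exact one_ne_zero (by linear_combination h : (1 : E P) = 0)
  have ht' : (fun _ : R1 => t P none / (t P none - 1) / (t P none / (t P none - 1) - 1)) = t P := by
    funext r
    rcases r with _ | r
    · have := hu P
      field_simp
      ring
    · exact r.elim
  simp only [LL, if_neg hne, ht', LinearMap.comp_apply]

/-- The equivalence of the two index types of the cube. -/
def eR : R1 ≃ Fin 1 := Equiv.ofUnique _ _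

theorem red (hT : StT0) (hM : StMT) (hP : StPT) (hC : StCL) (hSm : StSM) (hK : CoreK)
    (k : Type) [Field k] [Finite k] (P : MvPolynomial (Fin 4) k) (d : ℕ) (hd : P.IsHomogeneous d)
    (hs : Smooth {P} 2) : ∀ z ∈ Ch {P} (Fin 1) 1, Cl inr z → z ∈ Bd {P} (Fin 1) 1 := by
  intro z hz hc
  obtain ⟨φ, hφ⟩ := cyc_frob k
  obtain ⟨p, hp⟩ := CharP.exists k
  have : Fact p.Prime := ⟨CharP.char_is_prime k p⟩
  have : CharP (AlgebraicClosure k) p := charP_of_injective_algebraMap (algebraMap k _).injective p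
  have hup : upS (AlgebraicClosure k) {P} = {MvPolynomial.map (algebraMap k _) P} := by
    simp [upS]
  obtain ⟨h0, h1⟩ := hSm k (AlgebraicClosure k) P hs
  have hfix : ∀ a : AlgebraicClosure k, ∃ n, 0 < n ∧ a ^ p ^ n = a := by
    intro a
    have : FiniteDimensional k (IntermediateField.adjoin k {a}) :=
      IntermediateField.adjoin.finiteDimensional (Algebra.IsIntegral.isIntegral a)
    have : Finite (IntermediateField.adjoin k {a}) := Module.finite_of_finite k
    let _ := Fintype.ofFinite (IntermediateField.adjoin k {a})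
    have : CharP (IntermediateField.adjoin k {a}) p :=
      charP_of_injective_algebraMap (algebraMap k _).injective p
    obtain ⟨n, -, hn⟩ := FiniteField.card (IntermediateField.adjoin k {a}) p
    have := FiniteField.pow_card (⟨a, IntermediateField.mem_adjoin_simple_self k a⟩ :
      IntermediateField.adjoin k {a})
    rw [hn] at this
    exact ⟨n, n.2, by simpa using congrArg Subtype.val this⟩
  have hcore := hK p (AlgebraicClosure k) hfix _ d (hd.map _) h0 h1
  refine (bd_bc hφ).1 ?_
  have ha := (adm_bc hφ).2 (mem_Ch'.1 hz)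
  have hb := (clI_bc hφ).2 ((cl_iff _ _).1 hc)
  rw [hup] at ha ⊢
  have := red_K hT hM hP hC (S := {MvPolynomial.map (algebraMap k _) P})
    (fun G hG => ⟨d, hG ▸ hd.map _⟩) hcore (adm_prm eR ha) (fun r ε hε => by
      rw [dv_prm, hb _ ε hε, map_zero])
  simpa only [prm_symm] using bd_prm eR.symm this

end Pool.Agent.MP_a9d3bd_x
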