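import Pool.Agent.MP_a9d3bd_x.Uni

namespace Pool.Agent.MP_a9d3bd_x

open MvPolynomial Pool.Agent.MP_a9d3bd_q Pool.Agent.MP_a9d3bd_h Pool.Agent.MP_a9d3bd_g

variable {K ι F : Type} [Field K] [Field F] [Algebra K F]

open Classical in
/-- The functional on the curves of an affine model. -/
noncomputable def lamz (Λ : LF K ι) (y : ι → F) (z : Fin 3 → F) (Z : Pr K (Fin 3)) (G : R3 K) : ℝ :=
  ∑ᶠ O : DV K F, if O.Int z ∧ ak K (O.ra z) = Z then
    (Λ O.K (O.red y) (O.res (aeval z G)) : ℝ) else 0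

section
variable {S : Set (MvPolynomial ι K)} {Λ : LF K ι} {E : Type} [Field E] [Algebra K E] {y : ι → E}

theorem GF.one (h : GF S Λ) (hE : FF K E 1) (hy : y ≠ 0) (hO : On S y) : Λ E y 1 = 0 := by
  have := h.mul E hE y 1 1 hy hO one_ne_zero one_ne_zero
  rw [mul_one] at this
  linarith

theorem GF.div (h : GF S Λ) (hE : FF K E 1) (hy : y ≠ 0) (hO : On S y) {u v : E} (hu : u ≠ 0)
    (hv : v ≠ 0) : Λ E y (u / v) = Λ E y u - Λ E y v := by
  have := h.mul E hE y (u / v) v hy hO (div_ne_zero hu hv) hv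
  rw [div_mul_cancel₀ _ hv] at this
  linarith

theorem GF.zpow (h : GF S Λ) (hE : FF K E 1) (hy : y ≠ 0) (hO : On S y) {u : E} (hu : u ≠ 0)
    (n : ℤ) : Λ E y (u ^ n) = n * Λ E y u := by
  induction n using Int.induction_on with
  | zero => simpa using h.one hE hy hO
  | succ n ih =>
    rw [zpow_add_one₀ hu, h.mul E hE y _ _ hy hO (zpow_ne_zero _ hu) hu, ih]
    push_cast
    ring
  | pred n ih =>
    rw [zpow_sub_one₀ hu, ← div_eq_mul_inv, h.div hE hy hO (zpow_ne_zero _ hu) hu, ih]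
    push_cast
    ring

theorem GF.const (h : GF S Λ) (halg : ∀ c : K, c ≠ 0 → ∃ n, 0 < n ∧ c ^ n = 1) (hE : FF K E 1)
    (hy : y ≠ 0) (hO : On S y) {c : K} (hc : c ≠ 0) : Λ E y (algebraMap K E c) = 0 := by
  obtain ⟨n, hn, e⟩ := halg c hc
  have := h.zpow hE hy hO ((_root_.map_ne_zero (algebraMap K E)).2 hc) n
  rw [zpow_natCast, ← map_pow, e, map_one, h.one hE hy hO] at this
  exact (mul_eq_zero.1 this.symm).resolve_left (by exact_mod_cast hn.ne')

end

variable {H : R3 K} {z : Fin 3 → F}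

theorem one_val (hF : FF K F 2) (hz : af K z = ⊤) (h : Srf H (ak K z)) {Z : Pr K (Fin 3)}
    (hZ : Cv H Z) : ∃ O : DV K F, (∀ O' : DV K F, (O'.Int z ∧ ak K (O'.ra z) = Z) ↔ O' = O) ∧
      af K (O.ra z) = ⊤ ∧
      ∀ G, G ∉ (ak K z).asIdeal → dvc G (ak K z) Z = O.ord (aeval z G) := by
  have hp : ptd Z = 1 := dim_eq Z ▸ hZ.2.1
  have hW := dimW h
  obtain ⟨s, h1, h2, h3, h4⟩ := bl_main hF (nda_of_top hz) Z hp
  have hle : ak K z ≤ Z := by
    rw [← PrimeSpectrum.asIdeal_le_asIdeal, h.eq, Ideal.span_singleton_le_iff_mem]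
    exact hZ.1
  obtain ⟨f, hf, hl⟩ := uni hZ
  rw [← h.eq] at hl
  have hfW : f ∉ (ak K z).asIdeal := fun c => by
    have : Z ≤ ak K z := fun g hg => (hl g hg).mem hle
      (sup_le le_rfl ((Ideal.span_singleton_le_iff_mem _).2 c))
    have := ptd_le this
    omega
  have hf0 : aeval z f ≠ 0 := fun c => hfW ((mem_ak z f).2 c)
  have e := h4 f hf0
  rw [len_eq_one hle hf hl, hz, IntermediateField.finrank_top] at e
  have hpos : ∀ O ∈ s, 0 < O.ord (aeval z f) := fun O hO => by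
    obtain ⟨a, b⟩ := (h1 O).1 hO
    have : O.res (aeval z f) = 0 := by rw [O.res_aeval a, ← mem_ak, b]; exact hf
    exact ((O.res_eq_zero_iff (O.aeval_mem a f)).1 this).resolve_left hf0
  have e' : ∑ O ∈ s, O.ord (aeval z f) * (Module.finrank (af K (O.ra z)) O.K : ℤ) = 1 := by
    simp only [ENat.toNat_one, Nat.cast_one, mul_one] at e
    exact_mod_cast e
  have hone : ∀ O ∈ s, 1 ≤ O.ord (aeval z f) * (Module.finrank (af K (O.ra z)) O.K : ℤ) :=
    fun O hO => mul_pos (hpos O hO) (by exact_mod_cast h3 O hO)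
  have hc : s.card ≤ 1 := by
    have := Finset.card_nsmul_le_sum s _ 1 hone
    rw [e', nsmul_eq_mul, mul_one] at this
    exact_mod_cast this
  obtain ⟨O, hO⟩ := h2 hle
  have hs : s = {O} := Finset.eq_singleton_iff_unique_mem.2
    ⟨hO, fun O' hO' => Finset.card_le_one.1 hc O' hO' O hO⟩
  rw [hs, Finset.sum_singleton] at e'
  have hr : Module.finrank (af K (O.ra z)) O.K = 1 := by
    have := Int.eq_one_of_mul_eq_one_left (by positivity) e'
    exact_mod_cast this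
  refine ⟨O, fun O' => by rw [← h1, hs, Finset.mem_singleton],
    IntermediateField.finrank_eq_one_iff_eq_top.1 hr, fun G hG => ?_⟩
  have := h4 G fun c => hG ((mem_ak z G).2 c)
  rw [hs, Finset.sum_singleton, hr, hz, IntermediateField.finrank_top] at this
  rw [dvc, if_pos ⟨hG, by rw [hW, hp]⟩]
  simpa using this.symm

theorem lamz_eq (Λ : LF K ι) (y : ι → F) {Z : Pr K (Fin 3)} {O : DV K F}
    (h : ∀ O' : DV K F, (O'.Int z ∧ ak K (O'.ra z) = Z) ↔ O' = O) (G : R3 K) :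
    lamz Λ y z Z G = Λ O.K (O.red y) (aeval (O.ra z) G) := by
  rw [lamz, finsum_eq_single _ O fun O' c => if_neg fun d => c ((h O').1 d), if_pos ((h O).2 rfl),
    O.res_aeval ((h O).2 rfl).1]

theorem res_tp (O : DV K F) (h0 : O.ord (z 0) < 0) (h1 : O.ord (z 0) ≤ O.ord (z 1))
    (h2 : O.ord (z 0) ≤ O.ord (z 2)) {e : ℕ} {G : R3 K} (hG : G.totalDegree ≤ e) {c : K}
    (hc : homogeneousComponent e G = C c * X 0 ^ e) :
    aeval z G / z 0 ^ e ∈ O.O ∧ O.res (aeval z G / z 0 ^ e) = algebraMap K O.K c := by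
  have z0 : z 0 ≠ 0 := fun e => by simp [e, O.ord_zero] at h0
  have hi : O.Int fun i => z i / z 0 := fun i => by
    by_cases c : z i = 0
    · simp [c]
    rw [← O.ord_nonneg_iff, O.ord_div c z0]
    fin_cases i <;> simp <;> omega
  have hz : z = z 0 • fun i => z i / z 0 := by
    funext i
    simp [mul_div_cancel₀ _ z0]
  have hp : 0 < O.ord (z 0)⁻¹ := by rw [O.ord_inv]; omega
  have hm := (O.ord_nonneg_iff _).1 hp.le
  have e1 : aeval z G / z 0 ^ e = algebraMap K F c + ∑ d ∈ Finset.range e,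
      (z 0)⁻¹ ^ (e - d) * aeval (fun i => z i / z 0) (homogeneousComponent d G) := by
    have : G = ∑ d ∈ Finset.range (e + 1), homogeneousComponent d G := by
      conv_lhs => rw [← sum_homogeneousComponent G]
      exact Finset.sum_subset (Finset.range_mono (by omega)) fun d _ hd =>
        homogeneousComponent_eq_zero _ _ (by simpa using hd)
    conv_lhs => rw [this, map_sum, Finset.sum_range_succ, hc]
    rw [add_div, add_comm, Finset.sum_div]
    congr 1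
    · simp [z0]
    · refine Finset.sum_congr rfl fun d hd => ?_
      have hd' := (Finset.mem_range.1 hd).le
      conv_lhs => rw [hz, aeval_smul_hom (homogeneousComponent_isHomogeneous d G)]
      simp only [Pi.smul_apply, smul_eq_mul, div_self z0, mul_one]
      rw [inv_pow, pow_sub₀ _ z0 hd']
      field_simp
  have hmem : ∀ d ∈ Finset.range e, (z 0)⁻¹ ^ (e - d) *
      aeval (fun i => z i / z 0) (homogeneousComponent d G) ∈ O.O :=
    fun d _ => mul_mem (pow_mem hm _) (O.aeval_mem hi _)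
  rw [e1]
  refine ⟨add_mem (O.const c) (sum_mem hmem), ?_⟩
  rw [O.res_add (O.const c) (sum_mem hmem), O.res_algebraMap, O.res_sum _ _ hmem,
    Finset.sum_eq_zero, add_zero]
  intro d hd
  rw [O.res_mul (pow_mem hm _) (O.aeval_mem hi _), O.res_pow hm, O.res_eq_zero_of_pos hp,
    zero_pow (by have := Finset.mem_range.1 hd; omega), zero_mul]

variable [Finite ι] {S : Set (MvPolynomial ι K)} {Λ : LF K ι} {y : ι → F}

theorem ax (halg : ∀ c : K, c ≠ 0 → ∃ n, 0 < n ∧ c ^ n = 1) (hS : Homog S) (hΛ : GF S Λ)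
    (hF : FF K F 2) (hy : y ≠ 0) (hO : On S y) (hn : ND K y) (hz : af K z = ⊤)
    (h : Srf H (ak K z))
    (hI : ∀ O : DV K F, ND K (O.red y) → (O.Int z ∧ NDa K (O.ra z)) ∨
      (O.ord (z 0) < 0 ∧ O.ord (z 0) ≤ O.ord (z 1) ∧ O.ord (z 0) ≤ O.ord (z 2))) :
    Ax H (ak K z) (lamz Λ y z) := by
  classical
  have hk : ∀ O : DV K F, FF K O.K 1 := fun O => O.ff_K hF
  have hr : ∀ O : DV K F, O.red y ≠ 0 := fun O => O.red_ne hy
  have ho : ∀ O : DV K F, On S (O.red y) := fun O => O.on_red hS hO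
  refine ⟨fun Z A B hZ hA hB => ?_, fun Z A B hZ hA hB => ?_, fun e A G G' hG hG' hA hc => ?_⟩
  · obtain ⟨O, h1, -, -⟩ := one_val hF hz h hZ
    have e := ((h1 O).2 rfl).2
    rw [← e, mem_ak] at hA hB
    rw [lamz_eq Λ y h1, lamz_eq Λ y h1, lamz_eq Λ y h1, map_mul,
      hΛ.mul _ (hk O) _ _ _ (hr O) (ho O) hA hB, Rat.cast_add]
  · obtain ⟨O, h1, -, -⟩ := one_val hF hz h hZ
    have e := ((h1 O).2 rfl).2
    rw [← e, mem_ak, map_sub, sub_eq_zero] at hB
    rw [lamz_eq Λ y h1, lamz_eq Λ y h1, hB]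
  have gW := tp_notMem h hG
  have gW' := tp_notMem h hG'
  have a0 : aeval z A ≠ 0 := fun c => hA ((mem_ak z _).2 c)
  have g0 : aeval z G ≠ 0 := fun c => gW ((mem_ak z _).2 c)
  have g0' : aeval z G' ≠ 0 := fun c => gW' ((mem_ak z _).2 c)
  have hW := dimW h
  have hHz : H ∈ (ak K z).asIdeal := h.eq ▸ Ideal.mem_span_singleton_self H
  have hprod : A * G * G' ∉ (ak K z).asIdeal := fun c => by
    rw [mem_ak, map_mul, map_mul] at c
    exact mul_ne_zero (mul_ne_zero a0 g0) g0' c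
  have hB := finite_codim_one (ak K z) (j := 1) hW hprod
  set B := hB.toFinset with hBd
  have hBm : ∀ Z, Z ∈ B ↔ ptd Z = 1 ∧ ak K z ≤ Z ∧ A * G * G' ∈ Z.asIdeal := fun Z => by
    rw [hBd, Set.Finite.mem_toFinset]
    rfl
  have hBc : ∀ Z ∈ B, Cv H Z ∧ (A ∈ Z.asIdeal → G * G' ∉ Z.asIdeal) := fun Z hZ => by
    obtain ⟨a, b, c⟩ := (hBm Z).1 hZ
    exact hc Z (b hHz) (by rw [dim_eq, a]) c
  have hord : ∀ (O : DV K F), O.Int z → ∀ T : R3 K, T ∉ (ak K (O.ra z)).asIdeal →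
      O.ord (aeval z T) = 0 := fun O a T b => by
    rw [mem_ak, ← O.res_aeval a] at b
    exact ((O.res_ne_zero_iff _).1 b).2
  have hinf : ∀ O : DV K F, (O.ord (z 0) < 0 ∧ O.ord (z 0) ≤ O.ord (z 1) ∧
      O.ord (z 0) ≤ O.ord (z 2)) → O.ord (aeval z G / aeval z G') = 0 ∧ ∃ c : K, c ≠ 0 ∧
        O.res (aeval z G / aeval z G') = algebraMap K O.K c := fun O ⟨a, b, c⟩ => by
    obtain ⟨d1, c1, n1, e1⟩ := hG
    obtain ⟨d2, c2, n2, e2⟩ := hG'
    obtain ⟨m1, r1⟩ := res_tp O a b c d1 e1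
    obtain ⟨m2, r2⟩ := res_tp O a b c d2 e2
    have z0 : z 0 ≠ 0 := fun e => by simp [e, O.ord_zero] at a
    have o2 := ((O.res_ne_zero_iff _).1 (r2 ▸ (_root_.map_ne_zero _).2 n2)).2
    have : O.res (aeval z G / aeval z G') = algebraMap K O.K (c1 / c2) := by
      rw [← div_div_div_cancel_right₀ (pow_ne_zero e z0), O.res_div m1 o2, r1, r2, map_div₀]
    exact ⟨((O.res_ne_zero_iff _).1 (this ▸ (_root_.map_ne_zero _).2 (div_ne_zero n1 n2))).2,
      _, div_ne_zero n1 n2, this⟩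
  have hfin : ∀ O : DV K F, O.Int z → NDa K (O.ra z) → ak K (O.ra z) ∉ B →
      O.ord (aeval z A) = 0 ∧ O.ord (aeval z G / aeval z G') = 0 := fun O a b c => by
    have : A * G * G' ∉ (ak K (O.ra z)).asIdeal := fun d => c ((hBm _).2
      ⟨by rw [ptd_ak]; exact (nda_iff (hk O) _).1 b, ak_le_ra O a, d⟩)
    refine ⟨hord O a A fun d => this (Ideal.mul_mem_right _ _ (Ideal.mul_mem_right _ _ d)), ?_⟩
    rw [O.ord_div g0 g0', hord O a G fun d =>
      this (Ideal.mul_mem_right _ _ (Ideal.mul_mem_left _ _ d)),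
      hord O a G' fun d => this (Ideal.mul_mem_left _ _ d), sub_zero]
  have hBo : ∀ (O : DV K F), O.Int z → ak K (O.ra z) ∈ B → A ∈ (ak K (O.ra z)).asIdeal →
      O.ord (aeval z G) = 0 ∧ O.ord (aeval z G') = 0 := fun O a b c =>
    ⟨hord O a G fun d => (hBc _ b).2 c (Ideal.mul_mem_right _ _ d),
      hord O a G' fun d => (hBc _ b).2 c (Ideal.mul_mem_left _ _ d)⟩
  have key := hΛ.tame F hF y _ _ hy hO hn a0 (div_ne_zero g0 g0') fun O hN => by
    rcases hI O hN with ⟨a, b⟩ | a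
    · by_cases c : ak K (O.ra z) ∈ B
      · by_cases d : A ∈ (ak K (O.ra z)).asIdeal
        · obtain ⟨e1, e2⟩ := hBo O a c d
          exact Or.inr (by rw [O.ord_div g0 g0', e1, e2, sub_zero])
        · exact Or.inl (hord O a A d)
      · exact Or.inl (hfin O a b c).1
    · exact Or.inr (hinf O a).1
  have : Nonempty (DV K F) := nonempty_dv hF
  choose! V hV1 hV2 hV3 using fun Z (hZ : Z ∈ B) => one_val hF hz h (hBc Z hZ).1
  have hVi : Set.InjOn V B := fun Z hZ Z' hZ' e => by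
    rw [← ((hV1 Z hZ _).2 rfl).2, ← ((hV1 Z' hZ' _).2 rfl).2, e]
  rw [finsum_eq_sum_of_support_subset _ (s := B.image V) fun O hO' => ?_,
    Finset.sum_image hVi] at key
  · rw [finsum_eq_sum_of_support_subset _ (s := B) fun Z hZ => ?_,
      finsum_eq_sum_of_support_subset _ (s := B) fun Z hZ => ?_, ← sub_eq_zero,
      ← Finset.sum_sub_distrib, ← Rat.cast_zero, ← key, Rat.cast_sum]
    · refine Finset.sum_congr rfl fun Z hZ => ?_
      obtain ⟨a, b⟩ := (hV1 Z hZ _).2 rfl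
      rw [lamz_eq Λ y (hV1 Z hZ), lamz_eq Λ y (hV1 Z hZ), lamz_eq Λ y (hV1 Z hZ), hV3 Z hZ A hA,
        hV3 Z hZ G gW, hV3 Z hZ G' gW']
      by_cases d : A ∈ (ak K ((V Z).ra z)).asIdeal
      · obtain ⟨e1, e2⟩ := hBo _ a (b.symm ▸ hZ) d
        have r1 := ((V Z).res_ne_zero_iff _).2 ⟨g0, e1⟩
        have r2 := ((V Z).res_ne_zero_iff _).2 ⟨g0', e2⟩
        rw [(V Z).tame_of_right _ (by rw [(V Z).ord_div g0 g0', e1, e2, sub_zero]),
          (V Z).res_div ((V Z).aeval_mem a G) e2,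
          hΛ.zpow (hk _) (hr _) (ho _) (div_ne_zero r1 r2), hΛ.div (hk _) (hr _) (ho _) r1 r2,
          (V Z).res_aeval a, (V Z).res_aeval a, e1, e2]
        push_cast
        ring
      · have e1 := hord _ a A d
        have r1 := ((V Z).res_ne_zero_iff _).2 ⟨a0, e1⟩
        rw [(V Z).tame_of_left _ e1, hΛ.zpow (hk _) (hr _) (ho _) r1, (V Z).res_aeval a, e1,
          (V Z).ord_div g0 g0']
        push_cast
        ring
    · have : dvc G (ak K z) Z ≠ 0 ∨ dvc G' (ak K z) Z ≠ 0 := by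
        by_contra c
        push Not at c
        simp [c.1, c.2] at hZ
      rcases this with c | c
      · obtain ⟨-, c1, c2, c3⟩ := dvc_ne.1 c
        exact (hBm Z).2 ⟨by omega, c2, Ideal.mul_mem_right _ _ (Ideal.mul_mem_left _ _ c3)⟩
      · obtain ⟨-, c1, c2, c3⟩ := dvc_ne.1 c
        exact (hBm Z).2 ⟨by omega, c2, Ideal.mul_mem_left _ _ c3⟩
    · have c : dvc A (ak K z) Z ≠ 0 := fun c => by simp [c] at hZ
      obtain ⟨-, c1, c2, c3⟩ := dvc_ne.1 c
      exact (hBm Z).2 ⟨by omega, c2, Ideal.mul_mem_right _ _ (Ideal.mul_mem_right _ _ c3)⟩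
  · rw [Function.mem_support] at hO'
    have hN : ND K (O.red y) := by_contra fun c => hO' (hΛ.degen _ (hk O) _ _ c)
    rcases hI O hN with ⟨a, b⟩ | a
    · by_cases c : ak K (O.ra z) ∈ B
      · exact Finset.mem_coe.2 (Finset.mem_image.2 ⟨_, c, ((hV1 _ c O).1 ⟨a, rfl⟩).symm⟩)
      · obtain ⟨e1, e2⟩ := hfin O a b c
        exact absurd (by rw [O.tame_of_left _ e1, e2, neg_zero, zpow_zero,
          hΛ.one (hk O) (hr O) (ho O)]) hO'
    · obtain ⟨e1, c, c0, e2⟩ := hinf O a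
      exact absurd (by rw [O.tame_of_right _ e1, e2,
        hΛ.zpow (hk O) (hr O) (ho O) ((_root_.map_ne_zero _).2 c0),
        hΛ.const halg (hk O) (hr O) (ho O) c0, mul_zero]) hO'

theorem lam_sec (hΛ : GF S Λ) (hF : FF K F 2) (hz : af K z = ⊤) (h : Srf H (ak K z))
    {L : Type} [Field L] [Algebra K L] (hL : FF K L 1) {zb : Fin 3 → L} (hb : af K zb = ⊤)
    (hZ : Cv H (ak K zb)) {yb : ι → L} (hy : yb ≠ 0)
    (hw : ∀ i, ∃ a b : R3 K, aeval zb b ≠ 0 ∧ y i * aeval z b = aeval z a ∧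
      yb i * aeval zb b = aeval zb a) (G : R3 K) :
    lamz Λ y z (ak K zb) G = Λ L yb (aeval zb G) := by
  obtain ⟨O, h1, h2, -⟩ := one_val hF hz h hZ
  obtain ⟨a, b⟩ := (h1 O).2 rfl
  obtain ⟨ψ, hψ⟩ := exists_hom_a hb b.symm
  have hψ' : O.ra z = fun i => ψ (zb i) := funext fun i => (hψ i).symm
  have hev : ∀ T : R3 K, O.res (aeval z T) = ψ (aeval zb T) := fun T => by
    rw [O.res_aeval a, hψ', aeval_map_hom]
  have hyi : ∀ i, y i ∈ O.O ∧ O.res (y i) = ψ (yb i) := fun i => by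
    obtain ⟨p, q, e0, e1, e2⟩ := hw i
    obtain ⟨q0, q1⟩ := (O.res_ne_zero_iff _).1 (hev q ▸ (_root_.map_ne_zero ψ).2 e0)
    rw [eq_div_of_mul_eq q0 e1, eq_div_of_mul_eq e0 e2, O.res_div (O.aeval_mem a p) q1, hev, hev,
      map_div₀, div_eq_mul_inv (aeval z p)]
    exact ⟨mul_mem (O.aeval_mem a p) ((O.ord_eq_zero_iff _).1 q1).2, rfl⟩
  have hra : O.ra y = fun i => ψ (yb i) := funext fun i => (hyi i).2
  have hd : hdeg ψ = 1 := hdeg_eq_one (by
    rw [eq_top_iff, ← h2, af, IntermediateField.adjoin_le_iff]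
    rintro _ ⟨i, rfl⟩
    exact ⟨zb i, hψ i⟩)
  rw [lamz_eq Λ y h1, O.red_of_int (fun i => (hyi i).1) (hra ▸ (map_ne_zero_pt ψ yb).2 hy), hra,
    hψ', aeval_map_hom, hΛ.ext L O.K hL (O.ff_K hF), hd, Nat.cast_one, one_mul]

end Pool.Agent.MP_a9d3bd_x
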