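import Pool.Agent.MP_a9d3bd_x.St

namespace Pool.Agent.MP_a9d3bd_x

open MvPolynomial Sum Pool.Agent.MP_a9d3bd_q Pool.Agent.MP_a9d3bd_h Pool.Agent.MP_a9d3bd_v

theorem ADM_eq {K ι ν E : Type} [Field K] [Field E] [Algebra K E] (y : ι → E) (t : ν → E) :
    cp K y t = PP_pt K y t := by
  rw [PP_pt_eq]
  funext s
  rcases s with a | i
  · exact mul_comm _ _
  · rfl

theorem ADM_one {K E L : Type} [Field K] [Field E] [Algebra K E] [Field L] [Algebra K L]
    (ψ : E →ₐ[K] L) (z : E) : ψ z = 1 ↔ z = 1 := map_eq_one_iff ψ ψ.toRingHom.injective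

theorem ADM_val {K ι ν F : Type} [Field K] [Finite ι] [Field F] [Algebra K F] (hF : FF K F 2)
    {y : ι → F} (hy : y ≠ 0) {t : ν → F} (i₀ : ν) (ht : t i₀ ≠ 0 ∧ t i₀ ≠ 1)
    (O' : DV K (RatFunc F)) (hI : O'.Int (cp K y t)) (hN : NDa K (O'.ra (cp K y t)))
    (h01 : ∀ i, O'.res (cst K F (t i)) = 0 ∨ O'.res (cst K F (t i)) = 1) :
    ∃ V : DV K F, ND K (V.red y) ∧ V.Int t ∧ ∀ i, V.res (t i) = 0 ∨ V.res (t i) = 1 := by
  have hL := ff_ratFunc hF
  have hn : ∃ z, cst K F z ∉ O'.O := by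
    by_contra hn
    push Not at hn
    have h := h01 i₀
    rw [← O'.homIn_apply _ hn, map_eq_zero, ADM_one] at h
    exact h.elim ht.1 ht.2
  obtain ⟨V, h⟩ := exists_lies hF hL _ O' hn
  have hX : (RatFunc.X : RatFunc F) ≠ 0 := RatFunc.X_ne_zero
  obtain ⟨a, ha, hm⟩ := V.exists_mu hy
  have hT : cst K F (V.pi ^ V.mu y) * RatFunc.X ∈ O'.O := by
    have h1 : cst K F (y a) * RatFunc.X ∈ O'.O := hI (inl a)
    rw [← O'.ord_nonneg_iff, O'.ord_mul ((map_ne_zero _).2 ha) hX, h.ord_eq, hm] at h1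
    rwa [← O'.ord_nonneg_iff, BLP_ord h y hX]
  refine ⟨V, ?_, fun i => (h _).2 (hI (inr i)), fun i => ?_⟩
  · have htd := (nda_iff (O'.ff_K hL) _).1 hN
    have htr := O'.tr_K hL
    have ha' : V.red y a ≠ 0 := (V.red_ne_iff y a).2 ⟨ha, hm⟩
    have h2 := tr_td_sup_le htr ((kf K (V.red y)).map h.hom) fun _ : Unit =>
      h.hom (V.red y a) * O'.res (cst K F (V.pi ^ V.mu y) * RatFunc.X)
    have h3 : af K (O'.ra (cp K y t)) ≤ (kf K (V.red y)).map h.hom ⊔ af K fun _ : Unit =>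
        h.hom (V.red y a) * O'.res (cst K F (V.pi ^ V.mu y) * RatFunc.X) := by
      refine (af_le_iff _ _).2 fun s => ?_
      rcases s with b | i
      · have e : O'.ra (cp K y t) (inl b) = h.hom (V.red y b / V.red y a) *
            (h.hom (V.red y a) * O'.res (cst K F (V.pi ^ V.mu y) * RatFunc.X)) := by
          rw [← mul_assoc, ← map_mul, div_mul_cancel₀ _ ha']
          exact congrFun (BLP_ra h y hT).2 b
        rw [e]
        refine mul_mem ((le_sup_left : (kf K (V.red y)).map h.hom ≤ _)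
          ⟨_, div_mem_kf _ b a, rfl⟩) ((le_sup_right : af K _ ≤ _) (mem_af (fun _ : Unit =>
            h.hom (V.red y a) * O'.res (cst K F (V.pi ^ V.mu y) * RatFunc.X)) ()))
      · change O'.res (cst K F (t i)) ∈ _
        rcases h01 i with e | e <;> rw [e]
        exacts [zero_mem _, one_mem _]
    have h4 := tr_td_mono htr h3
    have h5 := tr_td_le (V.tr_K hF) (kf K (V.red y))
    rw [td_map, Fintype.card_unit] at h2
    refine (nd_iff (V.ff_K hF) _).2 ?_
    omega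
  · have h1 := h01 i
    rwa [← h.hom_res, map_eq_zero, ADM_one] at h1

theorem sADM : StADM := by
  intro K ι _ _ S hS F _ _ hF y t hy hon ht hO
  refine al_cyc fun hN => ?_
  have hL := ff_ratFunc hF
  have hd : ptd (ak K (cp K y t)) = 2 + 1 := (ptd_ak _).trans ((nda_iff hL _).1 hN)
  have hx : (fun a => cp K y t (inl a)) = (RatFunc.X : RatFunc F) • fun a => cst K F (y a) :=
    funext fun a => mul_comm _ _
  have hm : ∀ {L : Type} [Field L] [Algebra K L] (x : ι ⊕ Option R1 → L) (r : Option R1),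
      (X (inr r) ∈ (ak K x).asIdeal ∨ X (inr r) - 1 ∈ (ak K x).asIdeal) ↔
        x (inr r) = 0 ∨ x (inr r) = 1 := fun x r => by
    rw [mem_ak, mem_ak, map_sub, aeval_X, map_one, sub_eq_zero]
  refine ⟨(onS_ak _ _ _).2 ?_, by rw [ADM_eq]; exact PP_con y t, (off_ak _ _).2 ?_, hd, fun Q hQ => ?_⟩
  · rw [hx, on_smul hS RatFunc.X_ne_zero]
    exact (on_map (cst K F) S y).2 hon
  · rw [hx]
    exact smul_ne_zero RatFunc.X_ne_zero ((map_ne_zero_pt (cst K F) y).2 hy)
  · have hc : (Set.univ : Set (Option R1)).ncard = 2 := by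
      rw [Set.ncard_univ, Nat.card_eq_fintype_card]; rfl
    have h2 : nfp inr Q ≤ 2 := hc ▸ Set.ncard_le_ncard (Set.subset_univ _)
    rcases Nat.eq_zero_or_pos (nfp inr Q) with h0 | h0
    · rw [h0]
      exact ptd_le hQ
    have h3 : ptd Q < ptd (ak K (cp K y t)) := by
      refine ptd_lt (lt_of_le_of_ne hQ ?_)
      rintro rfl
      obtain ⟨r, hr⟩ := (Set.ncard_pos (Set.toFinite _)).1 h0
      have h4 : cst K F (t r) = 0 ∨ cst K F (t r) = 1 := (hm _ r).1 hr
      rw [map_eq_zero, ADM_one] at h4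
      exact h4.elim (ht r).1 (ht r).2
    by_contra h4
    have h5 : ptd Q = 2 := by omega
    have h6 : nfp inr Q = 2 := by omega
    have h7 := Set.eq_of_subset_of_ncard_le (Set.subset_univ
      {r : Option R1 | X (inr r) ∈ Q.asIdeal ∨ X (inr r) - 1 ∈ Q.asIdeal}) (hc.trans h6.symm).le
    obtain ⟨s, hs, hne, hpos, -⟩ := bl_main hL hN Q h5
    obtain ⟨O', hO'⟩ := hne hQ
    obtain ⟨hI, hA⟩ := (hs O').1 hO'
    obtain ⟨V, v1, v2, v3⟩ := ADM_val hF hy none (ht none) O' hI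
      (alg_of_finrank_ne _ (hpos O' hO').ne') fun i => by
        have h8 : i ∈ {r : Option R1 | X (inr r) ∈ Q.asIdeal ∨ X (inr r) - 1 ∈ Q.asIdeal} :=
          h7 ▸ Set.mem_univ i
        rw [← hA] at h8
        exact (hm _ i).1 h8
    obtain ⟨i, hi⟩ := hO V v1 v2
    exact (v3 i).elim hi.1 hi.2

end Pool.Agent.MP_a9d3bd_x
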