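import Pool.Agent.MP_a9d3bd_x.St

namespace Pool.Agent.MP_a9d3bd_x

open MvPolynomial Sum Pool.Agent.MP_a9d3bd_q Pool.Agent.MP_a9d3bd_h Pool.Agent.MP_a9d3bd_v

theorem CL_pair {K ι E : Type} [Field K] [Field E] [Algebra K E] (w : Pr K ι → ℚ) {y : ι → E}
    (hy : y ≠ 0) (t : Empty → E) :
    pair (fun Q : Pr K (ι ⊕ Empty) => w (PrimeSpectrum.comap
      (rename (inl : ι → ι ⊕ Empty) : MvPolynomial ι K →ₐ[K] _).toRingHom Q)) (cc K y t) =
      Module.finrank (kf K y) E * w (hk K y) := by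
  have h1 : af K (cp K y t) = af K fun a => cst K E (y a) * RatFunc.X := by
    unfold af cp
    rw [Set.Sum.elim_range, Set.range_eq_empty (fun i : Empty => cst K E (t i)), Set.union_empty]
  have h2 : PrimeSpectrum.comap (rename (inl : ι → ι ⊕ Empty) : MvPolynomial ι K →ₐ[K] _).toRingHom
      (ak K (cp K y t)) = ak K fun a => cst K E (y a) * RatFunc.X := by
    refine PrimeSpectrum.ext (Ideal.ext fun F => ?_)
    change aeval (cp K y t) (rename inl F) = 0 ↔
      aeval (fun a => cst K E (y a) * RatFunc.X) F = 0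
    rw [aeval_rename]
    rfl
  rw [cc, pair_cyc, h1, h2, BLP_fin _ tr_X top_X hy, ak_eq_hk _ tr_X]

theorem CL_ord {K E : Type} [Field K] [Field E] [Algebra K E] (O : DV K E) {t : E}
    (h : t ∉ O.O) : O.ord (t / (t - 1)) = 0 := by
  have h0 : t ≠ 0 := fun e => h (e ▸ O.O.zero_mem)
  have h1 : t - 1 ≠ 0 := fun e => h (sub_eq_zero.1 e ▸ O.O.one_mem)
  have h2 : t - 1 ∉ O.O := fun e => h (by simpa using O.O.add_mem _ _ e O.O.one_mem)
  have h3 := (O.O.mem_or_inv_mem t).resolve_left h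
  have h4 := (O.O.mem_or_inv_mem (t - 1)).resolve_left h2
  rw [O.ord_eq_zero_iff]
  constructor
  · rw [show t / (t - 1) = 1 + (t - 1)⁻¹ by field_simp; ring]
    exact O.O.add_mem _ _ O.O.one_mem h4
  · rw [show (t / (t - 1))⁻¹ = 1 - t⁻¹ by field_simp]
    exact sub_mem O.O.one_mem h3

theorem sCL (hF : StFACE) : StCL := by
  intro K ι _ _ Φ hΦ
  classical
  obtain ⟨w, hw⟩ := hΦ.exists_w
  refine ⟨fun Q => w (PrimeSpectrum.comap
    (rename (inl : ι → ι ⊕ Empty) : MvPolynomial ι K →ₐ[K] _).toRingHom Q), ?_⟩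
  intro E _ _ hE y t hy h0 h1
  have hp : ∀ (O : DV K E) (s : Empty → O.K), pair (fun Q : Pr K (ι ⊕ Empty) =>
      w (PrimeSpectrum.comap (rename (inl : ι → ι ⊕ Empty) :
        MvPolynomial ι K →ₐ[K] _).toRingHom Q)) (cc K (O.red y) s) = Φ O.K (O.red y) :=
    fun O s => (CL_pair w (O.red_ne hy) s).trans (hw O.K (O.ff_K hE) _ (O.red_ne hy)).symm
  have hfin : ∀ h : E, (Function.support fun O : DV K E =>
      if O.Int t then (O.ord h : ℚ) * Φ O.K (O.red y) else 0).Finite := fun h =>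
    (Dv_fin hΦ hE y h).subset fun O hO h0 => hO (by
      show (if O.Int t then (O.ord h : ℚ) * Φ O.K (O.red y) else 0) = 0
      rw [show (O.ord h : ℚ) * Φ O.K (O.red y) = 0 from h0, ite_self])
  rw [hF K ι Empty E 0 hE y t 0 hy (by rwa [map_zero]), hF K ι Empty E 0 hE y t 1 hy
    (by rwa [map_one]), map_zero, map_one, sub_zero]
  simp only [hp]
  rw [← finsum_sub_distrib (hfin _) (hfin _), Dv]
  refine finsum_congr fun O => ?_
  by_cases hI : O.Int t
  · rw [if_pos hI, if_pos hI, O.ord_div h0 (sub_ne_zero.2 h1), Int.cast_sub, sub_mul]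
  · have hn : t none ∉ O.O := fun h => hI fun i => by
      rcases i with _ | e
      exacts [h, e.elim]
    rw [if_neg hI, if_neg hI, CL_ord O hn, Int.cast_zero, zero_mul, sub_zero]

end Pool.Agent.MP_a9d3bd_x
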