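import Pool.Agent.MP_a9d3bd_x.St

namespace Pool.Agent.MP_a9d3bd_x

open MvPolynomial Sum Pool.Agent.MP_a9d3bd_q Pool.Agent.MP_a9d3bd_h Pool.Agent.MP_a9d3bd_v

variable {K ι : Type} [Field K]

theorem DG_td {E : Type} [Field E] [Algebra K E] (hE : FF K E 1) (y : ι → E)
    (hy : ¬ ND K y) : td K (af K fun a => cst K E (y a) * RatFunc.X) ≤ 1 := by
  have hL := ff_ratFunc hE
  by_cases h0 : ∀ a, y a = 0
  · have h1 : af K (fun a => cst K E (y a) * RatFunc.X) ≤ ⊥ :=
      (af_le_iff _ _).2 fun a => by rw [h0 a, map_zero, zero_mul]; exact zero_mem _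
    have h2 := tr_td_mono hL.tr h1
    rw [td_bot] at h2
    omega
  · obtain ⟨i, hi⟩ := not_forall.1 h0
    rw [BLP_af (cst K E) hi RatFunc.X_ne_zero, ← T1_single]
    have h1 := tr_td_sup_le hL.tr ((kf K y).map (cst K E))
      (fun _ : Unit => cst K E (y i) * RatFunc.X)
    rw [td_map, Fintype.card_unit] at h1
    have h2 := tr_td_le hE.tr (kf K y)
    have h3 := mt (nd_iff hE y).2 hy
    omega

theorem DG_cyl [Finite ι] {E : Type} [Field E] [Algebra K E] (hE : FF K E 1) (y : ι → E)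
    (t : R1 → E) (hy : ¬ ND K y) (h : NDa K (cp K y t)) : CylP none (ak K (cp K y t)) := by
  have hL := ff_ratFunc hE
  refine (cylP_tds none _).2 ?_
  have h1 : tds K (Set.range (cp K y t)) = 1 + 1 := (nda_iff hL _).1 h
  have h2 : IntermediateField.adjoin K (cp K y t '' {s | s ≠ inr none}) ≤
      af K fun a => cst K E (y a) * RatFunc.X := by
    refine IntermediateField.adjoin.mono _ _ _ ?_
    rintro _ ⟨a | _ | e, hs, rfl⟩
    · exact ⟨a, rfl⟩
    · exact absurd rfl hs
    · exact e.elim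
  have h3 : tds K (cp K y t '' {s | s ≠ inr none}) ≤ 1 :=
    (tr_td_mono hL.tr h2).trans (DG_td hE y hy)
  exact (Nat.succ_le_succ h3).trans h1.ge

section
variable {ν L : Type} [Field L] [Algebra K L]

theorem DG_surj (f : MvPolynomial (ι ⊕ Option ν) K) : ∃ p : Polynomial (MvPolynomial (ι ⊕ ν) K),
    f = p.eval₂ (rename (R := K) (Sum.map id some : ι ⊕ ν → ι ⊕ Option ν)).toRingHom
      (X (inr none)) := by
  induction f using MvPolynomial.induction_on with
  | C a => exact ⟨Polynomial.C (C a), by simp⟩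
  | add f g hf hg =>
    obtain ⟨p, rfl⟩ := hf
    obtain ⟨q, rfl⟩ := hg
    exact ⟨p + q, by rw [Polynomial.eval₂_add]⟩
  | mul_X f s hf =>
    obtain ⟨p, rfl⟩ := hf
    rcases s with a | _ | b
    · exact ⟨p * Polynomial.C (X (inl a)), by simp [Polynomial.eval₂_mul]⟩
    · exact ⟨p * Polynomial.X, by simp⟩
    · exact ⟨p * Polynomial.C (X (inr b)), by simp [Polynomial.eval₂_mul]⟩

theorem DG_ren (x : ι ⊕ Option ν → L) (g : MvPolynomial (ι ⊕ ν) K) :
    rename (Sum.map id some : ι ⊕ ν → ι ⊕ Option ν) g ∈ (ak K x).asIdeal ↔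
      g ∈ (ak K (lo x)).asIdeal := by
  rw [mem_ak, mem_ak, aeval_rename]
  rfl

theorem DG_ideal (x : ι ⊕ Option ν → L)
    (hT : Transcendental (IntermediateField.adjoin K (Set.range (lo x))) (x (inr none))) :
    (ak K (lo x)).asIdeal.map
      (rename (Sum.map id some : ι ⊕ ν → ι ⊕ Option ν) : _ →ₐ[K] MvPolynomial _ K) =
      (ak K x).asIdeal := by
  refine le_antisymm (Ideal.map_le_iff_le_comap.2 fun g hg => (DG_ren x g).2 hg) fun f hf => ?_
  obtain ⟨p, rfl⟩ := DG_surj f
  let φ : MvPolynomial (ι ⊕ ν) K →ₐ[K] IntermediateField.adjoin K (Set.range (lo x)) :=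
    aeval fun a => ⟨lo x a, IntermediateField.subset_adjoin _ _ ⟨a, rfl⟩⟩
  have e : (algebraMap (IntermediateField.adjoin K (Set.range (lo x))) L).comp φ.toRingHom =
      (aeval x : MvPolynomial (ι ⊕ Option ν) K →ₐ[K] L).toRingHom.comp
        (rename (R := K) (Sum.map id some : ι ⊕ ν → ι ⊕ Option ν)).toRingHom := by
    refine MvPolynomial.ringHom_ext (fun c => ?_) fun a => ?_
    · simp [φ]
    · simp [φ, lo]
  have h1 : p.map φ.toRingHom = 0 := by
    refine transcendental_iff.1 hT _ ?_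
    rw [Polynomial.aeval_def, Polynomial.eval₂_map, e]
    have h2 := Polynomial.hom_eval₂ p
      (rename (R := K) (Sum.map id some : ι ⊕ ν → ι ⊕ Option ν)).toRingHom
      (aeval x : MvPolynomial (ι ⊕ Option ν) K →ₐ[K] L).toRingHom (X (inr none))
    have h3 : (aeval x : MvPolynomial (ι ⊕ Option ν) K →ₐ[K] L).toRingHom (X (inr none)) =
      x (inr none) := aeval_X _ _
    rw [h3] at h2
    rw [← h2]
    exact hf
  rw [Polynomial.eval₂_eq_sum, Polynomial.sum_def]
  refine Ideal.sum_mem _ fun n _ => Ideal.mul_mem_right _ _ (Ideal.mem_map_of_mem _ ?_)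
  rw [← DG_ren, mem_ak]
  have h4 := RingHom.congr_fun e (p.coeff n)
  have h5 : φ.toRingHom (p.coeff n) = 0 := by rw [← Polynomial.coeff_map, h1, Polynomial.coeff_zero]
  rw [RingHom.comp_apply, h5, map_zero] at h4
  exact h4.symm

theorem DG_key [Finite ι] [Finite ν] (x : ι ⊕ Option ν → L)
    (hT : Transcendental (IntermediateField.adjoin K (Set.range (lo x))) (x (inr none))) :
    cyl (fc0 1 (pc (ak K x))) = pc (ak K x) := by
  let x1 : ι ⊕ Option ν → L := Sum.elim (fun a => x (inl a)) fun o => o.elim 1 fun b => x (inr (some b))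
  have e1 : lo x1 = lo x := funext fun a => by rcases a with a | a <;> rfl
  have hX : (X (inr none) - C 1 : MvPolynomial (ι ⊕ Option ν) K) ∈ (ak K x1).asIdeal := by
    rw [mem_ak, map_sub, aeval_X, aeval_C, map_one]
    exact sub_self (1 : L)
  have hs : Ideal.span {(X (inr none) - C 1 : MvPolynomial (ι ⊕ Option ν) K)} ≤
      (ak K x1).asIdeal := (Ideal.span_singleton_le_iff_mem _).2 hX
  have hI : (ak K x).asIdeal ⊔ Ideal.span {X (inr none) - C 1} = (ak K x1).asIdeal := by
    refine le_antisymm (sup_le ?_ hs) fun f hf => ?_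
    · rw [← DG_ideal x hT, ← e1]
      exact Ideal.map_le_iff_le_comap.2 fun g hg => (DG_ren x1 g).2 hg
    · obtain ⟨p, rfl⟩ := DG_surj f
      have h1 := Polynomial.sub_dvd_eval_sub (X (inr none)) (C 1)
        (p.map (rename (R := K) (Sum.map id some : ι ⊕ ν → ι ⊕ Option ν)).toRingHom)
      have h2 : (p.map (rename (R := K) (Sum.map id some : ι ⊕ ν → ι ⊕ Option ν)).toRingHom).eval
          (C 1) = rename (Sum.map id some : ι ⊕ ν → ι ⊕ Option ν) (p.eval 1) := by
        rw [map_one, Polynomial.eval_map, Polynomial.eval₂_at_one]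
        rfl
      rw [h2, Polynomial.eval_map] at h1
      have h3 := Ideal.mem_span_singleton.2 h1
      have h4 := sub_mem hf (hs h3)
      rw [sub_sub_cancel, DG_ren, e1, ← DG_ren] at h4
      have h5 := add_mem (Ideal.mem_sup_left h4) (Ideal.mem_sup_right h3)
      rwa [add_sub_cancel] at h5
  have hd : ptd (ak K x) = ptd (ak K x1) + 1 := by
    rw [ptd_ak', ptd_ak', Cyl_range x, tds_insert_tr (Set.finite_range _) hT, Cyl_range x1, e1]
    have : IntermediateField.adjoin K (insert (x1 (inr none)) (Set.range (lo x))) =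
        IntermediateField.adjoin K (Set.range (lo x)) := by
      refine le_antisymm (IntermediateField.adjoin_le_iff.2 ?_)
        (IntermediateField.adjoin.mono _ _ _ (Set.subset_insert _ _))
      exact Set.insert_subset (one_mem _) (IntermediateField.subset_adjoin _ _)
    rw [tds, tds, this]
  rw [fc0, Face_fc, dvL_eq_pc hI hd, Face_psh spl_opt hX, cmp_rn_ak, Cyl_pc]
  have e2 : (fun t => x1 (Sum.map id some t)) = lo x := e1
  have e3 : (ak K (lo x)).asIdeal.map
      (rename (Sum.map id some : ι ⊕ ν → ι ⊕ Option ν) : _ →ₐ[K] MvPolynomial _ K) ⊔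
      (aff K Unit).asIdeal.map (rename (fun _ : Unit => inr none) : _ →ₐ[K] MvPolynomial _ K) =
      (ak K x).asIdeal := by
    rw [DG_ideal x hT, aff, Ideal.map_bot, sup_bot_eq]
  rw [e2, tp, dif_pos (e3 ▸ (ak K x).isPrime)]
  exact congrArg pc (PrimeSpectrum.ext e3)

end

theorem sDG : StDG := by
  intro K ι _ _ E _ _ hE y t hy
  by_cases h : NDa K (cp K y t)
  · have h1 := (cylP_ak none _).1 (DG_cyl hE y t hy h)
    have e : cp K y t '' {s | s ≠ inr none} = Set.range (lo (cp K y t)) := by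
      ext z
      constructor
      · rintro ⟨a | _ | i, h1, rfl⟩
        exacts [⟨inl a, rfl⟩, absurd rfl h1, ⟨inr i, rfl⟩]
      · rintro ⟨a | i, rfl⟩
        exacts [⟨inl a, inl_ne_inr, rfl⟩, i.elim]
    rw [e] at h1
    rw [cc, Cyc_smul, map_smul, nrm, LinearMap.sub_apply, LinearMap.id_apply,
      LinearMap.comp_apply, DG_key _ h1, sub_self, smul_zero]
  · rw [cc, cyc_deg h, map_zero]

end Pool.Agent.MP_a9d3bd_x
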