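import Pool.Agent.MP_a9d3bd_x.St

namespace Pool.Agent.MP_a9d3bd_x

open MvPolynomial Sum Pool.Agent.MP_a9d3bd_q Pool.Agent.MP_a9d3bd_h Pool.Agent.MP_a9d3bd_v

theorem FACE_lo {K ι ν E : Type} [Field K] [Finite ι] [Field E] [Algebra K E]
    {O' : DV K (RatFunc E)} {V : DV K E} (h : Lies (cst K E) O' V) (y : ι → E)
    (t : Option ν → E) (hT : cst K E (V.pi ^ V.mu y) * RatFunc.X ∈ O'.O) :
    (O'.Int (cp K y t) ↔ V.Int t) ∧ lo (O'.ra (cp K y t)) =
      Sum.elim (fun a => h.hom (V.red y a) * O'.res (cst K E (V.pi ^ V.mu y) * RatFunc.X))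
        fun i => h.hom (V.res (t (some i))) := by
  obtain ⟨h1, h2⟩ := BLP_ra h y hT
  refine ⟨⟨fun hI i => (h _).2 (hI (inr i)), fun hI s => ?_⟩, funext fun s => ?_⟩
  · rcases s with a | i
    · exact h1 a
    · exact (h _).1 (hI i)
  · rcases s with a | i
    · exact congrFun h2 a
    · exact (h.hom_res _).symm

theorem FACE_conv {K ι ν E : Type} [Field K] [Finite ι] [Field E] [Algebra K E] {d : ℕ}
    (hE : FF K E (d + 1)) {y : ι → E} (hy : y ≠ 0) (t : Option ν → E) {z : E}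
    (O' : DV K (RatFunc E)) (hI : O'.Int (cp K y t)) (hz : O'.ord (cst K E z) ≠ 0)
    (hN : NDa K (lo (O'.ra (cp K y t)))) :
    ∃ (V : DV K E) (h : Lies (cst K E) O' V), cst K E (V.pi ^ V.mu y) * RatFunc.X ∈ O'.O ∧
      Transcendental h.hom.fieldRange (O'.res (cst K E (V.pi ^ V.mu y) * RatFunc.X)) := by
  have hL := ff_ratFunc hE
  have hn : ∃ z, cst K E z ∉ O'.O := by
    by_contra hn
    push Not at hn
    exact hz (O'.ord_in _ hn z)
  obtain ⟨V, h⟩ := exists_lies hE hL _ O' hn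
  have hX : (RatFunc.X : RatFunc E) ≠ 0 := RatFunc.X_ne_zero
  have hT : cst K E (V.pi ^ V.mu y) * RatFunc.X ∈ O'.O := by
    obtain ⟨a, ha, hm⟩ := V.exists_mu hy
    have h1 : cst K E (y a) * RatFunc.X ∈ O'.O := hI (inl a)
    rw [← O'.ord_nonneg_iff, O'.ord_mul ((map_ne_zero _).2 ha) hX, h.ord_eq, hm] at h1
    rwa [← O'.ord_nonneg_iff, BLP_ord h y hX]
  refine ⟨V, h, hT, ?_⟩
  have htd := (nda_iff (O'.ff_K hL) _).1 hN
  have htr := O'.tr_K hL
  refine (tr_td_succ htr _ _).2 ?_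
  rw [td_fieldRange, (V.ff_K hE).td_eq]
  refine le_antisymm (tr_td_le htr _) (htd.symm.le.trans (tr_td_mono htr ?_))
  rw [(FACE_lo h y t hT).2]
  refine (af_le_iff _ _).2 fun s => ?_
  rcases s with a | i
  · refine mul_mem ?_ ?_
    · exact (le_sup_left : h.hom.fieldRange ≤ _) ⟨_, rfl⟩
    · exact (le_sup_right :
        IntermediateField.adjoin K {O'.res (cst K E (V.pi ^ V.mu y) * RatFunc.X)} ≤ _)
        (IntermediateField.mem_adjoin_simple_self K _)
  · exact (le_sup_left : h.hom.fieldRange ≤ _) ⟨_, rfl⟩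

open Classical in
theorem FACE_vf0 {K ι ν E : Type} [Field K] [Finite ι] [Finite ν] [Field E] [Algebra K E] {d : ℕ}
    (hE : FF K E (d + 1)) (y : ι ⊕ Option ν → E) (ε : K)
    (hf : y (inr none) ≠ algebraMap K E ε) (w : Pr K (ι ⊕ ν) → ℚ) : pair w (fc0 ε (cyc K y)) =
      ∑ᶠ O : DV K E, if O.Int y then (O.ord (y (inr none) - algebraMap K E ε) : ℚ) *
        pair w (cyc K (lo (O.ra y))) else 0 := by
  have e : aeval y (X (inr none) - C ε : MvPolynomial (ι ⊕ Option ν) K) =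
      y (inr none) - algebraMap K E ε := by rw [map_sub, aeval_X, aeval_C]
  have e1 : fc0 ε (cyc K y) = prm some (dvL (X (inr none) - C ε) (cyc K y)) := rfl
  rw [e1, pair_lin, vf hE y (by rw [e]; exact sub_ne_zero.2 hf), e]
  refine finsum_congr fun O => ?_
  rw [← pair_lin, prm_cyc]
  rfl

theorem sFACE (hC : StCC) : StFACE := by
  classical
  intro K ι ν _ _ _ E _ _ d hE y t ε hy hε w
  have e0 : cp K y t (inr none) - algebraMap K (RatFunc E) ε =
      cst K E (t none - algebraMap K E ε) := by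
    rw [map_sub, AlgHom.commutes]; rfl
  have hf : cp K y t (inr none) ≠ algebraMap K (RatFunc E) ε := by
    rw [← sub_ne_zero, e0]
    exact (map_ne_zero _).2 (sub_ne_zero.2 hε)
  have hg := fun O : DV K E =>
    have h := BLP_scale (cst K E).fieldRange tr_X (c := cst K E (O.pi ^ O.mu y)) ⟨_, rfl⟩
      ((map_ne_zero _).2 (zpow_ne_zero _ O.pi_ne))
    gauss (cst K E) h.1 (h.2.trans top_X) O
  choose γ hl hT htr he hto huq using hg
  have hinj : Function.Injective γ := fun O₁ O₂ h => (hl O₁).unique (h ▸ hl O₂)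
  rw [cc, FACE_vf0 (ff_ratFunc hE) _ ε hf w, e0, ← finsum_mem_univ,
    finsum_mem_inter_support_eq' _ Set.univ (Set.range γ), finsum_mem_range hinj]
  · refine finsum_congr fun V => ?_
    obtain ⟨h1, h2⟩ := FACE_lo (hl V) y t (hT V)
    rw [h2, (hC K ι ν V.K (γ V).K (V.red y) fun i => V.res (t (some i))).2.1 _ _ (htr V) (hto V),
      (hl V).ord_eq, he, one_mul]
    exact if_congr h1 rfl rfl
  · intro O' hO'
    refine ⟨fun _ => ?_, fun _ => trivial⟩
    have h0 := Function.mem_support.1 hO'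
    have hI : O'.Int (cp K y t) := by
      by_contra hI
      exact h0 (if_neg hI)
    rw [if_pos hI] at h0
    obtain ⟨h1, h2⟩ := mul_ne_zero_iff.1 h0
    obtain ⟨V, h, h3, h4⟩ := FACE_conv hE hy t O' hI (fun h => h1 (by rw [h, Int.cast_zero])) (by
      by_contra hN
      exact h2 (by rw [cyc_deg hN, map_zero]))
    exact ⟨V, (huq V O' h h3 h4).symm⟩

end Pool.Agent.MP_a9d3bd_x
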