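import Pool.Agent.MP_a9d3bd_x.St

namespace Pool.Agent.MP_a9d3bd_x

open MvPolynomial Sum Pool.Agent.MP_a9d3bd_q Pool.Agent.MP_a9d3bd_h Pool.Agent.MP_a9d3bd_v

section Loc
variable {k F : Type} [Field k] [Field F] [Algebra k F] (O : DV k F)

theorem MT_unit {x c : F} (hx : x ∈ O.O) (hc : c ∈ O.O) (h : O.res x ≠ O.res c) :
    O.ord (x - c) = 0 := by
  refine ((O.res_ne_zero_iff _).1 ?_).2
  rw [O.res_sub hx hc]
  exact sub_ne_zero.2 h

theorem MT_eq {x c : F} (hx : x ∈ O.O) (hc : c ∈ O.O) (h : 0 < O.ord (x - c)) :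
    O.res x = O.res c := by
  have h1 := O.res_eq_zero_of_pos h
  rw [O.res_sub hx hc] at h1
  exact sub_eq_zero.1 h1

theorem MT_inf {x c : F} (hx : O.ord x < 0) (hc : c ∈ O.O) :
    O.ord ((x - c) / x) = 0 ∧ O.res ((x - c) / x) = 1 := by
  have h0 : x ≠ 0 := by
    rintro rfl
    rw [O.ord_zero] at hx
    exact lt_irrefl _ hx
  have hp : 0 < O.ord x⁻¹ := by rw [O.ord_inv]; omega
  have hi : x⁻¹ ∈ O.O := (O.ord_nonneg_iff _).1 hp.le
  have e : (x - c) / x = 1 - c * x⁻¹ := by field_simp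
  have h1 : O.res ((x - c) / x) = 1 := by
    rw [e, O.res_sub (one_mem _) (mul_mem hc hi), O.res_one, O.res_mul hc hi,
      O.res_eq_zero_of_pos hp, mul_zero, sub_zero]
  exact ⟨((O.res_ne_zero_iff _).1 (by rw [h1]; exact one_ne_zero)).2, h1⟩

theorem MT_loc {x u v : F} (hx : x ≠ 0) (hb : x - v ≠ 0) (hc : x - u * v ≠ 0)
    (hu : O.res u ≠ 0) (hv : O.res v ≠ 0) (h1 : O.res u ≠ 1) (L : O.K → ℚ) (hL : L 1 = 0) :
    (O.ord x = 0 ∨ O.ord (u * (x - v) / (x - u * v)) = 0) ∧
    (O.ord x : ℚ) * L (O.res (u * (x - v) / (x - u * v))) -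
      (O.ord (u * (x - v) / (x - u * v)) : ℚ) * L (O.res x) =
      (if 0 < O.ord (x - u * v) then (O.ord (x - u * v) : ℚ) else 0) * L (O.res (u * v)) -
      (if 0 < O.ord x⁻¹ then (O.ord x⁻¹ : ℚ) else 0) * L (O.res u) -
      (if 0 < O.ord (x - v) then (O.ord (x - v) : ℚ) else 0) * L (O.res v) := by
  obtain ⟨u0, ou⟩ := (O.res_ne_zero_iff u).1 hu
  obtain ⟨v0, ov⟩ := (O.res_ne_zero_iff v).1 hv
  have um : u ∈ O.O := (O.ord_nonneg_iff _).1 ou.ge
  have vm : v ∈ O.O := (O.ord_nonneg_iff _).1 ov.ge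
  have wm : u * v ∈ O.O := mul_mem um vm
  have rw' : O.res (u * v) = O.res u * O.res v := O.res_mul um vm
  have hw : O.res (u * v) ≠ 0 := by rw [rw']; exact mul_ne_zero hu hv
  have hvw : O.res v ≠ O.res (u * v) := by
    rw [rw']
    intro h
    apply h1
    have h2 : O.res u * O.res v = 1 * O.res v := by rw [← h, one_mul]
    exact mul_right_cancel₀ hv h2
  have og : O.ord (u * (x - v) / (x - u * v)) = O.ord (x - v) - O.ord (x - u * v) := by
    rw [O.ord_div (mul_ne_zero u0 hb) hc, O.ord_mul u0 hb, ou, zero_add]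
  rcases lt_trichotomy (O.ord x) 0 with h | h | h
  · obtain ⟨a1, a2⟩ := MT_inf O h vm
    obtain ⟨b1, b2⟩ := MT_inf O h wm
    have e : u * (x - v) / (x - u * v) = u * ((x - v) / x) / ((x - u * v) / x) := by field_simp
    have am : (x - v) / x ∈ O.O := (O.ord_nonneg_iff _).1 a1.ge
    have rg : O.res (u * (x - v) / (x - u * v)) = O.res u := by
      rw [e, O.res_div (mul_mem um am) b1, O.res_mul um am, a2, b2, mul_one, div_one]
    rw [O.ord_div hb hx] at a1
    rw [O.ord_div hc hx] at b1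
    have z : O.ord (u * (x - v) / (x - u * v)) = 0 := by omega
    refine ⟨Or.inr z, ?_⟩
    rw [z, rg, if_neg (by omega), if_neg (by omega : ¬ 0 < O.ord (x - v)), O.ord_inv,
      if_pos (by omega)]
    push_cast
    ring
  · have xm : x ∈ O.O := (O.ord_nonneg_iff _).1 h.ge
    refine ⟨Or.inl h, ?_⟩
    have bn : 0 ≤ O.ord (x - v) := (O.ord_nonneg_iff _).2 (sub_mem xm vm)
    have cn : 0 ≤ O.ord (x - u * v) := (O.ord_nonneg_iff _).2 (sub_mem xm wm)
    rw [og, O.ord_inv, h, if_neg (by omega : ¬ (0 : ℤ) < -0)]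
    by_cases p1 : 0 < O.ord (x - v)
    · have r := MT_eq O xm vm p1
      have z := MT_unit O xm wm (by rw [r]; exact hvw)
      rw [z, r, if_pos p1, if_neg (lt_irrefl _)]
      push_cast
      ring
    · have z1 : O.ord (x - v) = 0 := by omega
      by_cases p2 : 0 < O.ord (x - u * v)
      · rw [MT_eq O xm wm p2, z1, if_pos p2, if_neg (lt_irrefl _)]
        push_cast
        ring
      · have z2 : O.ord (x - u * v) = 0 := by omega
        rw [z1, z2, if_neg (lt_irrefl _)]
        push_cast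
        ring
  · have xm : x ∈ O.O := (O.ord_nonneg_iff _).1 h.le
    have r := O.res_eq_zero_of_pos h
    have z1 := MT_unit O xm vm (by rw [r]; exact hv.symm)
    have z2 := MT_unit O xm wm (by rw [r]; exact hw.symm)
    have z : O.ord (u * (x - v) / (x - u * v)) = 0 := by omega
    refine ⟨Or.inr z, ?_⟩
    have rg : O.res (u * (x - v) / (x - u * v)) = 1 := by
      rw [O.res_div (mul_mem um (sub_mem xm vm)) z2, O.res_mul um (sub_mem xm vm),
        O.res_sub xm vm, O.res_sub xm wm, r, rw']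
      field_simp
      ring
    rw [z, rg, hL, z1, z2, O.ord_inv, if_neg (lt_irrefl _), if_neg (by omega : ¬ 0 < -O.ord x)]
    push_cast
    ring

end Loc

section Rat
variable {E : Type} [Field E]

theorem MT_W {z : RatFunc E} (h : (RatFunc.X : RatFunc E) ∈ IntermediateField.adjoin E {z}) (a : ℚ) :
    z ≠ 0 ∧ (Function.support fun O : DV E (RatFunc E) =>
      (if 0 < O.ord z then (O.ord z : ℚ) else 0) * (Module.finrank E O.K * a)).Finite ∧
    ∑ᶠ O : DV E (RatFunc E),
      (if 0 < O.ord z then (O.ord z : ℚ) else 0) * (Module.finrank E O.K * a) = a := by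
  classical
  have ht : Transcendental E z := by
    intro ha
    have := IntermediateField.isAlgebraic_adjoin_simple ha.isIntegral
    exact RatFunc.transcendental_X
      (IntermediateField.isAlgebraic_iff.1 (Algebra.IsAlgebraic.isAlgebraic (R := E)
        (⟨_, h⟩ : IntermediateField.adjoin E {z})))
  have htop : IntermediateField.adjoin E {z} = ⊤ := by
    rw [eq_top_iff, ← RatFunc.adjoin_X]
    exact IntermediateField.adjoin_simple_le_iff.2 h
  obtain ⟨s, hs, hsum⟩ := zero_sum (ff_ratFunc (ff_self (k := E))) ht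
  have hsup : (Function.support fun O : DV E (RatFunc E) =>
      (if 0 < O.ord z then (O.ord z : ℚ) else 0) * (Module.finrank E O.K * a)) ⊆ s := by
    intro O hO
    by_contra hn
    apply hO
    have : ¬ 0 < O.ord z := fun h' => hn ((hs O).2 h')
    simp only [if_neg this, zero_mul]
  refine ⟨PF1_ne ht, s.finite_toSet.subset hsup, ?_⟩
  rw [finsum_eq_sum_of_support_subset _ hsup]
  rw [htop, IntermediateField.finrank_top, Nat.cast_one] at hsum
  calc _ = ∑ O ∈ s, ((O.ord z : ℚ) * Module.finrank E O.K) * a :=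
        Finset.sum_congr rfl fun O hO => by rw [if_pos ((hs O).1 hO), mul_assoc]
    _ = a := by rw [← Finset.sum_mul, hsum, one_mul]

theorem MT_sub (c : E) : (RatFunc.X : RatFunc E) ∈
    IntermediateField.adjoin E {RatFunc.X - algebraMap E (RatFunc E) c} := by
  have h := add_mem (IntermediateField.mem_adjoin_simple_self E
    (RatFunc.X - algebraMap E (RatFunc E) c)) (IntermediateField.algebraMap_mem _ c)
  rwa [sub_add_cancel] at h

theorem MT_inv : (RatFunc.X : RatFunc E) ∈
    IntermediateField.adjoin E {(RatFunc.X : RatFunc E)⁻¹} := by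
  have h := inv_mem (IntermediateField.mem_adjoin_simple_self E (RatFunc.X : RatFunc E)⁻¹)
  rwa [inv_inv] at h

end Rat

variable {K ι : Type} [Field K] [Finite ι]

theorem MT_const {E : Type} [Field E] [Algebra K E] (hE : FF K E 1) {y : ι → E} (hy : ND K y)
    (O : DV K (RatFunc E)) (hO : ND K (O.red fun a => cst K E (y a))) (c : E) :
    cst K E c ∈ O.O := by
  have hF : FF K (RatFunc E) (1 + 1) := ff_ratFunc hE
  have hn : ¬ ND K fun a => cst K E (y a) := by
    rw [nd_iff hF, kf_map, td_map, (nd_iff hE y).1 hy]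
    omega
  refine O.alg_mem' _ (O.sub_of_nd hF hn hO).1 ?_
  by_contra htr
  have h1 := (tr_td_succ hF.tr _ _).1 htr
  have h2 : kf K (fun a => cst K E (y a)) ⊔ IntermediateField.adjoin K {cst K E c} ≤
      (cst K E).fieldRange :=
    sup_le (kf_le_of fun a => ⟨y a, rfl⟩) (IntermediateField.adjoin_simple_le_iff.2 ⟨c, rfl⟩)
  have h3 := tr_td_mono hF.tr h2
  rw [h1, td_fieldRange, hE.td_eq, (O.sub_of_nd hF hn hO).2] at h3
  omega

theorem MT_mul {S : Set (MvPolynomial ι K)} {Λ : LF K ι} (h : GF0 S Λ) (E : Type) [Field E]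
    [Algebra K E] (hE : FF K E 1) (y : ι → E) (u v : E) (hy : y ≠ 0) (hS : On S y) (hu : u ≠ 0)
    (hv : v ≠ 0) : Λ E y (u * v) = Λ E y u + Λ E y v := by
  by_cases hnd : ND K y
  swap
  · rw [h.degen E hE y _ hnd, h.degen E hE y _ hnd, h.degen E hE y _ hnd, add_zero]
  by_cases h1 : u = 1
  · rw [h1, one_mul, h.one, zero_add]
  have hF : FF K (RatFunc E) (1 + 1) := ff_ratFunc hE
  obtain ⟨c0, c1, c2⟩ := MT_W (MT_sub (u * v)) (Λ E y (u * v))
  obtain ⟨a0, a1, a2⟩ := MT_W (MT_inv (E := E)) (Λ E y u)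
  obtain ⟨b0, b1, b2⟩ := MT_W (MT_sub v) (Λ E y v)
  have hx : (RatFunc.X : RatFunc E) ≠ 0 := RatFunc.X_ne_zero
  have hb : RatFunc.X - cst K E v ≠ 0 := b0
  have hc : RatFunc.X - cst K E u * cst K E v ≠ 0 := by rw [← map_mul]; exact c0
  have loc := fun (O : DV K (RatFunc E)) (hO : ∀ c, cst K E c ∈ O.O) =>
    MT_loc O hx hb hc (u := cst K E u)
      (by rw [← O.homIn_apply _ hO]; exact (_root_.map_ne_zero _).2 hu)
      (by rw [← O.homIn_apply _ hO]; exact (_root_.map_ne_zero _).2 hv)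
      (by
        rw [← O.homIn_apply _ hO]
        exact fun e => h1 ((map_eq_one_iff _ (O.homIn _ hO).injective).1 e))
      (Λ O.K (O.red fun a => cst K E (y a))) (h.one _ _)
  have hx1 : (RatFunc.X : RatFunc E) ≠ 1 := by
    have := (MT_W (MT_sub (1 : E)) 0).1
    rw [map_one] at this
    exact sub_ne_zero.1 this
  have hg1 : cst K E u * (RatFunc.X - cst K E v) / (RatFunc.X - cst K E u * cst K E v) ≠ 1 := by
    intro e
    rw [div_eq_one_iff_eq hc] at e
    have e2 : (cst K E u - 1) * RatFunc.X = 0 := by linear_combination e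
    rcases mul_eq_zero.1 e2 with e3 | e3
    · exact h1 ((map_eq_one_iff _ (cst K E).injective).1 (sub_eq_zero.1 e3))
    · exact hx e3
  have key := h.t0 (RatFunc E) hF (fun a => cst K E (y a)) RatFunc.X _
    ((map_ne_zero_pt _ y).2 hy) ((on_map _ S y).2 hS) hx
    (div_ne_zero (mul_ne_zero ((_root_.map_ne_zero _).2 hu) hb) hc) hx1 hg1
    fun O hO => (loc O (MT_const hE hnd O hO)).1
  rw [finsum_down (κ := E) hE.tr _ (fun O hO => by
    refine MT_const hE hnd O ?_
    by_contra hn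
    apply hO
    rw [h.degen _ (O.ff_K hF) _ _ hn, h.degen _ (O.ff_K hF) _ _ hn, mul_zero, mul_zero,
      sub_zero])] at key
  have val : ∀ (O : DV E (RatFunc E)) (c : E),
      Λ (O.down K).K ((O.down K).red fun a => cst K E (y a)) ((O.down K).res (cst K E c)) =
        Module.finrank E O.K * Λ E y c := fun O c => by
    rw [← hdeg_homIn_down (k := K) O, ← h.ext E _ hE ((O.down K).ff_K hF),
      (O.down K).red_in (cst K E) (down_const O), (O.down K).homIn_apply]
    rfl
  rw [finsum_congr (g := fun O : DV E (RatFunc E) =>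
    (if 0 < O.ord (RatFunc.X - algebraMap E (RatFunc E) (u * v)) then
      (O.ord (RatFunc.X - algebraMap E (RatFunc E) (u * v)) : ℚ) else 0) *
        (Module.finrank E O.K * Λ E y (u * v)) -
    (if 0 < O.ord (RatFunc.X : RatFunc E)⁻¹ then (O.ord (RatFunc.X : RatFunc E)⁻¹ : ℚ) else 0) *
        (Module.finrank E O.K * Λ E y u) -
    (if 0 < O.ord (RatFunc.X - algebraMap E (RatFunc E) v) then
      (O.ord (RatFunc.X - algebraMap E (RatFunc E) v) : ℚ) else 0) *
        (Module.finrank E O.K * Λ E y v)) fun O => by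
      rw [(loc (O.down K) (down_const O)).2, ← map_mul, val, val, val]
      rfl] at key
  rw [finsum_sub_distrib ((c1.union a1).subset (Function.support_sub _ _)) b1,
    finsum_sub_distrib c1 a1, c2, a2, b2] at key
  linear_combination key

theorem sMT : StMT := by
  intro K ι _ _ S hS Λ h
  refine ⟨h.ext, h.scale, h.degen, MT_mul h, ?_⟩
  intro F _ _ hF y f g hy hon _ hf hg hO
  have one : ∀ O : DV K F, O.tame f g = 1 → Λ O.K (O.red y) (O.tame f g) = 0 := fun O e => by
    rw [e, h.one]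
  by_cases f1 : f = 1
  · refine finsum_eq_zero_of_forall_eq_zero fun O => one O ?_
    rw [f1, O.tame_of_left g O.ord_one, O.res_one, one_zpow]
  by_cases g1 : g = 1
  · refine finsum_eq_zero_of_forall_eq_zero fun O => one O ?_
    rw [g1, O.tame_of_right f O.ord_one, O.res_one, one_zpow]
  rw [← h.t0 F hF y f g hy hon hf hg f1 g1 hO]
  refine finsum_congr fun O => ?_
  have hK : FF K O.K 1 := O.ff_K hF
  by_cases hn : ND K (O.red y)
  swap
  · rw [h.degen _ hK _ _ hn, h.degen _ hK _ _ hn, h.degen _ hK _ _ hn, mul_zero, mul_zero, sub_zero]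
  have hz := fun (z : O.K) (hz : z ≠ 0) (n : ℤ) => RA1_zpow (Λ O.K (O.red y))
    (fun a b ha hb => MT_mul h O.K hK _ a b (O.red_ne hy) (O.on_red hS hon) ha hb) hz n
  rcases hO O hn with e | e
  · rw [O.tame_of_left g e, hz _ ((O.res_ne_zero_iff f).2 ⟨hf, e⟩), e]
    push_cast
    ring
  · rw [O.tame_of_right f e, hz _ ((O.res_ne_zero_iff g).2 ⟨hg, e⟩), e]
    push_cast
    ring

end Pool.Agent.MP_a9d3bd_x
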