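import Pool.Agent.MP_a9d3bd_x.St

namespace Pool.Agent.MP_a9d3bd_x

open MvPolynomial Sum Pool.Agent.MP_a9d3bd_q Pool.Agent.MP_a9d3bd_h Pool.Agent.MP_a9d3bd_v

section
variable {K ι : Type} [Field K] [IsAlgClosed K] [Finite ι]

omit [IsAlgClosed K] [Finite ι] in
theorem NRM_ss (W : Cy K (ι ⊕ Option R1)) : sw (sw W) = W := by
  unfold sw
  rw [prm_prm]
  simp only [Equiv.swap_apply_self]
  exact prm_id W

theorem NRM_d0 (a : K) (W : Cy K (ι ⊕ Option R1)) :
    dvL (X (inr none) - C a) (sw W) = sw (dvL (X (inr (some none)) - C a) W) := by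
  have c := dv_prm (Equiv.swap (none : Option R1) (some none)) none a W
  rw [Equiv.swap_apply_left] at c
  exact c

theorem NRM_d1 (a : K) (W : Cy K (ι ⊕ Option R1)) :
    dvL (X (inr (some none)) - C a) (sw W) = sw (dvL (X (inr none) - C a) W) := by
  have c := dv_prm (Equiv.swap (none : Option R1) (some none)) (some none) a W
  rw [Equiv.swap_apply_right] at c
  exact c

omit [IsAlgClosed K] [Finite ι] in
theorem NRM_pp (W : Cy K (ι ⊕ Option R1)) :
    prm (some : Empty → R1) (prm some (sw W)) = prm (some : Empty → R1) (prm some W) := by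
  unfold sw
  rw [prm_prm, prm_prm, prm_prm]
  exact congrArg (fun f : Empty → Option R1 => prm f W) (funext fun i => i.elim)

omit [IsAlgClosed K] [Finite ι] in
theorem NRM_gp {S : Set (MvPolynomial ι K)} {e : ℕ} {W : Cy K (ι ⊕ Option R1)}
    (h : Al (AdmI S e) W) {a b : K} (ha : a = 0 ∨ a = 1) (hb : b = 0 ∨ b = 1) :
    Al (GP [X (inr (some none)) - C a, X (inr none) - C b]) W :=
  h.mono fun _ hP => hP.gd.gp (r := some none) (r' := none) (by simp) ha hb

theorem NRM_ff {S : Set (MvPolynomial ι K)} {e : ℕ} {W : Cy K (ι ⊕ Option R1)}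
    (h : Al (AdmI S e) W) {a b : K} (ha : a = 0 ∨ a = 1) (hb : b = 0 ∨ b = 1) :
    fc0 a (fc0 b W) = prm (some : Empty → R1) (prm some
      (dvL (X (inr none) - C b) (dvL (X (inr (some none)) - C a) W))) := by
  have hr : rename (Sum.map id some : ι ⊕ R1 → ι ⊕ Option R1) (X (inr none) - C a) =
      X (inr (some none)) - C a := by simp
  have hg : Al (GP [rename (Sum.map id some : ι ⊕ R1 → ι ⊕ Option R1) (X (inr none) - C a),
      X (inr none) - C b]) W := by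
    rw [hr]
    exact NRM_gp h ha hb
  have h2 := dv_fc spl_opt hg
  rw [hr] at h2
  rw [fc0_eq a]
  exact congrArg _ h2

omit [IsAlgClosed K] in
theorem NRM_adm {S : Set (MvPolynomial ι K)} {e : ℕ} {W : Cy K (ι ⊕ Option R1)}
    (h : Al (AdmI S e) W) : Al (AdmI S e) (sw W) := adm_prm _ h

theorem NRM_I1 {S : Set (MvPolynomial ι K)} {e : ℕ} {W : Cy K (ι ⊕ Option R1)}
    (h : Al (AdmI S e) W) {a b : K} (ha : a = 0 ∨ a = 1) (hb : b = 0 ∨ b = 1) :
    fc0 b (fc0 a (sw W)) = fc0 a (fc0 b W) := by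
  rw [NRM_ff h ha hb, NRM_ff (NRM_adm h) hb ha, NRM_d1, NRM_d0, NRM_pp,
    dv_comm' (NRM_gp h ha hb)]

theorem NRM_I2 (a : K) (y : Cy K (ι ⊕ R1)) : fc0 a (sw (cyl y)) = cyl (fc0 a y) := by
  rw [fc0_eq a (sw _), NRM_d0, dv_cyl0, fc0_eq a y, ← prm_cyl]
  unfold sw
  rw [prm_prm]
  congr 2
  funext i
  cases i with
  | none => exact Equiv.swap_apply_right _ _
  | some j => exact j.elim

omit [IsAlgClosed K] in
theorem NRM_nrm (y : Cy K (ι ⊕ R1)) : nrm y = y - cyl (fc0 1 y) := rfl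

end

theorem sNRM : StNRM := by
  intro K ι _ _ _ S e W hW
  have o0 : (0 : K) = 0 ∨ (0 : K) = 1 := Or.inl rfl
  have o1 : (1 : K) = 0 ∨ (1 : K) = 1 := Or.inr rfl
  obtain ⟨W1, e1⟩ : ∃ W1, W1 = W - cyl (fc0 1 W) := ⟨_, rfl⟩
  have a1 : Al (AdmI S (e + 1)) W1 := e1 ▸ hW.sub (adm_cyl (adm_fc o1 hW))
  obtain ⟨W2, e2⟩ : ∃ W2, W2 = W1 - sw (cyl (fc0 1 (sw W1))) := ⟨_, rfl⟩
  have a2 : Al (AdmI S (e + 1)) W2 :=
    e2 ▸ a1.sub (NRM_adm (adm_cyl (adm_fc o1 (NRM_adm a1))))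
  have f11 : fc0 1 W1 = 0 := by rw [e1, map_sub, fc0_cyl, sub_self]
  have f01 : fc0 0 W1 = fc0 0 W - fc0 1 W := by rw [e1, map_sub, fc0_cyl]
  have g1 : ∀ a : K, fc0 a (sw W1) = fc0 a (sw W) - cyl (fc0 a (fc0 1 W)) := fun a => by
    rw [e1, map_sub, map_sub, NRM_I2]
  have s2 : sw W2 = sw W1 - cyl (fc0 1 (sw W1)) := by rw [e2, map_sub, NRM_ss]
  have f12 : fc0 1 W2 = 0 := by
    rw [e2, map_sub, NRM_I2, NRM_I1 a1 o1 o1, f11, map_zero, map_zero, sub_zero]
  have g12 : fc0 1 (sw W2) = 0 := by rw [s2, map_sub, fc0_cyl, sub_self]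
  have f02 : fc0 0 W2 = nrm (fc0 0 W - fc0 1 W) := by
    rw [e2, map_sub, NRM_I2, NRM_I1 a1 o1 o0, f01, NRM_nrm]
  have g02 : fc0 0 (sw W2) = nrm (fc0 0 (sw W) - fc0 1 (sw W)) := by
    rw [s2, map_sub, fc0_cyl, g1, g1, NRM_nrm, map_sub, map_sub, NRM_I1 hW o0 o1,
      NRM_I1 hW o1 o1]
    abel
  have hs : sw (W2 - sw W2) = -(W2 - sw W2) := by rw [map_sub, NRM_ss, neg_sub]
  have h0 : dvL (X (inr none) - C 1) (W2 - sw W2) = 0 :=
    (fc0_zero_iff 1 _).1 (by rw [map_sub, f12, g12, sub_zero])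
  have h := nn (S := S) (e := e) (a2.sub (NRM_adm a2)) (fun o => by
    cases o with
    | none => exact h0
    | some r =>
      cases r with
      | none =>
        have c := NRM_d1 1 (W2 - sw W2)
        rw [h0, map_zero, hs, map_neg, neg_eq_zero] at c
        exact c
      | some j => exact j.elim) (fun r => by
    cases r with
    | none => exact hs
    | some j => exact j.elim)
  rw [map_sub, f02, g02, ← map_sub] at h
  have e3 : fc0 0 W - fc0 1 W - fc0 0 (sw W) + fc0 1 (sw W) =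
      fc0 0 W - fc0 1 W - (fc0 0 (sw W) - fc0 1 (sw W)) := by abel
  rw [e3]
  exact h

end Pool.Agent.MP_a9d3bd_x
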