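import Pool.Agent.MP_a9d3bd_x.St

namespace Pool.Agent.MP_a9d3bd_x

open MvPolynomial Sum Pool.Agent.MP_a9d3bd_q Pool.Agent.MP_a9d3bd_h Pool.Agent.MP_a9d3bd_v

theorem PT_cp (K : Type) [Field K] {ι ν E : Type} [Field E] [Algebra K E] (z : ι ⊕ ν → E) :
    cp K (fun a => z (inl a)) (fun i => z (inr i)) =
      scl (Set.range inl) RatFunc.X fun s => cst K E (z s) := by
  funext s
  rcases s with a | i
  · simp [cp, scl, mul_comm]
  · simp [cp, scl]

theorem PT_top (K : Type) [Field K] {ι ν E : Type} [Field E] [Algebra K E] {z : ι ⊕ ν → E}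
    (hz : af K z = ⊤) {a : ι} (ha : z (inl a) = 1) :
    af K (cp K (fun a => z (inl a)) fun i => z (inr i)) = ⊤ := by
  have hX : (RatFunc.X : RatFunc E) ∈ af K (cp K (fun a => z (inl a)) fun i => z (inr i)) := by
    have h := mem_af (k := K) (cp K (fun a => z (inl a)) fun i => z (inr i)) (inl a)
    simpa only [cp, Sum.elim_inl, ha, map_one, one_mul] using h
  rw [eq_top_iff, ← top_X, sup_le_iff]
  refine ⟨?_, IntermediateField.adjoin_simple_le_iff.2 hX⟩
  rw [AlgHom.fieldRange_eq_map, ← hz, ← af_map, af_le_iff]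
  rintro (b | i)
  · have h := div_mem (mem_af (k := K) (cp K (fun a => z (inl a)) fun i => z (inr i)) (inl b)) hX
    have e : cp K (fun a => z (inl a)) (fun i => z (inr i)) (inl b) / RatFunc.X =
        cst K E (z (inl b)) := mul_div_cancel_right₀ _ RatFunc.X_ne_zero
    rwa [e] at h
  · exact mem_af (k := K) (cp K (fun a => z (inl a)) fun i => z (inr i)) (inr i)

theorem sPT : StPT := by
  intro K ι ν _ _ _ S e P h
  obtain ⟨a, ha⟩ := h.off
  have hg : ak K (gn P) = P := ak_gn P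
  have ha0 : gn P (inl a) ≠ 0 := fun h0 => ha (by rw [← hg, mem_ak, aeval_X]; exact h0)
  obtain ⟨w, hw⟩ : ∃ w, w = scl (Set.range inl) (gn P (inl a))⁻¹ (gn P) := ⟨_, rfl⟩
  let z : ι ⊕ ν → af K w := fun s => ⟨w s, mem_af w s⟩
  have hz : af K z = ⊤ := af_val_top w
  have hzw : ak K z = ak K w := (ak_map (af K w).val z).symm
  have hza : z (inl a) = 1 := Subtype.ext (by
    change w (inl a) = 1
    rw [hw]
    simp [scl, ha0])
  have h1 : P ≤ ak K z := by
    rw [hzw, hw]
    exact h.con _ _ _ hg.ge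
  have h2 : ak K (cp K (fun a => z (inl a)) fun i => z (inr i)) = P := by
    rw [PT_cp]
    refine le_antisymm ?_ (h.con _ _ _ (h1.trans (ak_map (cst K _) z).ge))
    obtain ⟨h3, h4⟩ := con_tr (Set.range inl) (fun s => cst K _ (z s)) (Cn_X z)
    have h5 := h3 _ w (gn P (inl a)) (h4.trans ((ak_map (cst K _) z).trans hzw).le)
    have h6 : scl (Set.range inl) (gn P (inl a)) w = gn P := by
      rw [hw, scl_scl, mul_inv_cancel₀ ha0, scl_one]
    rwa [h6, hg] at h5
  have h3 := PT_top K hz hza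
  have h4 := ff_of_gens hz
  have h5 := FE_ptd (ff_ratFunc h4) h3
  rw [h2, h.dim] at h5
  have h6 : nfp inr P = 0 := by
    have := h.gd P le_rfl
    omega
  have h7 : ∀ i, ¬ (X (inr i) ∈ P.asIdeal ∨ X (inr i) - 1 ∈ P.asIdeal) := fun i hi =>
    Set.notMem_empty i (((Set.ncard_eq_zero (Set.toFinite _)).1 h6) ▸ hi)
  refine ⟨af K w, inferInstance, inferInstance, fun a => z (inl a), fun i => z (inr i),
    (Nat.add_right_cancel h5) ▸ h4, fun h0 => one_ne_zero (hza.symm.trans (congrFun h0 a)),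
    fun G hG => ?_, fun i => ⟨fun h0 => h7 i (Or.inl ?_), fun h0 => h7 i (Or.inr ?_)⟩, ?_⟩
  · have h8 := (mem_ak _ _).1 (h1 (h.on G hG))
    rwa [aeval_rename] at h8
  · rw [← h2, mem_ak, aeval_X]
    change cst K _ (z (inr i)) = 0
    rw [show z (inr i) = 0 from h0, map_zero]
  · rw [← h2, mem_ak, map_sub, aeval_X, map_one]
    change cst K _ (z (inr i)) - 1 = 0
    rw [show z (inr i) = 1 from h0, map_one, sub_self]
  · rw [cc, cyc_top h3, h2]

end Pool.Agent.MP_a9d3bd_x
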