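import Pool.Agent.MP_a9d3bd_x.St

namespace Pool.Agent.MP_a9d3bd_x

open MvPolynomial Sum Pool.Agent.MP_a9d3bd_q Pool.Agent.MP_a9d3bd_h Pool.Agent.MP_a9d3bd_v

variable {K ι F : Type} [Field K] [Field F] [Algebra K F]

theorem T0_unit (O : DV K F) {f : F} (hf : f ∈ O.O) (h : O.res f ≠ 1) : O.ord (f - 1) = 0 := by
  have : O.res (f - 1) ≠ 0 := by
    rw [O.res_sub hf (one_mem _), O.res_one]
    exact sub_ne_zero.2 h
  exact ((O.res_ne_zero_iff _).1 this).2

theorem T0_res (O : DV K F) {f : F} (hf : f ∈ O.O) (h : O.res f ≠ 1) :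
    f / (f - 1) ∈ O.O ∧ O.res (f / (f - 1)) = O.res f / (O.res f - 1) := by
  have h1 := T0_unit O hf h
  refine ⟨?_, ?_⟩
  · rw [div_eq_mul_inv]
    exact mul_mem hf ((O.ord_eq_zero_iff _).1 h1).2
  · rw [O.res_div hf h1, O.res_sub hf (one_mem _), O.res_one]

theorem T0_mem (O : DV K F) {f : F} (h0 : f ≠ 0) (h1 : f ≠ 1) (h : O.ord f ≠ 0) :
    f / (f - 1) ∈ O.O := by
  rcases lt_or_gt_of_ne h with h | h
  · have hp : 0 < O.ord f⁻¹ := by rw [O.ord_inv]; omega
    have := T0_unit O ((O.ord_nonneg_iff _).1 hp.le) (by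
      rw [O.res_eq_zero_of_pos hp]; exact zero_ne_one)
    have e : f / (f - 1) = -(f⁻¹ - 1)⁻¹ := by
      have := sub_ne_zero.2 h1
      have := sub_ne_zero.2 h1.symm
      field_simp
      ring
    rw [e]
    exact neg_mem ((O.ord_eq_zero_iff _).1 this).2
  · exact (T0_res O ((O.ord_nonneg_iff _).1 h.le) (by
      rw [O.res_eq_zero_of_pos h]; exact zero_ne_one)).1

theorem T0_not (O : DV K F) {f : F} (h0 : f ≠ 0) (h1 : f ≠ 1) (h : O.ord f = 0)
    (hr : O.res f = 1) : f / (f - 1) ∉ O.O := by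
  have hm := ((O.ord_eq_zero_iff _).1 h).1
  have hz : O.res (f - 1) = 0 := by rw [O.res_sub hm (one_mem _), O.res_one, hr, sub_self]
  have := ((O.res_eq_zero_iff (sub_mem hm (one_mem _))).1 hz).resolve_left (sub_ne_zero.2 h1)
  rw [← O.ord_neg_iff, O.ord_div h0 (sub_ne_zero.2 h1)]
  omega

theorem T0_ord (O : DV K F) {f : F} (h0 : f ≠ 0) (h1 : f ≠ 1) :
    O.ord (f / (f - 1) - 0) - O.ord (f / (f - 1) - 1) = O.ord f := by
  have h2 := sub_ne_zero.2 h1
  have e : f / (f - 1) - 1 = (f - 1)⁻¹ := by field_simp; ring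
  rw [e, sub_zero, O.ord_div h0 h2, O.ord_inv]
  ring

theorem T0_ne {f : F} (h0 : f ≠ 0) (h1 : f ≠ 1) : f / (f - 1) ≠ 0 ∧ f / (f - 1) ≠ 1 := by
  have h2 := sub_ne_zero.2 h1
  refine ⟨div_ne_zero h0 h2, fun h => ?_⟩
  rw [div_eq_one_iff_eq h2] at h
  exact one_ne_zero (by linear_combination h : (1 : F) = 0)

theorem T0_gd (O : DV K F) {f : F} (h0 : f ≠ 0) (h1 : f ≠ 1) (h : O.ord f = 0)
    (hm : f / (f - 1) ∈ O.O) : O.res (f / (f - 1)) ≠ 0 ∧ O.res (f / (f - 1)) ≠ 1 := by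
  have hr : O.res f ≠ 1 := fun hr => T0_not O h0 h1 h hr hm
  rw [(T0_res O ((O.ord_eq_zero_iff _).1 h).1 hr).2]
  exact T0_ne ((O.res_ne_zero_iff _).2 ⟨h0, h⟩) hr

/-- The point of the square. -/
def T0_t (f g : F) : Option R1 → F := fun o => o.elim (f / (f - 1)) fun _ => g / (g - 1)

theorem T0_int (O : DV K F) (f g : F) :
    O.Int (T0_t f g) ↔ f / (f - 1) ∈ O.O ∧ g / (g - 1) ∈ O.O :=
  ⟨fun h => ⟨h none, h (some none)⟩, fun h o => by
    rcases o with _ | o
    exacts [h.1, h.2]⟩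

variable [Finite ι]

theorem T0_sw (y : ι → F) (f g : F) : sw (cc K y (T0_t f g)) = cc K y (T0_t g f) := by
  rw [sw, cc, prm_cyc, cc]
  congr 1
  funext s
  rcases s with a | _ | _ | e
  · rfl
  · simp [cp, T0_t]
  · simp [cp, T0_t]
  · exact e.elim

theorem T0_half (hF : StFACE) (hD : StDG) (l : Cy K (ι ⊕ R1) →ₗ[ℚ] ℚ) (hE : FF K F 2) {y : ι → F}
    {f g : F} (hy : y ≠ 0) (f0 : f ≠ 0) (g0 : g ≠ 0) (f1 : f ≠ 1) (g1 : g ≠ 1)
    (hN : ∀ O : DV K F, ND K (O.red y) → O.ord f = 0 ∨ O.ord g = 0) :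
    (Function.support fun O : DV K F => (O.ord f : ℚ) * LL l O.K (O.red y) (O.res g)).Finite ∧
    l (nrm (fc0 0 (cc K y (T0_t f g)))) - l (nrm (fc0 1 (cc K y (T0_t f g)))) =
      ∑ᶠ O : DV K F, (O.ord f : ℚ) * LL l O.K (O.red y) (O.res g) := by
  classical
  have hw : ∀ z, l (nrm z) = pair (fun P => l (nrm (pc P))) z := fun z => by
    have := (al_self z).eq (l ∘ₗ nrm) (pair fun P => l (nrm (pc P))) fun P _ => by
      simp [pair, pc]
    exact this
  have hdg : ∀ O : DV K F, ¬ ND K (O.red y) → ∀ t : R1 → O.K, nrm (cc K (O.red y) t) = 0 :=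
    fun O h t => hD K ι O.K (O.ff_K hE) _ t h
  have hfin : ∀ (h : F) (G : DV K F → ℚ), (∀ O, ¬ ND K (O.red y) → G O = 0) →
      (∀ O, O.ord h = 0 → G O = 0) → (Function.support G).Finite := fun h G h1 h2 =>
    (fsp hE y h).subset fun O hO => ⟨by_contra fun c => hO (h1 O c), fun c => hO (h2 O c)⟩
  refine ⟨hfin f _ (fun O h => by simp [LL, hdg O h]) fun O h => by simp [h], ?_⟩
  have t0 := T0_ne f0 f1
  rw [hw, hw (fc0 1 _), hF K ι R1 F 1 hE y _ 0 hy (by simpa [T0_t] using t0.1),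
    hF K ι R1 F 1 hE y _ 1 hy (by simpa [T0_t] using t0.2), ← finsum_sub_distrib]
  · refine finsum_congr fun O => ?_
    simp only [← hw, map_zero, map_one]
    by_cases hn : ND K (O.red y)
    swap
    · simp [LL, hdg O hn]
    have ho := T0_ord O f0 f1
    by_cases hf : O.ord f = 0
    · rw [hf]
      split_ifs with h
      · rw [← sub_mul, ← Int.cast_sub]
        simp only [T0_t, Option.elim, ho, hf, Int.cast_zero, zero_mul]
      · simp
    have hg := (hN O hn).resolve_left hf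
    by_cases hr : O.res g = 1
    · rw [if_neg fun h => T0_not O g0 g1 hg hr ((T0_int O f g).1 h).2,
        if_neg fun h => T0_not O g0 g1 hg hr ((T0_int O f g).1 h).2]
      simp [LL, hr]
    · obtain ⟨m1, m2⟩ := T0_res O ((O.ord_eq_zero_iff _).1 hg).1 hr
      have hi := (T0_int O f g).2 ⟨T0_mem O f0 f1 hf, m1⟩
      rw [if_pos hi, if_pos hi, ← sub_mul, ← Int.cast_sub]
      simp only [T0_t, Option.elim, ho, LL, if_neg hr, m2]
  · refine hfin (T0_t f g none - algebraMap K F 0) _ (fun O h => ?_) fun O h => ?_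
    · simp [← hw, hdg O h]
    · simp only [h, Int.cast_zero, zero_mul, ite_self]
  · refine hfin (T0_t f g none - algebraMap K F 1) _ (fun O h => ?_) fun O h => ?_
    · simp [← hw, hdg O h]
    · simp only [h, Int.cast_zero, zero_mul, ite_self]

theorem sT0 (hC : StCC) (hF : StFACE) (hA : StADM) (hN : StNRM) (hD : StDG) : StT0 := by
  intro K ι _ _ _ S hS l hl
  refine ⟨fun E L _ _ _ _ _ _ ψ y u => ?_, fun E _ _ _ c y u hc => ?_, fun E _ _ hE y u h => ?_,
    fun E _ _ y => by simp [LL], fun F _ _ hE y f g hy hO f0 g0 f1 g1 hn => ?_⟩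
  · by_cases h : u = 1
    · simp [LL, h]
    · have h' : ψ u ≠ 1 := fun e => h (ψ.injective (by rw [map_one]; exact e))
      have := (hC K ι R1 E L y fun _ => u / (u - 1)).1 ψ
      simp only [map_div₀, map_sub, map_one] at this
      simp only [LL, if_neg h, if_neg h', this, map_smul, smul_eq_mul]
  · simp only [LL, (hC K ι R1 E E y _).2.2 c hc]
  · simp [LL, hD K ι E hE y _ h]
  · obtain ⟨s1, e1⟩ := T0_half hF hD l hE hy f0 g0 f1 g1 hn
    obtain ⟨s2, e2⟩ := T0_half hF hD l hE hy g0 f0 g1 f1 fun O h => (hn O h).symm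
    have ha := hA K ι S hS F hE y (T0_t f g) hy hO (fun i => by
      rcases i with _ | i
      exacts [T0_ne f0 f1, T0_ne g0 g1]) fun O h hi => by
        obtain ⟨m1, m2⟩ := (T0_int O f g).1 hi
        rcases hn O h with c | c
        exacts [⟨none, T0_gd O f0 f1 c m1⟩, ⟨some none, T0_gd O g0 g1 c m2⟩]
    have := hl _ (hN K ι S 1 _ ha)
    rw [T0_sw] at this
    simp only [map_add, map_sub] at this
    rw [finsum_sub_distrib s1 s2, ← e1, ← e2]
    linarith

end Pool.Agent.MP_a9d3bd_x
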