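import Pool.Agent.MP_a9d3bd_x.GF
import Pool.Agent.Mg.F53d700.G1dce60
import Pool.Agent.Mg.F53d700.Gf73437

namespace Pool.Agent.MP_a9d3bd_x

open MvPolynomial Sum Pool.Agent.MP_a9d3bd_q Pool.Agent.MP_a9d3bd_h Pool.Agent.MP_a9d3bd_v

/-- The generic point of the cone over a point of projective space times the cube. -/
noncomputable def cp (K : Type) [Field K] {ι ν E : Type} [Field E] [Algebra K E] (y : ι → E)
    (t : ν → E) : ι ⊕ ν → RatFunc E :=
  Sum.elim (fun a => cst K E (y a) * RatFunc.X) fun i => cst K E (t i)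

/-- The cycle of the cone. -/
noncomputable def cc (K : Type) [Field K] {ι ν E : Type} [Field E] [Algebra K E] (y : ι → E)
    (t : ν → E) : Cy K (ι ⊕ ν) := cyc K (cp K y t)

/-- One cube coordinate. -/
abbrev R1 : Type := Option Empty

variable {K ι : Type} [Field K]

/-- The swap of the two cube coordinates. -/
noncomputable def sw : Cy K (ι ⊕ Option R1) →ₗ[ℚ] Cy K (ι ⊕ Option R1) :=
  prm (Equiv.swap (none : Option R1) (some none))

/-- The projection that kills degenerate cycles. -/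
noncomputable def nrm [Finite ι] : Cy K (ι ⊕ R1) →ₗ[ℚ] Cy K (ι ⊕ R1) :=
  LinearMap.id - cyl ∘ₗ fc0 1

open Classical in
/-- The functional attached to a linear form on cycles. -/
noncomputable def LL [Finite ι] (l : Cy K (ι ⊕ R1) →ₗ[ℚ] ℚ) : LF K ι :=
  fun _ _ _ y u => if u = 1 then 0 else l (nrm (cc K y fun _ => u / (u - 1)))

/-- The axioms before multiplicativity. -/
structure GF0 (S : Set (MvPolynomial ι K)) (Λ : LF K ι) : Prop where
  ext : ∀ (E L : Type) [Field E] [Algebra K E] [Field L] [Algebra K L], FF K E 1 → FF K L 1 →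
    ∀ (ψ : E →ₐ[K] L) (y : ι → E) (u : E), Λ L (fun a => ψ (y a)) (ψ u) = hdeg ψ * Λ E y u
  scale : ∀ (E : Type) [Field E] [Algebra K E], FF K E 1 → ∀ (c : E) (y : ι → E) (u : E), c ≠ 0 →
    Λ E (c • y) u = Λ E y u
  degen : ∀ (E : Type) [Field E] [Algebra K E], FF K E 1 → ∀ (y : ι → E) (u : E), ¬ ND K y →
    Λ E y u = 0
  one : ∀ (E : Type) [Field E] [Algebra K E] (y : ι → E), Λ E y 1 = 0
  t0 : ∀ (F : Type) [Field F] [Algebra K F], FF K F 2 → ∀ (y : ι → F) (f g : F), y ≠ 0 →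
    On S y → f ≠ 0 → g ≠ 0 → f ≠ 1 → g ≠ 1 →
    (∀ O : DV K F, ND K (O.red y) → O.ord f = 0 ∨ O.ord g = 0) →
    ∑ᶠ O : DV K F, ((O.ord f : ℚ) * Λ O.K (O.red y) (O.res g) -
      (O.ord g : ℚ) * Λ O.K (O.red y) (O.res f)) = 0

/-- Cone cycles: field embeddings, other generic points, scaling. -/
def StCC : Prop := ∀ (K ι ν : Type) [Field K] (E L : Type) [Field E] [Algebra K E] [Field L]
  [Algebra K L] (y : ι → E) (t : ν → E),
  (∀ ψ : E →ₐ[K] L, cc K (fun a => ψ (y a)) (fun i => ψ (t i)) = (hdeg ψ : ℚ) • cc K y t) ∧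
  (∀ (χ : E →ₐ[K] L) (T : L), Transcendental χ.fieldRange T →
    χ.fieldRange ⊔ IntermediateField.adjoin K {T} = ⊤ →
    cyc K (Sum.elim (fun a => χ (y a) * T) fun i => χ (t i)) = cc K y t) ∧
  ∀ c : E, c ≠ 0 → cc K (c • y) t = cc K y t

open Classical in
/-- Faces of cone cycles. -/
def StFACE : Prop := ∀ (K ι ν : Type) [Field K] [Finite ι] [Finite ν] (E : Type) [Field E]
  [Algebra K E] (d : ℕ), FF K E (d + 1) → ∀ (y : ι → E) (t : Option ν → E) (ε : K), y ≠ 0 →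
  t none ≠ algebraMap K E ε → ∀ w : Pr K (ι ⊕ ν) → ℚ,
  pair w (fc0 ε (cc K y t)) = ∑ᶠ O : DV K E, if O.Int t then
    (O.ord (t none - algebraMap K E ε) : ℚ) *
      pair w (cc K (O.red y) fun i => O.res (t (some i))) else 0

/-- Admissibility of the surface given by two functions. -/
def StADM : Prop := ∀ (K ι : Type) [Field K] [Finite ι] (S : Set (MvPolynomial ι K)), Homog S →
  ∀ (F : Type) [Field F] [Algebra K F], FF K F 2 → ∀ (y : ι → F) (t : Option R1 → F), y ≠ 0 →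
  On S y → (∀ i, t i ≠ 0 ∧ t i ≠ 1) →
  (∀ O : DV K F, ND K (O.red y) → O.Int t → ∃ i, O.res (t i) ≠ 0 ∧ O.res (t i) ≠ 1) →
  Al (AdmI S 2) (cc K y t)

/-- The full boundary is a normalised boundary modulo degenerate cycles. -/
def StNRM : Prop := ∀ (K ι : Type) [Field K] [IsAlgClosed K] [Finite ι]
  (S : Set (MvPolynomial ι K)) (e : ℕ) (W : Cy K (ι ⊕ Option R1)), Al (AdmI S (e + 1)) W →
  nrm (fc0 0 W - fc0 1 W - fc0 0 (sw W) + fc0 1 (sw W)) ∈ Bd S R1 e

/-- Degenerate pairs. -/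
def StDG : Prop := ∀ (K ι : Type) [Field K] [Finite ι] (E : Type) [Field E] [Algebra K E],
  FF K E 1 → ∀ (y : ι → E) (t : R1 → E), ¬ ND K y → nrm (cc K y t) = 0

/-- The relation. -/
def StT0 : Prop := ∀ (K ι : Type) [Field K] [IsAlgClosed K] [Finite ι]
  (S : Set (MvPolynomial ι K)), Homog S → ∀ l : Cy K (ι ⊕ R1) →ₗ[ℚ] ℚ,
  (∀ z ∈ Bd S R1 1, l z = 0) → GF0 S (LL l)

/-- Multiplicativity and tame symbols. -/
def StMT : Prop := ∀ (K ι : Type) [Field K] [Finite ι] (S : Set (MvPolynomial ι K)), Homog S →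
  ∀ Λ : LF K ι, GF0 S Λ → GF S Λ

/-- Admissible subvarieties are cones over points. -/
def StPT : Prop := ∀ (K ι ν : Type) [Field K] [Finite ι] [Finite ν] (S : Set (MvPolynomial ι K))
  (e : ℕ) (P : Pr K (ι ⊕ ν)), AdmI S e P → ∃ (E : Type) (_ : Field E) (_ : Algebra K E)
    (y : ι → E) (t : ν → E), FF K E e ∧ y ≠ 0 ∧ On S y ∧ (∀ i, t i ≠ 0 ∧ t i ≠ 1) ∧
      pc P = cc K y t

/-- Divisors are faces. -/
def StCL : Prop := ∀ (K ι : Type) [Field K] [Finite ι] (Φ : Raw K ι), IsPre 0 Φ →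
  ∃ w : Pr K (ι ⊕ Empty) → ℚ, ∀ (E : Type) [Field E] [Algebra K E], FF K E 1 →
    ∀ (y : ι → E) (t : R1 → E), y ≠ 0 → t none ≠ 0 → t none ≠ 1 →
    Dv Φ E y (t none / (t none - 1)) = pair w (fc0 0 (cc K y t)) - pair w (fc0 1 (cc K y t))

/-- The Jacobian criterion. -/
def StSM : Prop := ∀ (k K : Type) [Field k] [Field K] [Algebra k K] (P : MvPolynomial (Fin 4) k),
  Smooth {P} 2 → MvPolynomial.map (algebraMap k K) P ≠ 0 ∧ Sm (MvPolynomial.map (algebraMap k K) P)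

end Pool.Agent.MP_a9d3bd_x
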