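import Pool.Agent.MP_a9d3bd_x.BSt

namespace Pool.Agent.MP_a9d3bd_x

open Polynomial Pool.Agent.MP_a9d3bd_q Pool.Agent.MP_a9d3bd_h

section
variable {K L : Type} [Field K] [Field L] [Algebra K L]

theorem B1_ev {E : Type} [Field E] [Algebra L E] (t : E) (ω : L[X])
    (G : MvPolynomial (Fin 2) L) :
    MvPolynomial.aeval ![t, aeval t ω] G = aeval t (ph ω G) := by
  have : (MvPolynomial.aeval ![t, aeval t ω] : MvPolynomial (Fin 2) L →ₐ[L] E) =
      (aeval t).comp (ph ω) := MvPolynomial.algHom_ext fun i => by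
    fin_cases i <;> simp [ph]
  rw [this, AlgHom.comp_apply]

theorem B1_ph (ω p : L[X]) : ph ω (aeval (MvPolynomial.X 0 : MvPolynomial (Fin 2) L) p) = p := by
  rw [← aeval_algHom_apply]
  simp [ph]

theorem B1_phl (ω : L[X]) : ph ω (lw ω) = 0 := by
  rw [lw, map_sub, B1_ph]
  simp [ph]

theorem B1_mod (ω : L[X]) (g : MvPolynomial (Fin 2) L) :
    g - aeval (MvPolynomial.X 0 : MvPolynomial (Fin 2) L) (ph ω g) ∈ Ideal.span {lw ω} := by
  induction g using MvPolynomial.induction_on with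
  | C a => simp [ph]
  | add p q hp hq =>
    rw [map_add, map_add, add_sub_add_comm]
    exact add_mem hp hq
  | mul_X p i hp =>
    have hi : MvPolynomial.X i - aeval (MvPolynomial.X 0 : MvPolynomial (Fin 2) L)
        (ph ω (MvPolynomial.X i)) ∈ Ideal.span {lw ω} := by
      fin_cases i
      · simp [ph]
      · simp [ph, lw]
    rw [map_mul, map_mul]
    have := add_mem (Ideal.mul_mem_right (MvPolynomial.X i) _ hp) (Ideal.mul_mem_left _
      (aeval (MvPolynomial.X 0 : MvPolynomial (Fin 2) L) (ph ω p)) hi)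
    convert this using 1
    ring

theorem B1_graph {E : Type} [Field E] [Algebra L E] {w : Fin 2 → E} {ω : L[X]}
    (h : MvPolynomial.aeval w (lw ω) = 0) (G : MvPolynomial (Fin 2) L) :
    MvPolynomial.aeval w G = aeval (w 0) (ph ω G) := by
  rw [lw, map_sub, ← aeval_algHom_apply, MvPolynomial.aeval_X, MvPolynomial.aeval_X,
    sub_eq_zero] at h
  have e : w = ![w 0, aeval (w 0) ω] := by
    funext i
    fin_cases i
    · rfl
    · exact h
  rw [← B1_ev, ← e]

theorem B1_ne {F : Type} [Field F] [Algebra L F] (hF : FF L F 1) {z : Fin 2 → F}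
    (hz : af L z = ⊤) {R : MvPolynomial (Fin 2) L} (hR : MvPolynomial.aeval z R = 0) {ω : L[X]}
    (h0 : ph ω R ≠ 0) : MvPolynomial.aeval z (lw ω) ≠ 0 := by
  intro h
  have h1 : IsIntegral L (z 0) := IsAlgebraic.isIntegral ⟨_, h0, by rw [← B1_graph h, hR]⟩
  have h2 : ∀ a ∈ Set.range z, IsIntegral L a := by
    rintro _ ⟨i, rfl⟩
    have e := B1_graph h (MvPolynomial.X i)
    rw [MvPolynomial.aeval_X] at e
    rw [e]
    exact (IsIntegral.of_mem_of_fg _ h1.fg_adjoin_singleton _
      (aeval_mem_adjoin_singleton L (z 0)))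
  have h3 := IntermediateField.isAlgebraic_adjoin h2
  have h4 : Algebra.IsAlgebraic L (⊤ : IntermediateField L F) := hz ▸ h3
  have h5 : Algebra.IsAlgebraic L F := IntermediateField.topEquiv.isAlgebraic
  have h6 := hF.tr
  rw [trdeg_eq_zero] at h6
  simp at h6

theorem B1_term {S : Set (MvPolynomial (Fin 4) K)} {Λ : LF K (Fin 4)} (hΛ : GF S Λ)
    {E M : Type} [Field E] [Algebra L E] [Algebra K E] [IsScalarTower K L E] [Field M]
    [Algebra L M] [Algebra K M] [IsScalarTower K L M] (hE : FF K E 1) (hM : FF K M 1)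
    {zf : Fin 2 → E} {w : Fin 2 → M} (ht : af L zf = ⊤) (hk : ak L zf = ak L w) (x : L)
    (G : MvPolynomial (Fin 2) L) :
    Λ M (yz x w) (MvPolynomial.aeval w G) =
      Module.finrank (af L w) M * Λ E (yz x zf) (MvPolynomial.aeval zf G) := by
  obtain ⟨ψ, hψ⟩ := exists_hom_a ht hk
  have hw : w = fun i => ψ (zf i) := funext fun i => (hψ i).symm
  have e1 : yz x w = fun a => ψ.restrictScalars K (yz x zf a) := by
    funext a
    fin_cases a <;> simp [yz, hψ]
  have e2 : MvPolynomial.aeval w G = ψ.restrictScalars K (MvPolynomial.aeval zf G) := by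
    rw [hw, aeval_map_hom]
    rfl
  have e3 : ψ.fieldRange = af L w := by
    rw [AlgHom.fieldRange_eq_map, ← ht, af, IntermediateField.adjoin_map, af, hw,
      ← Set.range_comp]
    rfl
  rw [e1, e2, hΛ.ext E M hE hM, BT_hdeg_restrict, hdeg, e3]

variable {F : Type} [Field F] [Algebra L F] [Algebra K F] [IsScalarTower K L F]

theorem B1_red (O : DV L F) (x : L) {z : Fin 2 → F} (h : O.Int z) :
    O.red (yz x z) = yz x (O.ra z) := by
  have hi : O.Int (yz x z) := fun i => by
    fin_cases i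
    · exact one_mem _
    · exact O.const x
    · exact h 0
    · exact h 1
  have e : O.ra (yz x z) = yz x (O.ra z) := by
    funext i
    fin_cases i
    · exact O.res_one
    · exact O.res_algebraMap x
    · rfl
    · rfl
  rw [O.red_of_int hi, e]
  rw [e]
  exact fun c => one_ne_zero (congrFun c 0)

theorem B1_sum (hL : FF K L 1) (hF : FF L F 1) {P : MvPolynomial (Fin 4) K} {Λ : LF K (Fin 4)}
    (hΛ : GF {P} Λ) (x : L) {z : Fin 2 → F} (hz : af L z = ⊤)
    (hR : MvPolynomial.aeval z (PL P x) = 0) {ω : L[X]} (hs : (ph ω (PL P x)).Separable)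
    (G : MvPolynomial (Fin 2) L) {f : L[X]} (hf : f ∈ Cq P x ω) (hl : Lo ω (ak L z) f) :
    ∃ s : Finset (DV L F), (∀ O, O ∈ s ↔ O.Int z ∧
      ∀ T, MvPolynomial.aeval (O.ra z) T = 0 ↔ f ∣ ph ω T) ∧
      ((∑ O ∈ s, ct Λ x z ω G (O.down K) : ℚ) : ℝ) = mu0 Λ x ω f (ph ω G) := by
  obtain ⟨-, hi, h, hh⟩ := hf
  have := Fact.mk hi
  let zf : Fin 2 → AdjoinRoot f := ![AdjoinRoot.root f, AdjoinRoot.mk f ω]
  have hev : ∀ T, MvPolynomial.aeval zf T = AdjoinRoot.mk f (ph ω T) := fun T => by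
    rw [← AdjoinRoot.aeval_eq, ← B1_ev, AdjoinRoot.aeval_eq]
  have hm : ∀ T, T ∈ (ak L zf).asIdeal ↔ f ∣ ph ω T := fun T => by
    rw [mem_ak, hev, AdjoinRoot.mk_eq_zero]
  have ht : af L zf = ⊤ := by
    rw [eq_top_iff]
    rintro a -
    obtain ⟨p, rfl⟩ := AdjoinRoot.mk_surjective a
    rw [← AdjoinRoot.aeval_eq]
    exact IntermediateField.algebra_adjoin_le_adjoin L _ (Algebra.adjoin_mono
      (Set.singleton_subset_iff.2 (Set.mem_range_self (f := zf) 0))
      (aeval_mem_adjoin_singleton L _))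
  have h0 : FF L (AdjoinRoot f) 0 := ff_zero_iff.2 (AdjoinRoot.powerBasis hi.ne_zero).finite
  have hE : FF K (AdjoinRoot f) 1 := FF.of_tower hL h0
  have hKF : FF K F 2 := FF.of_tower hL hF
  obtain ⟨s, h1, -, -, h4⟩ := bl_main (j := 0) hF (nda_of_top hz) (ak L zf) (FE_ptd h0 ht)
  have hle : ak L z ≤ ak L zf := fun T hT => (hm T).2 (hl T hT)
  have hfh : ¬ f ∣ h := fun c => hi.not_isUnit
    (hs.squarefree f (hh ▸ mul_dvd_mul_left f c))
  have e := h4 _ (B1_ne hF hz hR hs.ne_zero)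
  rw [len_eq_one hle ((hm _).2 (B1_phl ω ▸ dvd_zero f)) fun g hg => ?_, hz,
    IntermediateField.finrank_top] at e
  · simp only [ENat.toNat_one, Nat.cast_one, mul_one] at e
    refine ⟨s, fun O => ?_, ?_⟩
    · rw [h1]
      refine and_congr_right fun _ => ⟨fun c T => by rw [← mem_ak, c, hm], fun c => ?_⟩
      exact PrimeSpectrum.ext (Ideal.ext fun T => by rw [mem_ak, c, hm])
    · have e2 : ∀ O ∈ s, ct Λ x z ω G (O.down K) =
          (O.ord (MvPolynomial.aeval z (lw ω)) : ℚ) * Module.finrank (af L (O.ra z)) O.K *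
            Λ (AdjoinRoot f) (yz x zf) (MvPolynomial.aeval zf G) := fun O hO => by
        obtain ⟨a, b⟩ := (h1 O).1 hO
        let : Algebra K O.K := resAlg O.O (O.down K).const
        have : IsScalarTower K L O.K := IsScalarTower.of_algebraMap_eq fun c => by
          change IsLocalRing.residue O.O ⟨_, (O.down K).const c⟩ =
            IsLocalRing.residue O.O ⟨_, O.const _⟩
          congr 1
          exact Subtype.ext (IsScalarTower.algebraMap_apply K L F c)
        have hM : FF K O.K 1 := (O.down K).ff_K hKF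
        have e3 := B1_term hΛ hE hM ht b.symm x G
        rw [← B1_red O x a, ← O.res_aeval a] at e3
        rw [ct, if_pos ⟨O.const, a⟩, mul_assoc, ← e3]
        rfl
      rw [Finset.sum_congr rfl e2, ← Finset.sum_mul, e, one_mul, mu0, dif_pos hi, hev]
      rfl
  · obtain ⟨g', hg'⟩ := (hm g).1 hg
    refine ⟨aeval (MvPolynomial.X 0 : MvPolynomial (Fin 2) L) h,
      fun c => hfh (B1_ph ω h ▸ (hm _).1 c), ?_⟩
    have a1 := B1_mod ω g
    have a2 := B1_mod ω (PL P x)
    rw [hg', map_mul] at a1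
    rw [hh, map_mul] at a2
    have := add_mem (Ideal.mem_sup_left (T := Ideal.span {lw ω}) (Ideal.mul_mem_left _
      (aeval (MvPolynomial.X 0 : MvPolynomial (Fin 2) L) g') ((mem_ak z _).2 hR)))
      (Ideal.mem_sup_right (sub_mem (Ideal.mul_mem_left _
        (aeval (MvPolynomial.X 0 : MvPolynomial (Fin 2) L) h) a1) (Ideal.mul_mem_left _
        (aeval (MvPolynomial.X 0 : MvPolynomial (Fin 2) L) g') a2)))
    convert this using 1
    ring

end

theorem sB1 (_h3 : StB3) : StB1 := by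
  intro K L F _ _ _ _ _ _ _ hL hF P Λ hΛ x z hz hR ω hs G
  classical
  have hT : {f ∈ Cq P x ω | Lo ω (ak L z) f}.Finite := by
    refine (UniqueFactorizationMonoid.normalizedFactors (ph ω (PL P x))).toFinset.finite_toSet.subset
      fun f hf => ?_
    obtain ⟨⟨a, b, c⟩, -⟩ := hf
    rw [Finset.mem_coe, Multiset.mem_toFinset, Polynomial.mem_normalizedFactors_iff hs.ne_zero]
    exact ⟨b, a, c⟩
  choose! s h1 h2 using fun f (hf : f ∈ hT.toFinset) =>
    B1_sum hL hF hΛ x hz hR hs G (hT.mem_toFinset.1 hf).1 (hT.mem_toFinset.1 hf).2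
  rw [finsum_down hL.tr _ fun O hO => ?_, finsum_mem_eq_finite_toFinset_sum _ hT,
    finsum_eq_sum_of_support_subset _ (s := hT.toFinset.biUnion s) fun O hO => ?_,
    Finset.sum_biUnion fun f hf f' hf' hne => ?_, Rat.cast_sum]
  · exact Finset.sum_congr rfl h2
  · rw [Function.onFun, Finset.disjoint_left]
    intro O a b
    have c := ((h1 f hf O).1 a).2 (aeval (MvPolynomial.X 0 : MvPolynomial (Fin 2) L) f')
    have d := ((h1 f' hf' O).1 b).2 (aeval (MvPolynomial.X 0 : MvPolynomial (Fin 2) L) f')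
    rw [B1_ph] at c d
    obtain ⟨⟨m1, i1, -⟩, -⟩ := hT.mem_toFinset.1 hf
    obtain ⟨⟨m2, i2, -⟩, -⟩ := hT.mem_toFinset.1 hf'
    exact hne (eq_of_monic_of_associated m1 m2
      (i1.associated_of_dvd i2 (c.1 (d.2 dvd_rfl))))
  · rw [Function.mem_support, ct] at hO
    split_ifs at hO with c
    · have a : O.Int z := c.2
      have b : O.ord (MvPolynomial.aeval z (lw ω)) ≠ 0 := fun e => hO (by
        rw [down_ord, e, Int.cast_zero, zero_mul])
      have r : MvPolynomial.aeval (O.ra z) (lw ω) = 0 := by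
        rw [← O.res_aeval a]
        by_contra d
        exact b ((O.res_ne_zero_iff _).1 d).2
      have r2 : aeval (O.ra z 0) (ph ω (PL P x)) = 0 := by
        rw [← B1_graph r]
        exact (mem_ak _ _).1 (ak_le_ra O a ((mem_ak z _).2 hR))
      have hi : IsIntegral L (O.ra z 0) := IsAlgebraic.isIntegral ⟨_, hs.ne_zero, r2⟩
      have hd : ∀ T, MvPolynomial.aeval (O.ra z) T = 0 ↔ minpoly L (O.ra z 0) ∣ ph ω T :=
        fun T => by rw [B1_graph r, minpoly.dvd_iff]
      have hf : minpoly L (O.ra z 0) ∈ hT.toFinset := hT.mem_toFinset.2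
        ⟨⟨minpoly.monic hi, minpoly.irreducible hi, minpoly.dvd_iff.2 r2⟩,
          fun T hT' => (hd T).1 ((mem_ak _ _).1 (ak_le_ra O a hT'))⟩
      exact Finset.mem_coe.2 (Finset.mem_biUnion.2 ⟨_, hf, (h1 _ hf O).2 ⟨a, hd⟩⟩)
    · exact absurd rfl hO
  · rw [ct] at hO
    split_ifs at hO with c
    · exact c.1
    · exact absurd rfl hO

end Pool.Agent.MP_a9d3bd_x
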