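import Pool.Agent.MP_a9d3bd_x.BSt

namespace Pool.Agent.MP_a9d3bd_x

open Polynomial Pool.Agent.MP_a9d3bd_q Pool.Agent.MP_a9d3bd_h

theorem B2_dim {L : Type} [Field L] {p : MvPolynomial (Fin 2) L} (hp : Prime p) :
    ptd (⟨Ideal.span {p}, (Ideal.span_singleton_prime hp.ne_zero).2 hp⟩ : Pr L (Fin 2)) = 1 := by
  obtain ⟨W, hW⟩ : ∃ W : Pr L (Fin 2),
    W = ⟨Ideal.span {p}, (Ideal.span_singleton_prime hp.ne_zero).2 hp⟩ := ⟨_, rfl⟩
  have h0 : W.asIdeal = Ideal.span {p} := by rw [hW]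
  rw [← hW]
  have hm : p ∈ W.asIdeal := h0 ▸ Ideal.mem_span_singleton_self p
  have hle : aff L (Fin 2) ≤ W := bot_le (a := W.asIdeal)
  have h1 : ptd W < ptd (aff L (Fin 2)) := ptd_lt (lt_of_le_of_ne hle fun e => by
    rw [← e] at hm
    exact hp.ne_zero (Ideal.mem_bot.1 hm))
  obtain ⟨P', -, h2, h3, h4⟩ := krull hle hm
  have h5 : W ≤ P' := by
    show W.asIdeal ≤ P'.asIdeal
    rw [h0]
    exact (Ideal.span_singleton_le_iff_mem _).2 h3
  have h6 := ptd_le h5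
  rw [ptd_aff, Fintype.card_fin] at h1 h4
  omega

theorem B2_fac {α : Type} [CommRing α] [IsDomain α] [UniqueFactorizationMonoid α] {R : α}
    (hR : R ≠ 0) (I : Ideal α) (hI : I.IsPrime) (h : R ∈ I) : ∃ p, Prime p ∧ p ∣ R ∧ p ∈ I := by
  induction R using UniqueFactorizationMonoid.induction_on_prime with
  | h₁ => exact absurd rfl hR
  | h₂ x hx => exact absurd (Ideal.eq_top_of_isUnit_mem _ h hx) hI.ne_top
  | h₃ a p ha hp ih =>
    rcases hI.mem_or_mem h with h1 | h1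
    · exact ⟨p, hp, dvd_mul_right _ _, h1⟩
    · obtain ⟨r, r1, r2, r3⟩ := ih ha h1
      exact ⟨r, r1, r2.mul_left _, r3⟩

theorem B2_ex {L : Type} [Field L] {p : MvPolynomial (Fin 2) L} (hp : Prime p) :
    ∃ W : Pr L (Fin 2), ptd W = 1 ∧ W.asIdeal = Ideal.span {p} := ⟨_, B2_dim hp, rfl⟩

theorem sB2 : StB2 := by
  intro L _ R ω f hs hf hd
  obtain ⟨φ, hφ⟩ : ∃ φ : MvPolynomial (Fin 2) L →+* L[X], ∀ z, φ z = ph ω z :=
    ⟨(ph ω).toRingHom, fun _ => rfl⟩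
  have hR : R ≠ 0 := by
    rintro rfl
    rw [map_zero] at hs
    exact not_separable_zero hs
  have hpr : (Ideal.span {f}).IsPrime := (Ideal.span_singleton_prime hf.ne_zero).2 hf.prime
  obtain ⟨p, p1, p2, p3⟩ := B2_fac hR ((Ideal.span {f}).comap φ) (Ideal.comap_isPrime _ _)
    (by rw [Ideal.mem_comap, Ideal.mem_span_singleton, hφ]; exact hd)
  rw [Ideal.mem_comap, Ideal.mem_span_singleton] at p3
  obtain ⟨W, a1, a2⟩ := B2_ex p1
  refine ⟨W, ⟨by rw [a2, Ideal.mem_span_singleton]; exact p2, a1, fun G hG => ?_⟩, ?_⟩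
  · rw [a2, Ideal.mem_span_singleton] at hG
    rw [← hφ]
    exact p3.trans (map_dvd φ hG)
  rintro W' ⟨w1, w2, w3⟩
  obtain ⟨r, r1, r2, r3⟩ := B2_fac hR W'.asIdeal W'.isPrime w1
  obtain ⟨V, b1, b2⟩ := B2_ex r1
  have hle : V ≤ W' := by
    show V.asIdeal ≤ W'.asIdeal
    rw [b2]
    exact (Ideal.span_singleton_le_iff_mem _).2 r3
  have e : V = W' := eq_of_ptd hle (by rw [b1, w2])
  have ha : Associated r p := by
    by_contra hn
    obtain ⟨s, rfl⟩ := r2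
    rcases p1.dvd_or_dvd p2 with h | ⟨u, rfl⟩
    · exact hn (p1.irreducible.associated_of_dvd r1.irreducible h).symm
    · refine hf.not_isUnit (hs.squarefree f ?_)
      have h1 := w3 r r3
      rw [← hφ] at h1 ⊢
      rw [map_mul, map_mul]
      exact mul_dvd_mul h1 (p3.mul_right _)
  rw [← e]
  apply PrimeSpectrum.ext
  rw [a2, b2]
  exact Ideal.span_singleton_eq_span_singleton.2 ha

end Pool.Agent.MP_a9d3bd_x
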