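import Pool.Agent.MP_a9d3bd_x.BSt

namespace Pool.Agent.MP_a9d3bd_x

open Polynomial Pool.Agent.MP_a9d3bd_q Pool.Agent.MP_a9d3bd_h

section
variable {K L F : Type} [Field K] [Field L] [Algebra K L] [Field F] [Algebra L F]

theorem B3_ae (z : Fin 2 → F) (u : L[X]) :
    MvPolynomial.aeval z (aeval (MvPolynomial.X 0 : MvPolynomial (Fin 2) L) u) = aeval (z 0) u := by
  rw [← aeval_algHom_apply, MvPolynomial.aeval_X]

theorem B3_lw (z : Fin 2 → F) (ω : L[X]) :
    MvPolynomial.aeval z (lw ω) = z 1 - aeval (z 0) ω := by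
  rw [lw, map_sub, MvPolynomial.aeval_X, B3_ae]

theorem B3_dvd (ω : L[X]) (G : MvPolynomial (Fin 2) L) :
    lw ω ∣ G - aeval (MvPolynomial.X 0 : MvPolynomial (Fin 2) L) (ph ω G) := by
  induction G using MvPolynomial.induction_on with
  | C c => simp [ph]
  | add p q hp hq =>
    rw [map_add, map_add, add_sub_add_comm]
    exact dvd_add hp hq
  | mul_X p i hp =>
    have h : lw ω ∣ MvPolynomial.X i -
        aeval (MvPolynomial.X 0 : MvPolynomial (Fin 2) L) (ph ω (MvPolynomial.X i)) := by
      fin_cases i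
      · simp [ph]
      · simp [ph, lw]
    rw [map_mul, map_mul]
    have e : ∀ a b c d : MvPolynomial (Fin 2) L, a * b - c * d = (a - c) * b + c * (b - d) :=
      fun a b c d => by ring
    rw [e]
    exact dvd_add (hp.mul_right _) (h.mul_left _)

variable [Algebra K F]

omit [Algebra K L] in
theorem B3_mem (O : DV K F) (hc : ∀ c : L, algebraMap L F c ∈ O.O) {z : Fin 2 → F} (hz : O.Int z)
    (G : MvPolynomial (Fin 2) L) : MvPolynomial.aeval z G ∈ O.O := by
  induction G using MvPolynomial.induction_on with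
  | C c => simpa using hc c
  | add p q hp hq => rw [map_add]; exact add_mem hp hq
  | mul_X p i hp => rw [map_mul, MvPolynomial.aeval_X]; exact mul_mem hp (hz i)

variable [IsScalarTower K L F]

theorem B3_on (P : MvPolynomial (Fin 4) K) (x : L) (z : Fin 2 → F) :
    MvPolynomial.aeval (yz x z) P = MvPolynomial.aeval z (PL P x) := by
  have h := MvPolynomial.comp_aeval (R := K)
    (![1, MvPolynomial.C x, MvPolynomial.X 0, MvPolynomial.X 1] : Fin 4 → MvPolynomial (Fin 2) L)
    ((MvPolynomial.aeval z : MvPolynomial (Fin 2) L →ₐ[L] F).restrictScalars K)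
  have e : (fun i => ((MvPolynomial.aeval z : MvPolynomial (Fin 2) L →ₐ[L] F).restrictScalars K)
      ((![1, MvPolynomial.C x, MvPolynomial.X 0, MvPolynomial.X 1] :
        Fin 4 → MvPolynomial (Fin 2) L) i)) = yz x z := by
    funext i
    fin_cases i <;> simp [yz]
  rw [e] at h
  exact (DFunLike.congr_fun h P).symm

theorem B3_nd (hL : FF K L 1) {x : L} {z : Fin 2 → F} (hx : Transcendental K x)
    (hz : af L z = ⊤) : ND K (yz x z) := by
  have m : ∀ a, yz x z a ∈ kf K (yz x z) := fun a => by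
    simpa [yz] using div_mem_kf (k := K) (yz x z) a 0
  have a1 : Algebra.IsAlgebraic (af K fun _ : Unit => x) L :=
    (tr_alg_iff hL.tr _).2 ((tr_indep_iff hL.tr _).1 (algebraicIndependent_unique_type_iff.2 hx))
  have le : (af K fun _ : Unit => x) ≤ (kf K (yz x z)).comap (IsScalarTower.toAlgHom K L F) :=
    (af_le_iff _ _).2 fun _ => m 1
  have a2 : ∀ c : L, IsAlgebraic (kf K (yz x z)) (algebraMap L F c) := fun c =>
    (a1.isAlgebraic c).ringHom_of_comp_eq
      (((algebraMap L F).comp (algebraMap (af K fun _ : Unit => x) L)).codRestrict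
        (kf K (yz x z)) fun a => le a.2) (algebraMap L F) (RingHom.injective _) rfl
  have a3 : af L z ≤ (algebraicClosure (kf K (yz x z)) F).toSubfield.toIntermediateField
      fun c => mem_algebraicClosure_iff.2 (a2 c) := by
    refine (af_le_iff _ _).2 fun i => mem_algebraicClosure_iff.2 ?_
    fin_cases i
    exacts [isAlgebraic_algebraMap (⟨_, m 2⟩ : kf K (yz x z)),
      isAlgebraic_algebraMap (⟨_, m 3⟩ : kf K (yz x z))]
  rw [hz] at a3
  exact ⟨fun w => mem_algebraicClosure_iff.1 (a3 IntermediateField.mem_top)⟩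

end

theorem sB3 : StB3 := by
  intro K L F _ _ _ _ _ _ _ hL hF P x z hx hz hP
  refine ⟨hL.of_tower hF, fun h => one_ne_zero (congrFun h 0), fun G hG => ?_, B3_nd hL hx hz,
    fun ω h0 h1 => ?_, fun ω ω' O hco hc hi h1 => ?_⟩
  · rw [Set.mem_singleton_iff.1 hG, B3_on, hP]
  · obtain ⟨m, hm⟩ := B3_dvd ω (PL P x)
    have e := congrArg (MvPolynomial.aeval z) hm
    rw [map_sub, map_mul, hP, h1, B3_ae, zero_mul, zero_sub, neg_eq_zero] at e
    have a0 : z 0 ∈ algebraicClosure L F := mem_algebraicClosure_iff.2 ⟨_, h0, e⟩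
    have a1 : z 1 ∈ algebraicClosure L F := by
      rw [B3_lw, sub_eq_zero] at h1
      rw [h1]
      exact (aeval_algHom_apply (algebraicClosure L F).val ⟨_, a0⟩ ω) ▸
        (aeval (⟨_, a0⟩ : algebraicClosure L F) ω).2
    have le : af L z ≤ algebraicClosure L F := (af_le_iff _ _).2 fun i => by
      fin_cases i
      exacts [a0, a1]
    have t := (tr_td_zero hF.tr (af L z)).2 fun w hw => mem_algebraicClosure_iff.1 (le hw)
    rw [hz, td_top, hF.td_eq] at t
    exact one_ne_zero t
  · obtain ⟨m, hm⟩ := B3_dvd ω (PL P x)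
    obtain ⟨a, b, hab⟩ := hco
    have e := congrArg (MvPolynomial.aeval z) hm
    rw [map_sub, map_mul, hP, B3_ae] at e
    have e1 := congrArg (aeval (z 0)) hab
    rw [map_add, map_mul, map_mul, map_sub, map_one] at e1
    have ma := B3_mem O hc hi (aeval (MvPolynomial.X 0) a)
    have mb := B3_mem O hc hi (aeval (MvPolynomial.X 0) b)
    rw [B3_ae] at ma mb
    have mm := B3_mem O hc hi m
    have m1 := B3_mem O hc hi (lw ω)
    have m2 := B3_mem O hc hi (lw ω')
    have e2 : (1 : F) = aeval (z 0) b * MvPolynomial.aeval z (lw ω') -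
        MvPolynomial.aeval z (lw ω) * (aeval (z 0) a * MvPolynomial.aeval z m + aeval (z 0) b) := by
      have l1 := B3_lw z ω
      have l2 := B3_lw z ω'
      linear_combination -e1 - aeval (z 0) a * e + aeval (z 0) b * l1 - aeval (z 0) b * l2
    have r0 := O.res_eq_zero_of_pos (lt_of_le_of_ne ((O.ord_nonneg_iff _).2 m1) h1.symm)
    have r := congrArg O.res e2
    have m3 := add_mem (mul_mem ma mm) mb
    rw [O.res_one, O.res_sub (mul_mem mb m2) (mul_mem m1 m3), O.res_mul m1 m3, r0, zero_mul,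
      sub_zero, O.res_mul mb m2] at r
    exact ((O.res_ne_zero_iff _).1 (right_ne_zero_of_mul_eq_one r.symm)).2

end Pool.Agent.MP_a9d3bd_x
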