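import Pool.Agent.MP_a9d3bd_x.BSt

namespace Pool.Agent.MP_a9d3bd_x

open Polynomial Pool.Agent.MP_a9d3bd_q Pool.Agent.MP_a9d3bd_h

theorem B4_nd {K E ι : Type} [Field K] [Field E] [Algebra K E] (h : FF K E 1) {v : ι → E} {i : ι}
    (hi : v i ≠ 0) (ha : ∀ a, IsAlgebraic K (v a / v i)) : ¬ ND K v := by
  intro hn
  have h1 : kf K v ≤ algebraicClosure K E := by
    rw [kf_eq_af hi, af_le_iff]
    exact fun a => mem_algebraicClosure_iff.2 (ha a)
  have h2 : Algebra.IsAlgebraic (algebraicClosure K E) E := alg_of_le h1 hn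
  have h3 : Algebra.IsAlgebraic K E := Algebra.IsAlgebraic.trans K (algebraicClosure K E) E
  have h4 := h.tr
  rw [trdeg_eq_zero] at h4
  simp at h4

theorem B4_alg {K E : Type} [Field K] [Field E] [Algebra K E] {P : MvPolynomial (Fin 4) K}
    (h0 : MvPolynomial.eval ![0, 0, 1, 0] P ≠ 0) {s : E}
    (hs : MvPolynomial.aeval ![0, 0, 1, s] P = 0) : IsAlgebraic K s := by
  refine ⟨MvPolynomial.aeval ![0, 0, 1, (X : K[X])] P, fun hQ => h0 ?_, ?_⟩
  · have h1 := MvPolynomial.comp_aeval_apply ![0, 0, 1, (X : K[X])] (aeval (0 : K)) P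
    rw [hQ, map_zero] at h1
    rw [← MvPolynomial.coe_aeval_eq_eval]
    refine Eq.trans ?_ h1.symm
    have e : (fun i => aeval (0 : K) (![0, 0, 1, (X : K[X])] i)) = ![0, 0, 1, 0] := by
      funext i
      fin_cases i <;> simp
    rw [e]
    rfl
  · rw [MvPolynomial.comp_aeval_apply, ← hs]
    congr 2
    funext i
    fin_cases i <;> simp

theorem sB4 : StB4 := by
  intro K F _ _ _ hF P d hP h0 x t w hy O hn
  have hK : FF K O.K 1 := O.ff_K hF
  have y0 : (![1, x, t, w] : Fin 4 → F) 0 ≠ 0 := by simp
  have hr := O.aeval_red_of_zero hP hy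
  have hne : O.red (![1, x, t, w] : Fin 4 → F) ≠ 0 := O.red_ne fun e => y0 (by rw [e]; rfl)
  by_cases r0 : O.red (![1, x, t, w] : Fin 4 → F) 0 = 0
  · by_cases r1 : O.red (![1, x, t, w] : Fin 4 → F) 1 = 0
    · exfalso
      generalize O.red (![1, x, t, w] : Fin 4 → F) = r at hn hr hne r0 r1
      by_cases r2 : r 2 = 0
      · have r3 : r 3 ≠ 0 := fun r3 => hne (by
          funext i
          fin_cases i
          exacts [r0, r1, r2, r3])
        refine B4_nd hK r3 (fun a => ?_) hn
        fin_cases a
        · simpa [r0] using isAlgebraic_zero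
        · simpa [r1] using isAlgebraic_zero
        · simpa [r2] using isAlgebraic_zero
        · simpa [r3] using isAlgebraic_one
      · have e : r = r 2 • ![0, 0, 1, r 3 / r 2] := by
          funext i
          fin_cases i
          · simpa using r0
          · simpa using r1
          · simp
          · simp [mul_div_cancel₀ _ r2]
        rw [e, aeval_smul_hom hP] at hr
        have h3 := B4_alg h0 ((mul_eq_zero.1 hr).resolve_left (pow_ne_zero _ r2))
        refine B4_nd hK r2 (fun a => ?_) hn
        fin_cases a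
        · simpa [r0] using isAlgebraic_zero
        · simpa [r1] using isAlgebraic_zero
        · simpa [r2] using isAlgebraic_one
        · exact h3
    · right
      have x0 : x ≠ 0 := ((O.red_ne_iff _ 1).1 r1).1
      have hI := (O.int_div_iff (y := ![1, x, t, w]) (i := 1) x0).2 r1
      have ht : t / x ∈ O.O := hI 2
      have hw : w / x ∈ O.O := hI 3
      refine ⟨fun hx => (O.int_div_iff y0).1 (fun a => ?_) r0, ht, hw⟩
      have ht' := O.O.mul_mem _ _ ht hx
      have hw' := O.O.mul_mem _ _ hw hx
      rw [div_mul_cancel₀ _ x0] at ht' hw'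
      fin_cases a
      · simp
      · simpa using hx
      · simpa using ht'
      · simpa using hw'
  · left
    have hI := (O.int_div_iff y0).2 r0
    have hd := O.ra_div r0
    refine ⟨by simpa using hI 1, by simpa using hI 2, by simpa using hI 3, fun ⟨a1, a2, a3⟩ =>
      B4_nd hK r0 (fun a => ?_) hn⟩
    rw [← congrFun hd a]
    fin_cases a
    · simpa [DV.ra, O.res_one] using isAlgebraic_one
    · simpa [DV.ra] using a1
    · simpa [DV.ra] using a2
    · simpa [DV.ra] using a3

end Pool.Agent.MP_a9d3bd_x
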