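import Pool.Agent.MP_a9d3bd_x.BSt

namespace Pool.Agent.MP_a9d3bd_x

open Polynomial Pool.Agent.MP_a9d3bd_q Pool.Agent.MP_a9d3bd_h

theorem B5_top {K T : Type} [Field K] [CommRing T] [Algebra K T] (P : MvPolynomial (Fin 3) K)
    (d : ℕ) (hP : P.totalDegree ≤ d) (u : Fin 3 → T[X]) (hu : ∀ i, (u i).natDegree ≤ 1) :
    (MvPolynomial.aeval u P).coeff d =
      MvPolynomial.aeval (fun i => (u i).coeff 1) (MvPolynomial.homogeneousComponent d P) := by
  have k : ∀ (s : Fin 3 →₀ ℕ) (a : K),
      (MvPolynomial.aeval u (MvPolynomial.monomial s a)).natDegree ≤ s.degree ∧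
      (MvPolynomial.aeval u (MvPolynomial.monomial s a)).coeff s.degree =
        MvPolynomial.aeval (fun i => (u i).coeff 1) (MvPolynomial.monomial s a) := fun s a => by
    have p1 : ∀ i, (u i ^ s i).natDegree ≤ s i := fun i =>
      natDegree_pow_le.trans ((Nat.mul_le_mul_left _ (hu i)).trans_eq (mul_one _))
    have p2 : ∀ i, (u i ^ s i).coeff (s i) = (u i).coeff 1 ^ s i := fun i => by
      rw [← coeff_pow_of_natDegree_le (hu i), mul_one]
    have p3 := natDegree_mul_le_of_le (p1 0) (p1 1)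
    simp only [MvPolynomial.aeval_monomial, Finsupp.degree_eq_sum, Fin.sum_univ_three,
      Finsupp.prod_pow, Fin.prod_univ_three, Polynomial.algebraMap_apply]
    refine ⟨(natDegree_C_mul_le _ _).trans (natDegree_mul_le_of_le p3 (p1 2)), ?_⟩
    rw [coeff_C_mul, coeff_mul_add_eq_of_natDegree_le p3 (p1 2),
      coeff_mul_add_eq_of_natDegree_le (p1 0) (p1 1), p2, p2, p2]
  have l : ∀ s ∈ P.support, s.degree ≤ d := fun s hs => (MvPolynomial.le_totalDegree hs).trans hP
  rw [MvPolynomial.homogeneousComponent_apply, Finset.sum_filter, map_sum]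
  conv_lhs => rw [P.as_sum, map_sum, finsetSum_coeff]
  refine Finset.sum_congr rfl fun s hs => ?_
  split_ifs with h
  · rw [← h]
    exact (k s _).2
  · rw [map_zero]
    exact coeff_eq_zero_of_natDegree_lt ((k s _).1.trans_lt (lt_of_le_of_ne (l s hs) h))

theorem B5_alg {K E : Type} [Field K] [Field E] [Algebra K E] {q : E[X]} (h0 : q ≠ 0)
    (hc : ∀ n, IsAlgebraic K (q.coeff n)) {y : E} (hy : q.eval y = 0) : IsAlgebraic K y := by
  obtain ⟨r, hr⟩ : q ∈ lifts (algebraMap (algebraicClosure K E) E) :=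
    (lifts_iff_coeff_lifts q).2 fun n => ⟨⟨q.coeff n, mem_algebraicClosure_iff.2 (hc n)⟩, rfl⟩
  have hr' : r.map (algebraMap (algebraicClosure K E) E) = q := hr
  have h1 : IsAlgebraic (algebraicClosure K E) y :=
    ⟨r, fun e => h0 (by rw [← hr', e, Polynomial.map_zero]), by
      rw [← eval_map_algebraMap, hr', hy]⟩
  exact h1.restrictScalars K

theorem B5_res {K F : Type} [Field K] [Field F] [Algebra K F] (O : DV K F) {y n : F} {r : K}
    (h : O.O.valuation n < 1) (e : y = algebraMap K F r + n) :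
    y ∈ O.O ∧ O.res y = algebraMap K O.K r := by
  have hn : n ∈ O.O := (O.O.valuation_le_one_iff n).1 h.le
  refine ⟨e ▸ add_mem (O.const r) hn, ?_⟩
  rw [e, O.res_add (O.const r) hn, O.res_algebraMap,
    (O.res_eq_zero_iff' hn).2 (O.O.mem_nonunits_iff.2 h), add_zero]

section
open MP_a9d3bd_zz

variable {K A ι : Type} [Field K] [CommRing A] [IsDomain A] [Algebra K A] [Algebra K[X] A]
  [IsScalarTower K K[X] A] [Fintype ι] {m : ℕ} (S : Su K A ι m)

theorem B5_fp {T : Type} [CommRing T] [Algebra K T] (θ : A →ₐ[K] T) (c : T) (g : Fin m × ι → T) :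
    (S.fp θ c g).coeff S.d = pd S.P S.d c := by
  have h := B5_top S.P S.d S.hP ![C (θ (xA K A)), X, S.wl θ c g] fun i => by
    fin_cases i
    · simp
    · exact natDegree_X_le
    · simp only [Su.wl, Fin.reduceFinMk, Matrix.cons_val]
      compute_degree
  refine h.trans (congrArg (fun u => MvPolynomial.aeval u _) (funext fun i => ?_))
  fin_cases i
  · simp
  · simp
  · simp only [Su.wl, Fin.reduceFinMk, Matrix.cons_val, coeff_add, coeff_C_mul, coeff_sub,
      coeff_X_one, coeff_C_succ]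
    simp

theorem B5_map {T T' : Type} [CommRing T] [Algebra K T] [CommRing T'] [Algebra K T']
    (φ : T →ₐ[K] T') (θ : A →ₐ[K] T) (c : T) (g : Fin m × ι → T) :
    (S.fp θ c g).map φ.toRingHom = S.fp (φ.comp θ) (φ c) fun v => φ (g v) := by
  refine (MvPolynomial.comp_aeval_apply _ (mapAlgHom φ) S.P).trans
    (congrArg (fun u => MvPolynomial.aeval u _) (funext fun i => ?_))
  fin_cases i <;> simp [Su.wl, gam, Polynomial.map_sum]

theorem B5_pd {T : Type} [Field T] [Algebra K T] {c : K} (h : pd S.P S.d c ≠ 0) :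
    pd S.P S.d (algebraMap K T c) ≠ 0 := by
  have e : algebraMap K T (pd S.P S.d c) = pd S.P S.d (algebraMap K T c) := by
    refine (MvPolynomial.comp_aeval_apply _ (Algebra.ofId K T) _).trans
      (congrArg (fun u => MvPolynomial.aeval u _) (funext fun i => ?_))
    fin_cases i <;> simp
  rw [← e]
  exact (_root_.map_ne_zero _).2 h

theorem B5_gam {T : Type} [CommRing T] [Algebra K T] (θ : A →ₐ[K] T) (g : Fin m × ι → K) :
    (gam S.e θ fun v => algebraMap K T (g v)) =
      θ (gam S.e (AlgHom.id K A) fun v => algebraMap K A (g v)) := by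
  rw [gam_map]
  simp

variable [Module.Finite K[X] A]

omit [IsDomain A] in
theorem B5_int {T : Type} [Field T] [Algebra K T] (θ : A →ₐ[K] T) (a : A) :
    ∃ f : T[X], f.Monic ∧ (∀ i, ∃ q : K[X], f.coeff i = aeval (θ (xA K A)) q) ∧
      f.eval (θ a) = 0 := by
  obtain ⟨p, hp, h⟩ : IsIntegral K[X] a := Algebra.IsIntegral.isIntegral a
  refine ⟨p.map (θ.toRingHom.comp (algebraMap K[X] A)), hp.map _, fun i => ⟨p.coeff i, ?_⟩, ?_⟩
  · rw [coeff_map, aeval_algHom_apply, aeval_algebraMap_apply, aeval_X_left_apply]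
    rfl
  · rw [eval_map]
    have := hom_eval₂ p (algebraMap K[X] A) θ.toRingHom a
    rw [h, map_zero] at this
    exact this.symm

/-- The residue of `x` is transcendental. -/
theorem B5_tr {T : Type} [Field T] [Algebra K T] (θ : A →ₐ[K] T) {t w : T} {c : K}
    {g : Fin m × ι → K} (hc : pd S.P S.d c ≠ 0)
    (hw : w = algebraMap K T S.c0 * θ (xA K A) ^ S.M + (gam S.e θ fun v => algebraMap K T (g v)) +
      algebraMap K T c * (t - θ (xA K A) ^ S.M))
    (hP : MvPolynomial.aeval ![θ (xA K A), t, w] S.P = 0)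
    (h : ¬ (IsAlgebraic K (θ (xA K A)) ∧ IsAlgebraic K t ∧ IsAlgebraic K w)) :
    Function.Injective θ := by
  have hx : Transcendental K (θ (xA K A)) := by
    intro hx
    have hA : ∀ a, θ a ∈ (algebraicClosure K T).toSubalgebra := fun a => by
      obtain ⟨f, hf, h1, h2⟩ := B5_int θ a
      refine mem_algebraicClosure_iff.2 (B5_alg hf.ne_zero (fun n => ?_) h2)
      obtain ⟨q, hq⟩ := h1 n
      rw [hq]
      exact mem_algebraicClosure_iff.1 (Algebra.adjoin_le (S := (algebraicClosure K T).toSubalgebra)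
        (Set.singleton_subset_iff.2 (mem_algebraicClosure_iff.2 hx))
        (aeval_mem_adjoin_singleton K _))
    have e := B5_map S (algebraicClosure K T).toSubalgebra.val (θ.codRestrict _ hA)
      (algebraMap K _ c) fun v => algebraMap K _ (g v)
    simp only [AlgHom.commutes, AlgHom.val_comp_codRestrict] at e
    have ht : IsAlgebraic K t := by
      refine B5_alg (q := S.fp θ (algebraMap K T c) fun v => algebraMap K T (g v)) (fun e0 => ?_)
        (fun n => ?_) (by rw [fp_eval, ← hw, hP])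
      · have := B5_fp S θ (algebraMap K T c) fun v => algebraMap K T (g v)
        rw [e0, coeff_zero] at this
        exact B5_pd S hc this.symm
      · rw [← e, coeff_map]
        exact mem_algebraicClosure_iff.1 (Subtype.property _)
    refine h ⟨hx, ht, mem_algebraicClosure_iff.1 ?_⟩
    have hx' := mem_algebraicClosure_iff.2 hx
    rw [hw, B5_gam]
    exact add_mem (add_mem (mul_mem (algebraMap_mem _ _) (pow_mem hx' _)) (hA _))
      (mul_mem (algebraMap_mem _ _) (sub_mem (mem_algebraicClosure_iff.2 ht) (pow_mem hx' _)))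
  rw [RingHom.injective_iff_ker_eq_bot]
  refine Ideal.eq_bot_of_comap_eq_bot (R := K[X]) (eq_bot_iff.2 fun q hq => ?_)
  have h1 : θ (algebraMap K[X] A q) = 0 := hq
  refine (transcendental_iff.1 hx) q ?_
  rw [aeval_algHom_apply, aeval_algebraMap_apply, aeval_X_left_apply, h1]

variable {F : Type} [Field F] [Algebra (FractionRing A) F] [Algebra K F]
  [IsScalarTower K (FractionRing A) F]

variable (K A F) in
/-- The map to the big field. -/
noncomputable def B5_ph : A →ₐ[K] F :=
  (IsScalarTower.toAlgHom K (FractionRing A) F).comp (Su.gp K A)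

omit [Module.Finite K[X] A] in
theorem B5_lw (z : Fin 2 → F) (H : K × (Fin m × ι → K)) :
    MvPolynomial.aeval z (lw (om S H)) = z 1 - (algebraMap K F S.c0 * B5_ph K A F (xA K A) ^ S.M +
      B5_ph K A F (gam S.e (AlgHom.id K A) fun v => algebraMap K A (H.2 v)) +
      algebraMap K F H.1 * (z 0 - B5_ph K A F (xA K A) ^ S.M)) := by
  rw [lw, map_sub, ← aeval_algHom_apply, MvPolynomial.aeval_X, MvPolynomial.aeval_X, om, Su.wl,
    B5_gam]
  simp [B5_ph, ← IsScalarTower.algebraMap_apply]

omit [Module.Finite K[X] A] in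
theorem B5_inf (hM : 2 ≤ S.M) (z : Fin 2 → F) (O : DV K F) (hx : B5_ph K A F (xA K A) ∉ O.O)
    (ht : z 0 / B5_ph K A F (xA K A) ∈ O.O) (hw : z 1 / B5_ph K A F (xA K A) ∈ O.O)
    (H : K × (Fin m × ι → K)) :
    MvPolynomial.aeval z (lw (om S H)) / B5_ph K A F (xA K A) ^ S.M ∈ O.O ∧
      O.res (MvPolynomial.aeval z (lw (om S H)) / B5_ph K A F (xA K A) ^ S.M) =
        algebraMap K O.K (H.1 - S.c0) := by
  obtain ⟨x, hxe⟩ : ∃ x, x = B5_ph K A F (xA K A) := ⟨_, rfl⟩
  have x0 : x ≠ 0 := fun e => hx (by rw [← hxe, e]; exact zero_mem _)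
  have xi : O.O.valuation x⁻¹ < 1 := O.O.mem_nonunits_iff.1
    (O.O.mem_nonunits_iff_or.2 (Or.inr (by rwa [inv_inv, hxe])))
  have k1 : ∀ y, y / x ∈ O.O → O.O.valuation (y / x ^ S.M) < 1 := fun y hy => by
    obtain ⟨n, hn⟩ := Nat.exists_eq_add_of_le hM
    have e : y / x ^ S.M = y / x * x⁻¹ ^ (n + 1) := by
      rw [hn, inv_pow]
      field_simp
      ring
    rw [e, map_mul, map_pow]
    exact mul_lt_one_of_nonneg_of_lt_one_right ((O.O.valuation_le_one_iff _).2 hy) zero_le
      (pow_lt_one₀ zero_le xi (Nat.succ_ne_zero n))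
  have k0 : ∀ (r : K) y, O.O.valuation y < 1 → O.O.valuation (algebraMap K F r * y) < 1 :=
    fun r y hy => by
      rw [map_mul]
      exact mul_lt_one_of_nonneg_of_lt_one_right ((O.O.valuation_le_one_iff _).2 (O.const r))
        zero_le hy
  have k2 : ∀ (i : Fin m) j,
      O.O.valuation (x ^ (i : ℕ) * B5_ph K A F (S.e j) / x ^ S.M) < 1 := fun i j => by
    have h := S.hinf (O.O.comap (algebraMap (FractionRing A) F))
      (fun a => by
        rw [ValuationSubring.mem_comap, ← IsScalarTower.algebraMap_apply]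
        exact O.const a) hx i j
    have h1 := (div_lt_one₀ (zero_le.trans_lt h)).2 h
    rw [← map_div₀, ← ValuationSubring.mem_nonunits_iff, ValuationSubring.mem_nonunits_iff_or,
      ValuationSubring.mem_comap, map_inv₀,
      ← map_eq_zero_iff _ (algebraMap (FractionRing A) F).injective,
      ← ValuationSubring.mem_nonunits_iff_or, ValuationSubring.mem_nonunits_iff] at h1
    simp only [map_div₀ (algebraMap (FractionRing A) F), map_mul (algebraMap (FractionRing A) F),
      map_mul (algebraMap A (FractionRing A)), map_pow (algebraMap (FractionRing A) F),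
      map_pow (algebraMap A (FractionRing A))] at h1
    rw [hxe]
    exact h1
  have k3 : O.O.valuation (B5_ph K A F (gam S.e (AlgHom.id K A) fun v => algebraMap K A (H.2 v)) /
      x ^ S.M) < 1 := by
    rw [← B5_gam, gam, Finset.sum_div]
    refine Valuation.map_sum_lt _ one_ne_zero fun v _ => ?_
    rw [mul_div_assoc, ← hxe]
    exact k0 _ _ (k2 _ _)
  rw [← hxe] at ht hw ⊢
  refine B5_res O (Valuation.map_sub_lt _ (Valuation.map_sub_lt _ (k1 _ hw) k3)
    (k0 H.1 _ (k1 _ ht))) ?_
  rw [B5_lw, ← hxe, map_sub]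
  field_simp
  ring

theorem B5_fin (z : Fin 2 → F) (O : DV K F) (hx : B5_ph K A F (xA K A) ∈ O.O) (ht : z 0 ∈ O.O)
    (hw : z 1 ∈ O.O) (hP : MvPolynomial.aeval ![B5_ph K A F (xA K A), z 0, z 1] S.P = 0)
    (h : ¬ (IsAlgebraic K (O.res (B5_ph K A F (xA K A))) ∧ IsAlgebraic K (O.res (z 0)) ∧
      IsAlgebraic K (O.res (z 1)))) (H : K × (Fin m × ι → K)) (hc : pd S.P S.d H.1 ≠ 0)
    (ho : O.ord (MvPolynomial.aeval z (lw (om S H))) ≠ 0) (c : FractionRing A) :
    algebraMap _ F c ∈ O.O := by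
  have hA : ∀ a, B5_ph K A F a ∈ O.O := fun a => by
    obtain ⟨f, hf, h1, h2⟩ := B5_int (B5_ph K A F) a
    refine O.mem_of_root f hf (fun n => ?_) h2
    obtain ⟨q, hq⟩ := h1 n
    rw [hq, aeval_eq_sum_range]
    exact sum_mem fun i _ => by
      rw [Algebra.smul_def]
      exact mul_mem (O.const _) (pow_mem hx _)
  let θ : A →ₐ[K] O.K :=
    { toFun := fun a => O.res (B5_ph K A F a)
      map_one' := by rw [map_one, O.res_one]
      map_mul' := fun a b => by rw [map_mul, O.res_mul (hA a) (hA b)]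
      map_zero' := by rw [map_zero, O.res_zero]
      map_add' := fun a b => by rw [map_add, O.res_add (hA a) (hA b)]
      commutes' := fun r => by rw [AlgHom.commutes, O.res_algebraMap] }
  have hθ : ∀ a, θ a = O.res (B5_ph K A F a) := fun _ => rfl
  have hi : Function.Injective θ := by
    refine B5_tr S θ (t := O.res (z 0)) (w := O.res (z 1)) (g := H.2) hc ?_ ?_ h
    · have h0 : O.res (MvPolynomial.aeval z (lw (om S H))) = 0 := by
        by_contra k
        exact ho ((O.res_ne_zero_iff _).1 k).2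
      have m1 := pow_mem hx S.M
      have m2 := mul_mem (O.const S.c0) m1
      have m3 := mul_mem (O.const H.1) (sub_mem ht m1)
      rw [B5_lw, O.res_sub hw (add_mem (add_mem m2 (hA _)) m3), O.res_add (add_mem m2 (hA _)) m3,
        O.res_add m2 (hA _), O.res_mul (O.const _) m1, O.res_mul (O.const _) (sub_mem ht m1),
        O.res_sub ht m1, O.res_pow hx, O.res_algebraMap, O.res_algebraMap] at h0
      rw [B5_gam, hθ, hθ]
      exact sub_eq_zero.1 h0
    · have hI : O.Int ![B5_ph K A F (xA K A), z 0, z 1] := fun i => by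
        fin_cases i
        exacts [hx, ht, hw]
      have e := O.res_aeval hI S.P
      rw [hP, O.res_zero] at e
      refine Eq.trans (congrArg (fun u => MvPolynomial.aeval u _) (funext fun i => ?_)) e.symm
      fin_cases i <;> rfl
  obtain ⟨a, b, hb, rfl⟩ := IsFractionRing.div_surjective (A := A) c
  have h1 : θ b ≠ 0 := (map_ne_zero_iff _ hi).2 (nonZeroDivisors.ne_zero hb)
  rw [map_div₀, div_eq_mul_inv]
  exact mul_mem (hA a) ((O.ord_eq_zero_iff _).1 ((O.res_ne_zero_iff _).1 h1).2).2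

end

theorem sB5 (h4 : StB4) : StB5 := by
  intro K A ι F _ _ _ _ _ _ _ _ m S _ _ _ _ _ hF hM P hP h0 hS z hz O hO
  have e1 : MvPolynomial.aeval ![1, B5_ph K A F (MP_a9d3bd_zz.xA K A), z 0, z 1] P = 0 := by
    refine Eq.trans ?_ ((MvPolynomial.comp_aeval_apply _
      ((MvPolynomial.aeval z : MvPolynomial (Fin 2) (FractionRing A) →ₐ[FractionRing A] F
        ).restrictScalars K) P).symm.trans hz)
    refine congrArg (fun u => MvPolynomial.aeval u _) (funext fun i => ?_)
    fin_cases i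
    · simp
    · simp [B5_ph, MP_a9d3bd_zz.Su.gp]
    · simp
    · simp
  rcases h4 K F hF P S.d hP h0 _ _ _ e1 O hO with ⟨hx, ht, hw, h⟩ | ⟨hx, ht, hw⟩
  · refine Or.inl ⟨fun i => ?_, B5_fin S z O hx ht hw ?_ h⟩
    · fin_cases i
      exacts [ht, hw]
    · rw [hS, MP_a9d3bd_yy.aff, MvPolynomial.comp_aeval_apply, ← e1]
      refine congrArg (fun u => MvPolynomial.aeval u _) (funext fun i => ?_)
      fin_cases i <;> simp
  · refine Or.inr ⟨hx, fun H H' h h' => ⟨(H.1 - S.c0) / (H'.1 - S.c0),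
      div_ne_zero (sub_ne_zero.2 h) (sub_ne_zero.2 h'), ?_⟩⟩
    obtain ⟨a1, a2⟩ := B5_inf S hM z O hx ht hw H
    obtain ⟨-, b2⟩ := B5_inf S hM z O hx ht hw H'
    have x0 : B5_ph K A F (MP_a9d3bd_zz.xA K A) ≠ 0 := fun e => hx (by rw [e]; exact zero_mem _)
    have b3 := ((O.res_ne_zero_iff _).1
      (b2.trans_ne ((_root_.map_ne_zero _).2 (sub_ne_zero.2 h')))).2
    rw [← div_div_div_cancel_right₀ (pow_ne_zero S.M x0), O.res_div a1 b3, a2, b2, map_div₀]

end Pool.Agent.MP_a9d3bd_x
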