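import Pool.Agent.MP_a9d3bd_x.B6a

namespace Pool.Agent.MP_a9d3bd_x

open Polynomial Pool.Agent.MP_a9d3bd_q Pool.Agent.MP_a9d3bd_h Pool.Agent.MP_a9d3bd_zz Su

theorem B6s_top {K T : Type} [Field K] [CommRing T] [Algebra K T] (P : MvPolynomial (Fin 3) K)
    (d : ℕ) (hP : P.totalDegree ≤ d) (u : Fin 3 → T[X]) (hu : ∀ i, (u i).natDegree ≤ 1) :
    (MvPolynomial.aeval u P).natDegree ≤ d ∧ (MvPolynomial.aeval u P).coeff d =
      MvPolynomial.aeval (fun i => (u i).coeff 1) (MvPolynomial.homogeneousComponent d P) := by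
  have k : ∀ (s : Fin 3 →₀ ℕ) (a : K),
      (MvPolynomial.aeval u (MvPolynomial.monomial s a)).natDegree ≤ s.degree ∧
      (MvPolynomial.aeval u (MvPolynomial.monomial s a)).coeff s.degree =
        MvPolynomial.aeval (fun i => (u i).coeff 1) (MvPolynomial.monomial s a) := fun s a => by
    have p1 : ∀ i, (u i ^ s i).natDegree ≤ s i := fun i =>
      natDegree_pow_le.trans ((Nat.mul_le_mul_left _ (hu i)).trans_eq (mul_one _))
    have p2 : ∀ i, (u i ^ s i).coeff (s i) = (u i).coeff 1 ^ s i := fun i => by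
      rw [← coeff_pow_of_natDegree_le (hu i), mul_one]
    have p3 := natDegree_mul_le_of_le (p1 0) (p1 1)
    simp only [MvPolynomial.aeval_monomial, Finsupp.degree_eq_sum, Fin.sum_univ_three,
      Finsupp.prod_pow, Fin.prod_univ_three, Polynomial.algebraMap_apply]
    refine ⟨(natDegree_C_mul_le _ _).trans (natDegree_mul_le_of_le p3 (p1 2)), ?_⟩
    rw [coeff_C_mul, coeff_mul_add_eq_of_natDegree_le p3 (p1 2),
      coeff_mul_add_eq_of_natDegree_le (p1 0) (p1 1), p2, p2, p2]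
  have l : ∀ s ∈ P.support, s.degree ≤ d := fun s hs => (MvPolynomial.le_totalDegree hs).trans hP
  constructor
  · rw [P.as_sum, map_sum]
    exact natDegree_sum_le_of_forall_le _ _ fun s hs => (k s _).1.trans (l s hs)
  · rw [MvPolynomial.homogeneousComponent_apply, Finset.sum_filter, map_sum]
    conv_lhs => rw [P.as_sum, map_sum, finsetSum_coeff]
    refine Finset.sum_congr rfl fun s hs => ?_
    split_ifs with h
    · rw [← h]
      exact (k s _).2
    · rw [map_zero]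
      exact coeff_eq_zero_of_natDegree_lt ((k s _).1.trans_lt (lt_of_le_of_ne (l s hs) h))

theorem B6s_res {T : Type} [Field T] {f : T[X]} {n : ℕ} (h0 : f ≠ 0) (hn : f.natDegree = n) :
    resultant f (derivative f) n n ≠ 0 ↔ f.Separable := by
  obtain ⟨k, hk⟩ := Nat.exists_eq_add_of_le ((natDegree_derivative_le f).trans (Nat.sub_le _ 1))
  have e := resultant_add_right_deg f (derivative f) f.natDegree _ k le_rfl
  rw [← hk, hn] at e
  rw [e, ← hn, mul_ne_zero_iff, Ne, Ne, resultant_eq_zero_iff, separable_def]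
  simp [h0]

variable {K A ι : Type} [Field K] [CommRing A] [IsDomain A] [Algebra K A]
  [Algebra K[X] A] [IsScalarTower K K[X] A] [Fintype ι] {m : ℕ} (S : Su K A ι m)

section
variable {T T' : Type} [CommRing T] [Algebra K T] [CommRing T'] [Algebra K T']

theorem B6s_fp (θ : A →ₐ[K] T) (c : T) (g : Fin m × ι → T) :
    (S.fp θ c g).natDegree ≤ S.d ∧ (S.fp θ c g).coeff S.d = pd S.P S.d c := by
  have h := B6s_top S.P S.d S.hP ![C (θ (xA K A)), X, S.wl θ c g] fun i => by
    fin_cases i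
    · simp
    · exact natDegree_X_le
    · simp only [wl, Fin.reduceFinMk, Matrix.cons_val]
      compute_degree
  refine ⟨h.1, h.2.trans (congrArg (fun u => MvPolynomial.aeval u _) (funext fun i => ?_))⟩
  fin_cases i
  · simp
  · simp
  · simp only [wl, Fin.reduceFinMk, Matrix.cons_val, coeff_add, coeff_C_mul, coeff_sub, coeff_X_one,
      coeff_C_succ]
    simp

theorem B6s_map (φ : T →ₐ[K] T') (θ : A →ₐ[K] T) (c : T) (g : Fin m × ι → T) :
    (S.fp θ c g).map φ.toRingHom = S.fp (φ.comp θ) (φ c) fun v => φ (g v) := by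
  refine (MvPolynomial.comp_aeval_apply _ (mapAlgHom φ) S.P).trans
    (congrArg (fun u => MvPolynomial.aeval u _) (funext fun i => ?_))
  fin_cases i <;> simp [wl, gam, Polynomial.map_sum]

theorem B6s_pd (φ : T →ₐ[K] T') (c : T) : φ (pd S.P S.d c) = pd S.P S.d (φ c) := by
  refine (MvPolynomial.comp_aeval_apply _ φ _).trans
    (congrArg (fun u => MvPolynomial.aeval u _) (funext fun i => ?_))
  fin_cases i <;> simp

end

theorem B6_sep {c : K} {g : Fin m × ι → K} (h : S.Adm c g) : (S.fL c g).Separable := by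
  obtain ⟨h0, θ, h1⟩ := h
  let f : A[X] := S.fp (AlgHom.id K A) (algebraMap K A c) fun v => algebraMap K A (g v)
  have e1 : f.map θ.toRingHom = S.fp θ c g := by
    rw [B6s_map]
    simp
  have e2 : f.map (gp K A).toRingHom = S.fL c g := by
    rw [B6s_map, fL]
    simp
  have d1 := B6s_fp S θ c g
  have d2 : (S.fL c g).natDegree ≤ S.d ∧ (S.fL c g).coeff S.d = pd S.P S.d (algebraMap K _ c) :=
    B6s_fp S _ _ _
  have n2 : pd S.P S.d (algebraMap K (FractionRing A) c) ≠ 0 := by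
    have := B6s_pd S (Algebra.ofId K (FractionRing A)) c
    rw [Algebra.ofId_apply, Algebra.ofId_apply] at this
    rw [← this]
    exact (_root_.map_ne_zero _).2 h0
  have r1 := (B6s_res h1.ne_zero
    (natDegree_eq_of_le_of_coeff_ne_zero d1.1 (d1.2 ▸ h0))).2 h1
  refine (B6s_res (fun e => n2 (by rw [← d2.2, e, coeff_zero]))
    (natDegree_eq_of_le_of_coeff_ne_zero d2.1 (d2.2 ▸ n2))).1 ?_
  rw [← e1, derivative_map, resultant_map_map] at r1
  rw [← e2, derivative_map, resultant_map_map]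
  intro e
  apply r1
  rw [(map_eq_zero_iff _ (IsFractionRing.injective A (FractionRing A))).1 e, map_zero]

theorem B6_fL {P : MvPolynomial (Fin 4) K} (hP : S.P = MP_a9d3bd_yy.aff P)
    (H : K × (Fin m × ι → K)) :
    ph (om S H) (PL P (MP_a9d3bd_yy.xL K A)) = S.fL H.1 H.2 := by
  rw [fL, fp, hP, MP_a9d3bd_yy.aff, PL]
  refine (MvPolynomial.comp_aeval_apply _ ((ph (om S H)).restrictScalars K) P).trans
    (Eq.trans ?_ (MvPolynomial.comp_aeval_apply _ _ P).symm)
  congr 2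
  funext i
  fin_cases i <;> simp [ph, om, Su.gp]

section
variable {L : Type} [Field L] [Algebra K L] {P : MvPolynomial (Fin 4) K} {x : L} {ω f : L[X]}

theorem B6_pt (hL : FF K L 1) (hf : f ∈ Cq P x ω) [Fact (Irreducible f)] :
    FF K (AdjoinRoot f) 1 ∧
    (![1, AdjoinRoot.of f x, AdjoinRoot.root f, AdjoinRoot.mk f ω] : Fin 4 → AdjoinRoot f) ≠ 0 ∧
    On {P} ![1, AdjoinRoot.of f x, AdjoinRoot.root f, AdjoinRoot.mk f ω] := by
  refine ⟨?_, fun e => by simpa using congrFun e 0, fun G hG => ?_⟩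
  · have := (AdjoinRoot.powerBasis hf.2.1.ne_zero).finite
    exact hL.of_tower (ff_zero_iff.2 this)
  · rw [Set.mem_singleton_iff.1 hG, ← AdjoinRoot.mk_eq_zero.2 hf.2.2, PL]
    refine Eq.trans ?_ (MvPolynomial.comp_aeval_apply _
      (((AdjoinRoot.mkₐ f).comp (ph ω)).restrictScalars K) P).symm
    congr 2
    funext i
    fin_cases i <;> simp [ph]

end

theorem sB6 (h1 : StB1) (h2 : StB2) (h3 : StB3) (h5 : StB5) : StB6 := by
  intro K A ι _ _ _ _ _ _ _ _ _ m S halg hL hM P hP h0 hS Λ hΛ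
  have hC : ∀ c g, S.Cp c g = Cq P (MP_a9d3bd_yy.xL K A) (om S (c, g)) := fun c g => by
    rw [Cp, Cq, B6_fL S hS]
  refine ⟨fun c g f hf u u' a b => ?_, fun c g f hf u u' a => ?_, fun c g f hf a ha => ?_,
    fun H0 H1 H2 H3 a0 a1 a2 a3 s2 s3 c12 c13 c02 c03 => ?_⟩
  · rw [hC] at hf
    have := Fact.mk hf.2.1
    obtain ⟨e1, e2, e3⟩ := B6_pt hL hf
    simp only [muS, mu0, dif_pos hf.2.1, map_mul]
    rw [hΛ.mul _ e1 _ _ _ e2 e3 (mt AdjoinRoot.mk_eq_zero.1 a) (mt AdjoinRoot.mk_eq_zero.1 b),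
      Rat.cast_add]
  · simp only [muS, mu0, AdjoinRoot.mk_eq_mk.2 a]
  · rw [hC] at hf
    have := Fact.mk hf.2.1
    obtain ⟨e1, e2, e3⟩ := B6_pt hL hf
    simp only [muS, mu0, dif_pos hf.2.1]
    have := hΛ.const halg e1 e2 e3 ha
    rw [IsScalarTower.algebraMap_apply K (FractionRing A), AdjoinRoot.algebraMap_eq] at this
    rw [AdjoinRoot.mk_C, this, Rat.cast_zero]
  · have hx : Transcendental K (MP_a9d3bd_yy.xL K A) := by
      rw [transcendental_iff]
      intro q hq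
      have e : aeval (MP_a9d3bd_yy.xL K A) q =
          algebraMap A (FractionRing A) (algebraMap K[X] A q) := by
        conv_rhs => rw [← aeval_X_left_apply q, ← aeval_algebraMap_apply, ← aeval_algebraMap_apply]
      rw [e, map_eq_zero_iff _ (IsFractionRing.injective A _)] at hq
      exact (map_eq_zero_iff _ (FaithfulSMul.algebraMap_injective K[X] A)).1 hq
    have hM' : ∀ H H' : K × (Fin m × ι → K), S.MM (muS S Λ) H.1 H.2 (S.lr H.1 H.2 H'.1 H'.2) =
        MQ P Λ (MP_a9d3bd_yy.xL K A) (om S H) (om S H') := fun H H' => by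
      rw [MM, hC]
      rfl
    simp only [Ph, hM']
    refine rel0 h1 h2 h3 halg hL hx hΛ (fun G hG => ⟨_, hG ▸ hP⟩)
      (B6_fL S hS H0 ▸ B6_sep S a0) (B6_fL S hS H1 ▸ B6_sep S a1) (B6_fL S hS H2 ▸ B6_sep S a2)
      (B6_fL S hS H3 ▸ B6_sep S a3) (B6_fL S hS H0 ▸ c02.1) (B6_fL S hS H0 ▸ c03.1)
      (B6_fL S hS H1 ▸ c12.1) (B6_fL S hS H1 ▸ c13.1) fun F _ _ _ _ hF z hz O hN => ?_
    refine (h5 K A ι F m S hL hF hM P hP h0 hS z hz O hN).imp (fun e => ⟨e.1, ?_⟩)
      fun e => ⟨e.1, e.2 H2 H3 s2 s3⟩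
    rintro ω (rfl | rfl | rfl | rfl)
    exacts [e.2 H0 a0.1, e.2 H1 a1.1, e.2 H2 a2.1, e.2 H3 a3.1]

end Pool.Agent.MP_a9d3bd_x
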