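import Pool.Agent.MP_a9d3bd_x.BSt

namespace Pool.Agent.MP_a9d3bd_x

open Polynomial Pool.Agent.MP_a9d3bd_q Pool.Agent.MP_a9d3bd_h

variable {K L : Type} [Field K] [Field L] [Algebra K L] {P : MvPolynomial (Fin 4) K} {x : L}
  {Λ : LF K (Fin 4)}

theorem ph_lw (ω ω' : L[X]) : ph ω (lw ω') = ω - ω' := by
  have : ph ω (aeval (MvPolynomial.X 0 : MvPolynomial (Fin 2) L) ω') = ω' := by
    rw [← aeval_algHom_apply]
    simp [ph]
  rw [lw, map_sub, this]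
  simp [ph]

theorem B6_loc (h3 : StB3) (halg : ∀ c : K, c ≠ 0 → ∃ n, 0 < n ∧ c ^ n = 1) (hL : FF K L 1)
    (hx : Transcendental K x) (hΛ : GF {P} Λ) (hS : Homog {P}) {a b c d : L[X]}
    (na : ph a (PL P x) ≠ 0) (nb : ph b (PL P x) ≠ 0) (nc : ph c (PL P x) ≠ 0)
    (nd : ph d (PL P x) ≠ 0)
    (ac : IsCoprime (ph a (PL P x)) (a - c)) (ad : IsCoprime (ph a (PL P x)) (a - d))
    (bc : IsCoprime (ph b (PL P x)) (b - c)) (bd : IsCoprime (ph b (PL P x)) (b - d))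
    {F : Type} [Field F] [Algebra L F] [Algebra K F] [IsScalarTower K L F] (hF : FF L F 1)
    {z : Fin 2 → F} (hz : af L z = ⊤) (h0 : MvPolynomial.aeval z (PL P x) = 0)
    (hcl : ∀ O : DV K F, ND K (O.red (yz x z)) →
      (O.Int z ∧ ∀ ω, ω = a ∨ ω = b ∨ ω = c ∨ ω = d →
        O.ord (MvPolynomial.aeval z (lw ω)) ≠ 0 → ∀ e : L, algebraMap L F e ∈ O.O) ∨
      (algebraMap L F x ∉ O.O ∧ ∃ e : K, e ≠ 0 ∧
        O.res (MvPolynomial.aeval z (lw c) / MvPolynomial.aeval z (lw d)) = algebraMap K O.K e)) :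
    (∑ᶠ O, ct Λ x z b (lw c) O) - (∑ᶠ O, ct Λ x z c (lw b) O) -
      ((∑ᶠ O, ct Λ x z b (lw d) O) - ∑ᶠ O, ct Λ x z d (lw b) O) -
      ((∑ᶠ O, ct Λ x z a (lw c) O) - ∑ᶠ O, ct Λ x z c (lw a) O) +
      ((∑ᶠ O, ct Λ x z a (lw d) O) - ∑ᶠ O, ct Λ x z d (lw a) O) = 0 := by
  classical
  obtain ⟨h2, hy, hO, hn, hne, hcop⟩ := h3 K L F hL hF P x z hx hz h0
  have hk : ∀ O : DV K F, FF K O.K 1 := fun O => O.ff_K h2
  have hr : ∀ O : DV K F, O.red (yz x z) ≠ 0 := fun O => O.red_ne hy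
  have ho : ∀ O : DV K F, On {P} (O.red (yz x z)) := fun O => O.on_red hS hO
  have a0 := hne a na
  have b0 := hne b nb
  have c0 := hne c nc
  have d0 := hne d nd
  have hfin : ∀ ω G, (Function.support (ct Λ x z ω G)).Finite := fun ω G =>
    (fsp h2 (yz x z) (MvPolynomial.aeval z (lw ω))).subset fun O hO' =>
      ⟨by_contra fun e => hO' (by simp [ct, hΛ.degen _ (hk O) _ _ e]), fun e => hO' (by
        simp [ct, e])⟩
  have hsep : ∀ O : DV K F, (∀ e : L, algebraMap L F e ∈ O.O) → O.Int z →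
      (O.ord (MvPolynomial.aeval z (lw a)) = 0 ∧ O.ord (MvPolynomial.aeval z (lw b)) = 0) ∨
      (O.ord (MvPolynomial.aeval z (lw c)) = 0 ∧ O.ord (MvPolynomial.aeval z (lw d)) = 0) :=
    fun O e1 e2 => by
      by_cases ha : O.ord (MvPolynomial.aeval z (lw a)) = 0
      · by_cases hb : O.ord (MvPolynomial.aeval z (lw b)) = 0
        · exact Or.inl ⟨ha, hb⟩
        · exact Or.inr ⟨hcop b c O bc e1 e2 hb, hcop b d O bd e1 e2 hb⟩
      · exact Or.inr ⟨hcop a c O ac e1 e2 ha, hcop a d O ad e1 e2 ha⟩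
  have key := hΛ.tame F h2 _ _ _ hy hO hn (div_ne_zero b0 a0) (div_ne_zero c0 d0) fun O hN => by
    rcases hcl O hN with ⟨e1, e2⟩ | ⟨-, e, e0, e1⟩
    · by_cases hl : ∀ e : L, algebraMap L F e ∈ O.O
      · rcases hsep O hl e1 with ⟨u, v⟩ | ⟨u, v⟩
        · exact Or.inl (by rw [O.ord_div b0 a0, u, v, sub_zero])
        · exact Or.inr (by rw [O.ord_div c0 d0, u, v, sub_zero])
      · left
        rw [O.ord_div b0 a0, by_contra fun u => hl (e2 a (by simp) u),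
          by_contra fun u => hl (e2 b (by simp) u), sub_zero]
    · exact Or.inr ((O.res_ne_zero_iff _).1 (e1 ▸ (_root_.map_ne_zero _).2 e0)).2
  rw [← key]
  simp only [← finsum_sub_distrib (hfin _ _) (hfin _ _)]
  have hf2 : ∀ ω ω' G G', (Function.support fun O : DV K F =>
      ct Λ x z ω G O - ct Λ x z ω' G' O).Finite := fun ω ω' G G' =>
    ((hfin ω G).union (hfin ω' G')).subset (Function.support_sub _ _)
  rw [← finsum_sub_distrib (hf2 _ _ _ _) (hf2 _ _ _ _), ← finsum_sub_distrib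
    (((hf2 _ _ _ _).union (hf2 _ _ _ _)).subset (Function.support_sub _ _)) (hf2 _ _ _ _),
    ← finsum_add_distrib (((((hf2 _ _ _ _).union (hf2 _ _ _ _)).subset
      (Function.support_sub _ _)).union (hf2 _ _ _ _)).subset (Function.support_sub _ _))
      (hf2 _ _ _ _)]
  refine finsum_congr fun O => ?_
  by_cases hN : ND K (O.red (yz x z))
  swap
  · simp [ct, hΛ.degen _ (hk O) _ _ hN]
  by_cases hl : (∀ e : L, algebraMap L F e ∈ O.O) ∧ O.Int z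
  · simp only [ct, if_pos hl]
    rcases hsep O hl.1 hl.2 with ⟨u, v⟩ | ⟨u, v⟩
    · have r1 := (O.res_ne_zero_iff _).2 ⟨b0, v⟩
      have r2 := (O.res_ne_zero_iff _).2 ⟨a0, u⟩
      rw [O.tame_of_left _ (by rw [O.ord_div b0 a0, u, v, sub_zero]),
        O.res_div ((O.ord_eq_zero_iff _).1 v).1 u,
        hΛ.zpow (hk _) (hr _) (ho _) (div_ne_zero r1 r2), hΛ.div (hk _) (hr _) (ho _) r1 r2,
        O.ord_div c0 d0, u, v]
      push_cast
      ring
    · have r1 := (O.res_ne_zero_iff _).2 ⟨c0, u⟩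
      have r2 := (O.res_ne_zero_iff _).2 ⟨d0, v⟩
      rw [O.tame_of_right _ (by rw [O.ord_div c0 d0, u, v, sub_zero]),
        O.res_div ((O.ord_eq_zero_iff _).1 u).1 v,
        hΛ.zpow (hk _) (hr _) (ho _) (div_ne_zero r1 r2), hΛ.div (hk _) (hr _) (ho _) r1 r2,
        O.ord_div b0 a0, u, v]
      push_cast
      ring
  · simp only [ct, if_neg hl, sub_self, add_zero]
    rcases hcl O hN with ⟨e1, e2⟩ | ⟨-, e, e0, e1⟩
    · have hl' : ¬ ∀ e : L, algebraMap L F e ∈ O.O := fun u => hl ⟨u, e1⟩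
      rw [O.tame_of_left _ (by
        rw [O.ord_div b0 a0, by_contra fun u => hl' (e2 a (by simp) u),
          by_contra fun u => hl' (e2 b (by simp) u), sub_zero]), O.ord_div c0 d0,
        by_contra fun u => hl' (e2 c (by simp) u), by_contra fun u => hl' (e2 d (by simp) u),
        sub_zero, neg_zero, zpow_zero, hΛ.one (hk O) (hr O) (ho O)]
    · rw [O.tame_of_right _ ((O.res_ne_zero_iff _).1 (e1 ▸ (_root_.map_ne_zero _).2 e0)).2, e1,
        hΛ.zpow (hk O) (hr O) (ho O) ((_root_.map_ne_zero _).2 e0),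
        hΛ.const halg (hk O) (hr O) (ho O) e0, mul_zero]

theorem B6_fin {ω : L[X]} (h : ph ω (PL P x) ≠ 0) : (Cq P x ω).Finite := by
  have := Polynomial.fintypeSubtypeMonicDvd _ h
  have h1 : ({g : L[X] | g.Monic ∧ g ∣ ph ω (PL P x)}).Finite :=
    Set.finite_coe_iff.1 (@Finite.of_fintype _ this)
  exact h1.subset fun f hf => ⟨hf.1, hf.2.2⟩

theorem B6_sum (h2 : StB2) {ω : L[X]} (h : (ph ω (PL P x)).Separable) (μ : L[X] → ℝ)
    (T : Finset (Pr L (Fin 2))) (hT : ∀ W, W ∈ T ↔ PL P x ∈ W.asIdeal ∧ ptd W = 1) :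
    ∑ᶠ f ∈ Cq P x ω, μ f = ∑ W ∈ T, ∑ᶠ f ∈ {f ∈ Cq P x ω | Lo ω W f}, μ f := by
  classical
  have hf := B6_fin h.ne_zero
  have e : ∀ W, ∑ᶠ f ∈ {f ∈ Cq P x ω | Lo ω W f}, μ f =
      ∑ f ∈ hf.toFinset, if Lo ω W f then μ f else 0 := fun W => by
    rw [← Finset.sum_filter, ← finsum_mem_coe_finset]
    congr 1
    ext f
    simp
  rw [finsum_mem_eq_finite_toFinset_sum _ hf]
  simp only [e]
  rw [Finset.sum_comm]
  refine Finset.sum_congr rfl fun f hf' => ?_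
  obtain ⟨-, u, v⟩ := hf.mem_toFinset.1 hf'
  obtain ⟨W, ⟨w1, w2, w3⟩, hu⟩ := h2 L _ ω f h u v
  rw [Finset.sum_eq_single W (fun W' a b => if_neg fun c =>
    b (hu W' ⟨((hT W').1 a).1, ((hT W').1 a).2, c⟩)) (fun a => absurd ((hT W).2 ⟨w1, w2⟩) a),
    if_pos w3]

/-- The sum over the components. -/
noncomputable def MQ (P : MvPolynomial (Fin 4) K) (Λ : LF K (Fin 4)) (x : L) (ω ω' : L[X]) : ℝ :=
  ∑ᶠ f ∈ Cq P x ω, mu0 Λ x ω f (ω - ω')

theorem rel0 (h1 : StB1) (h2 : StB2) (h3 : StB3)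
    (halg : ∀ c : K, c ≠ 0 → ∃ n, 0 < n ∧ c ^ n = 1) (hL : FF K L 1)
    (hx : Transcendental K x) (hΛ : GF {P} Λ) (hS : Homog {P}) {a b c d : L[X]}
    (na : (ph a (PL P x)).Separable) (nb : (ph b (PL P x)).Separable)
    (nc : (ph c (PL P x)).Separable) (nd : (ph d (PL P x)).Separable)
    (ac : IsCoprime (ph a (PL P x)) (a - c)) (ad : IsCoprime (ph a (PL P x)) (a - d))
    (bc : IsCoprime (ph b (PL P x)) (b - c)) (bd : IsCoprime (ph b (PL P x)) (b - d))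
    (hcl : ∀ (F : Type) [Field F] [Algebra L F] [Algebra K F] [IsScalarTower K L F], FF K F 2 →
      ∀ z : Fin 2 → F, MvPolynomial.aeval z (PL P x) = 0 →
      ∀ O : DV K F, ND K (O.red (yz x z)) →
      (O.Int z ∧ ∀ ω, ω = a ∨ ω = b ∨ ω = c ∨ ω = d →
        O.ord (MvPolynomial.aeval z (lw ω)) ≠ 0 → ∀ e : L, algebraMap L F e ∈ O.O) ∨
      (algebraMap L F x ∉ O.O ∧ ∃ e : K, e ≠ 0 ∧
        O.res (MvPolynomial.aeval z (lw c) / MvPolynomial.aeval z (lw d)) = algebraMap K O.K e)) :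
    MQ P Λ x b c - MQ P Λ x c b - (MQ P Λ x b d - MQ P Λ x d b) - (MQ P Λ x a c - MQ P Λ x c a) +
      (MQ P Λ x a d - MQ P Λ x d a) = 0 := by
  have hR : PL P x ∉ (aff L (Fin 2)).asIdeal := fun e => na.ne_zero (by
    have : PL P x = 0 := e
    rw [this, map_zero])
  have hT := finite_codim_one (aff L (Fin 2)) (j := 1) (by rw [ptd_aff]; rfl) hR
  have hT' : ∀ W, W ∈ hT.toFinset ↔ PL P x ∈ W.asIdeal ∧ ptd W = 1 := fun W => by
    rw [hT.mem_toFinset]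
    exact ⟨fun e => ⟨e.2.2, e.1⟩, fun e => ⟨e.2, bot_le (a := W.asIdeal), e.1⟩⟩
  simp only [MQ]
  rw [B6_sum h2 nb _ _ hT', B6_sum h2 nb _ _ hT', B6_sum h2 nc _ _ hT', B6_sum h2 nc _ _ hT',
    B6_sum h2 nd _ _ hT', B6_sum h2 nd _ _ hT', B6_sum h2 na _ _ hT', B6_sum h2 na _ _ hT']
  simp only [← Finset.sum_sub_distrib, ← Finset.sum_add_distrib]
  refine Finset.sum_eq_zero fun W hW => ?_
  obtain ⟨w1, w2⟩ := (hT' W).1 hW
  obtain ⟨F, _, _, z, hF, hz, rfl⟩ := exists_gen_a W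
  rw [w2] at hF
  let _ : Algebra K F := ((algebraMap L F).comp (algebraMap K L)).toAlgebra
  have : IsScalarTower K L F := IsScalarTower.of_algebraMap_eq fun _ => rfl
  have h0 := (mem_ak z _).1 w1
  have e := fun ω hω ω' => h1 K L F hL hF P Λ hΛ x z hz h0 ω hω (lw ω')
  simp only [ph_lw] at e
  rw [← e b nb, ← e b nb, ← e c nc, ← e c nc, ← e d nd, ← e d nd, ← e a na, ← e a na]
  exact_mod_cast B6_loc h3 halg hL hx hΛ hS na.ne_zero nb.ne_zero nc.ne_zero nd.ne_zero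
    ac ad bc bd hF hz h0 (hcl F (hL.of_tower hF) z h0)

end Pool.Agent.MP_a9d3bd_x
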