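import Pool.Agent.MP_a9d3bd_x.BSt
import Pool.Agent.MP_a9d3bd_yy.BAf
import Pool.Agent.MP_a9d3bd_yy.BMu

namespace Pool.Agent.MP_a9d3bd_x

open Polynomial Pool.Agent.MP_a9d3bd_q MP_a9d3bd_zz MP_a9d3bd_zz.Su

/-- The vanishing statement for the family of graphs. -/
def StZC (p : ℕ) (K : Type) [Field K] : Prop :=
  ∀ (A : Type) (n : ℕ) [CommRing A] [IsDedekindDomain A] [Algebra K A]
  [Algebra K[X] A] [IsScalarTower K K[X] A] [Module.Finite K[X] A] [Module.IsTorsionFree K[X] A]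
  (m : ℕ) (S : Su K A (Fin n) m), S.Qk p S.q1 → ∀ μ : Mu K A (Fin n) m, S.Good μ →
  ∀ (J : Type) [Fintype J] (g : J → Fin m × Fin n → K) (t : J → A)
    (u : J → FractionRing A) (ν : J → (A →ₐ[K] K) →₀ ℤ) (r : J → ℝ),
    (∀ j, S.Adm S.c0 (g j)) → (∀ j, (S.fL S.c0 (g j)).IsRoot (algebraMap A _ (t j))) →
    (∀ j, Dvs K (u j) (ν j)) → (∀ j, ((ν j).sum fun _ z => z) = 0) →
    (∀ j, ∀ β ∈ (ν j).support, (derivative (S.fp β S.c0 (g j))).eval (β (t j)) ≠ 0) →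
    (∀ (β : A →ₐ[K] K) (t0 w0 : K), ∑ j, (open Classical in
      if β (t j) = t0 ∧ S.c0 * t0 + gam S.e β (g j) = w0 then r j * ν j β else 0) = 0) →
    ∑ j, r j * μ S.c0 (g j) (X - C (algebraMap A _ (t j))) (C (u j)) = 0

/-- The data exist. -/
def StZE (p : ℕ) (K : Type) [Field K] : Prop :=
  ∀ (A : Type) [CommRing A] [IsDedekindDomain A] [Algebra K A]
  [Algebra K[X] A] [IsScalarTower K K[X] A] [Module.Finite K[X] A] [Module.IsTorsionFree K[X] A],
  Finite (A ≃ₐ[K[X]] A) →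
  (∀ a : A, (∀ g : A ≃ₐ[K[X]] A, g a = a) → a ∈ Set.range (algebraMap K[X] A)) →
  (∀ a : A, algebraMap K[X] A (Algebra.norm K[X] a) = ∏ᶠ g : A ≃ₐ[K[X]] A, g a) →
  ∀ (P : MvPolynomial (Fin 3) K) (d : ℕ), 0 < d → P.totalDegree ≤ d → ∀ c0 : K,
    pd P d c0 ≠ 0 → ∀ s : Finset A,
    ∃ (n m : ℕ) (S : Su K A (Fin n) m), S.P = P ∧ S.d = d ∧ S.c0 = c0 ∧ S.Qk p S.q1 ∧ 2 ≤ S.M ∧
      ∀ a ∈ s, ∃ g : Fin m × Fin n → K,
        a = gam S.e (AlgHom.id K A) fun v => algebraMap K A (g v)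

theorem B7_mu {K L : Type} [Field K] [Field L] [Algebra K L] (Λ : LF K (Fin 4)) (x : L)
    (ω f u : L[X]) : mu0 Λ x ω f u = (MP_a9d3bd_yy.mu0 Λ x ω f u : ℝ) := by
  unfold mu0 MP_a9d3bd_yy.mu0
  split_ifs
  · rfl
  · simp

section
variable {K A ι : Type} [Field K] [CommRing A] [IsDomain A] [Algebra K A] [Algebra K[X] A]
  [IsScalarTower K K[X] A] [Fintype ι] {m : ℕ} (S : Su K A ι m) {T : Type} [CommRing T]
  [Algebra K T] (θ : A →ₐ[K] T) (g : Fin m × ι → K)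

theorem B7_gam : (gam S.e θ fun v => algebraMap K T (g v)) =
    θ (gam S.e (AlgHom.id K A) fun v => algebraMap K A (g v)) := by
  simp [gam, map_sum]

theorem B7_wl (h : S.c0 = 0) : S.wl θ (algebraMap K T S.c0) (fun v => algebraMap K T (g v)) =
    C (θ (gam S.e (AlgHom.id K A) fun v => algebraMap K A (g v))) := by
  rw [wl, B7_gam S θ g]
  simp [h]

omit [IsDomain A] [Algebra K[X] A] [IsScalarTower K K[X] A] in
theorem B7_ev (P : MvPolynomial (Fin 3) K) (a t b : A) :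
    (MvPolynomial.aeval ![C (θ a), X, C (θ b)] P : T[X]).eval (θ t) =
      θ (MvPolynomial.aeval ![a, t, b] P) := by
  refine (MvPolynomial.comp_aeval_apply _ ((aeval (θ t) : T[X] →ₐ[T] T).restrictScalars K) P).trans
    (Eq.trans ?_ (MvPolynomial.comp_aeval_apply _ θ P).symm)
  congr 2
  funext i
  fin_cases i <;> simp

end

theorem sc_of (h6 : StB6) (p : ℕ) [Fact p.Prime] (K : Type) [Field K] [IsAlgClosed K]
    (ht : ∀ a : K, ∃ n, 0 < n ∧ a ^ p ^ n = a) (hC : StZC p K) (hE : StZE p K) :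
    MP_a9d3bd_yy.SC K := by
  classical
  intro P d hd hP h0 Λ hΛ A _ _ _ _ _ _ _ hG hL J _ t w u ν r hon hu hdeg hadm hsep hcl
  obtain ⟨a1, a2, -⟩ := MP_a9d3bd_yy.sAf (K := K) P d hP
  obtain ⟨n, m, S, e1, e2, e3, e4, e5, e6⟩ := hE A hG.fin hG.inv hG.norm _ d hd a1 0
    (by rw [a2]; exact h0) (Finset.univ.image w)
  choose g hg using fun j => e6 (w j) (Finset.mem_image_of_mem w (Finset.mem_univ j))
  have halg : ∀ c : K, c ≠ 0 → ∃ n, 0 < n ∧ c ^ n = 1 := fun c hc => by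
    obtain ⟨k, hk, e⟩ := ht c
    have h1 : 1 < p ^ k := Nat.one_lt_pow hk.ne' (Fact.out : p.Prime).one_lt
    refine ⟨p ^ k - 1, by omega, mul_right_cancel₀ hc ?_⟩
    rw [← pow_succ, Nat.sub_add_cancel h1.le, e, one_mul]
  have hfp : ∀ j (β : A →ₐ[K] K), S.fp β S.c0 (g j) =
      MP_a9d3bd_yy.fib (MP_a9d3bd_yy.aff P) (β (xA K A)) (β (w j)) := fun j β => by
    have := B7_wl S β (g j) e3
    rw [← hg j] at this
    rw [fp, e1, MP_a9d3bd_yy.fib]
    exact congrArg (fun z => MvPolynomial.aeval ![C (β (xA K A)), X, z] (MP_a9d3bd_yy.aff P)) this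
  have hom : ∀ j, om S (S.c0, g j) = C (algebraMap A (FractionRing A) (w j)) := fun j => by
    rw [om, B7_wl S _ (g j) e3, ← hg j]
    rfl
  have key := hC A n m S e4 _ (h6 K A (Fin n) m S halg hL e5 P (e2 ▸ hP) h0 e1 Λ hΛ) J g t u ν
    (fun j => (r j : ℝ)) (fun j => ⟨S.h0, (hadm j).imp fun β hβ => by rw [hfp]; exact hβ⟩)
    (fun j => by
      have := hom j
      rw [om] at this
      rw [IsRoot, fL, fp, this, e1]
      exact (B7_ev (gp K A) _ _ (t j) (w j)).trans (by rw [hon j, map_zero])) hu hdeg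
    (fun j β hβ => by
      rw [hfp]
      refine (hsep j β hβ).eval₂_derivative_ne_zero (RingHom.id K) ?_
      exact (B7_ev β _ _ (t j) (w j)).trans (by rw [hon j, map_zero]))
    (fun β t0 w0 => by
      have := congrArg (Rat.cast : ℚ → ℝ) (hcl β t0 w0)
      rw [Rat.cast_sum, Rat.cast_zero] at this
      refine Eq.trans (Finset.sum_congr rfl fun j _ => ?_) this
      have e : S.c0 * t0 + gam S.e β (g j) = β (w j) := by
        rw [e3, zero_mul, zero_add, hg j]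
        exact B7_gam S β (g j)
      rw [e]
      split_ifs <;> simp)
  have : ((∑ j, r j * Λ (FractionRing A) ![1, MP_a9d3bd_yy.xL K A, algebraMap A _ (t j),
      algebraMap A _ (w j)] (u j) : ℚ) : ℝ) = 0 := by
    rw [Rat.cast_sum]
    refine Eq.trans (Finset.sum_congr rfl fun j _ => ?_) key
    rw [muS, B7_mu, MP_a9d3bd_yy.sMu Λ ⟨hΛ.ext, hΛ.scale⟩ _ hL _ _ _ _ (irreducible_X_sub_C _)
      (FractionRing A) ((aeval (algebraMap A (FractionRing A) (t j))).restrictScalars K)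
      (fun z => ⟨C z, by simp⟩) (by simp), hom]
    simp
  exact_mod_cast this

end Pool.Agent.MP_a9d3bd_x
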