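import Pool.Agent.MP_a9d3bd_x.B1
import Pool.Agent.MP_a9d3bd_x.B2
import Pool.Agent.MP_a9d3bd_x.B3
import Pool.Agent.MP_a9d3bd_x.B4
import Pool.Agent.MP_a9d3bd_x.B5
import Pool.Agent.MP_a9d3bd_x.B6
import Pool.Agent.MP_a9d3bd_x.B7

namespace Pool.Agent.MP_a9d3bd_x

theorem sc_zz (p : ℕ) [Fact p.Prime] (K : Type) [Field K] [IsAlgClosed K]
    (ht : ∀ a : K, ∃ n, 0 < n ∧ a ^ p ^ n = a) (hC : StZC p K) (hE : StZE p K) :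
    MP_a9d3bd_yy.SC K :=
  sc_of (sB6 (sB1 sB3) sB2 sB3 (sB5 sB4)) p K ht hC hE

end Pool.Agent.MP_a9d3bd_x
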