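import Pool.Agent.Mg.F53d700.G0241b4

namespace Pool.Agent.MP_a9d3bd_x

open MvPolynomial Pool.Agent.MP_a9d3bd_q

/-- Rational valued functions of a point and a function. -/
def LF (K ι : Type) [Field K] : Type 1 :=
  ∀ (E : Type) [Field E] [Algebra K E], (ι → E) → E → ℚ

variable {K ι : Type} [Field K]

/-- Functionals on pairs (curve on `V(S)`, function) that kill tame symbols. -/
structure GF (S : Set (MvPolynomial ι K)) (Λ : LF K ι) : Prop where
  ext : ∀ (E L : Type) [Field E] [Algebra K E] [Field L] [Algebra K L], FF K E 1 → FF K L 1 →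
    ∀ (ψ : E →ₐ[K] L) (y : ι → E) (u : E), Λ L (fun a => ψ (y a)) (ψ u) = hdeg ψ * Λ E y u
  scale : ∀ (E : Type) [Field E] [Algebra K E], FF K E 1 → ∀ (c : E) (y : ι → E) (u : E), c ≠ 0 →
    Λ E (c • y) u = Λ E y u
  degen : ∀ (E : Type) [Field E] [Algebra K E], FF K E 1 → ∀ (y : ι → E) (u : E), ¬ ND K y →
    Λ E y u = 0
  mul : ∀ (E : Type) [Field E] [Algebra K E], FF K E 1 → ∀ (y : ι → E) (u v : E), y ≠ 0 →
    On S y → u ≠ 0 → v ≠ 0 → Λ E y (u * v) = Λ E y u + Λ E y v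
  tame : ∀ (F : Type) [Field F] [Algebra K F], FF K F 2 → ∀ (y : ι → F) (f g : F), y ≠ 0 →
    On S y → ND K y → f ≠ 0 → g ≠ 0 →
    (∀ O : DV K F, ND K (O.red y) → O.ord f = 0 ∨ O.ord g = 0) →
    ∑ᶠ O : DV K F, Λ O.K (O.red y) (O.tame f g) = 0

/-- Every such functional kills every finite family of pairs whose total divisor vanishes. -/
def Core (S : Set (MvPolynomial ι K)) : Prop :=
  ∀ Λ : LF K ι, GF S Λ → ∀ (J : Type) [Fintype J] (E : J → Type) [∀ j, Field (E j)]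
    [∀ j, Algebra K (E j)] (y : ∀ j, ι → E j) (u : ∀ j, E j) (n : J → ℚ),
    (∀ j, FF K (E j) 1 ∧ y j ≠ 0 ∧ On S (y j) ∧ u j ≠ 0) →
    (∀ Φ : Raw K ι, IsPre 0 Φ → ∑ j, n j * Dv Φ (E j) (y j) (u j) = 0) →
    ∑ j, n j * Λ (E j) (y j) (u j) = 0

/-- The Jacobian criterion at every point with coordinates in an extension field. -/
def Sm (P : MvPolynomial ι K) : Prop :=
  ∀ (E : Type) [Field E] [Algebra K E] (z : ι → E), z ≠ 0 → aeval z P = 0 →
    ∃ b, aeval z (pderiv b P) ≠ 0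

/-- The target of the geometric front. -/
def CoreK : Prop :=
  ∀ (p : ℕ) [Fact p.Prime] (K : Type) [Field K] [IsAlgClosed K] [CharP K p],
    (∀ a : K, ∃ n, 0 < n ∧ a ^ p ^ n = a) → ∀ (P : MvPolynomial (Fin 4) K) (d : ℕ),
    P.IsHomogeneous d → P ≠ 0 → Sm P → Core {P}

end Pool.Agent.MP_a9d3bd_x
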