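import Pool.Agent.MP_a9d3bd_x.AX
import Pool.Agent.MP_a9d3bd_zz.HBas
import Pool.Agent.MP_a9d3bd_yy.Asm

namespace Pool.Agent.MP_a9d3bd_x

open Polynomial Pool.Agent.MP_a9d3bd_q Pool.Agent.MP_a9d3bd_h

variable {K L : Type} [Field K] [Field L] [Algebra K L]

/-- The equation of the generic plane section. -/
noncomputable def PL (P : MvPolynomial (Fin 4) K) (x : L) : MvPolynomial (Fin 2) L :=
  MvPolynomial.aeval ![1, MvPolynomial.C x, MvPolynomial.X 0, MvPolynomial.X 1] P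

/-- Restriction to the graph of `ω`. -/
noncomputable def ph (ω : L[X]) : MvPolynomial (Fin 2) L →ₐ[L] L[X] := MvPolynomial.aeval ![X, ω]

/-- The equation of the graph of `ω`. -/
noncomputable def lw (ω : L[X]) : MvPolynomial (Fin 2) L :=
  MvPolynomial.X 1 - aeval (MvPolynomial.X 0 : MvPolynomial (Fin 2) L) ω

/-- The components of the graph. -/
def Cq (P : MvPolynomial (Fin 4) K) (x : L) (ω : L[X]) : Set L[X] :=
  {f | f.Monic ∧ Irreducible f ∧ f ∣ ph ω (PL P x)}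

/-- The component `f` lies on `W`. -/
def Lo (ω : L[X]) (W : Pr L (Fin 2)) (f : L[X]) : Prop := ∀ G ∈ W.asIdeal, f ∣ ph ω G

open Classical in
/-- The functional on the components. -/
noncomputable def mu0 (Λ : LF K (Fin 4)) (x : L) (ω f u : L[X]) : ℝ :=
  if h : Irreducible f then
    haveI := Fact.mk h
    (Λ (AdjoinRoot f) ![1, AdjoinRoot.of f x, AdjoinRoot.root f, AdjoinRoot.mk f ω]
      (AdjoinRoot.mk f u) : ℝ)
  else 0

/-- The point of the surface. -/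
def yz {F : Type} [Field F] [Algebra L F] (x : L) (z : Fin 2 → F) : Fin 4 → F :=
  ![1, algebraMap L F x, z 0, z 1]

open Classical in
/-- One term of the tame symbol. -/
noncomputable def ct (Λ : LF K (Fin 4)) (x : L) {F : Type} [Field F] [Algebra L F] [Algebra K F]
    (z : Fin 2 → F) (ω : L[X]) (G : MvPolynomial (Fin 2) L) (O : DV K F) : ℚ :=
  if (∀ c : L, algebraMap L F c ∈ O.O) ∧ O.Int z then
    (O.ord (MvPolynomial.aeval z (lw ω)) : ℚ) *
      Λ O.K (O.red (yz x z)) (O.res (MvPolynomial.aeval z G)) else 0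

/-- The sum over the valuations is the sum over the components. -/
def StB1 : Prop := ∀ (K L F : Type) [Field K] [Field L] [Algebra K L] [Field F] [Algebra L F]
  [Algebra K F] [IsScalarTower K L F], FF K L 1 → FF L F 1 → ∀ (P : MvPolynomial (Fin 4) K)
  (Λ : LF K (Fin 4)), GF {P} Λ → ∀ (x : L) (z : Fin 2 → F), af L z = ⊤ →
  MvPolynomial.aeval z (PL P x) = 0 → ∀ ω : L[X], (ph ω (PL P x)).Separable →
  ∀ G : MvPolynomial (Fin 2) L,
  ((∑ᶠ O : DV K F, ct Λ x z ω G O : ℚ) : ℝ) =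
    ∑ᶠ f ∈ {f ∈ Cq P x ω | Lo ω (ak L z) f}, mu0 Λ x ω f (ph ω G)

/-- Every component of the graph lies on exactly one component of the section. -/
def StB2 : Prop := ∀ (L : Type) [Field L] (R : MvPolynomial (Fin 2) L) (ω f : L[X]),
  (ph ω R).Separable → Irreducible f → f ∣ ph ω R →
  ∃! W : Pr L (Fin 2), R ∈ W.asIdeal ∧ ptd W = 1 ∧ Lo ω W f

/-- The generic point of a component. -/
def StB3 : Prop := ∀ (K L F : Type) [Field K] [Field L] [Algebra K L] [Field F] [Algebra L F]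
  [Algebra K F] [IsScalarTower K L F], FF K L 1 → FF L F 1 → ∀ (P : MvPolynomial (Fin 4) K)
  (x : L) (z : Fin 2 → F), Transcendental K x → af L z = ⊤ → MvPolynomial.aeval z (PL P x) = 0 →
  FF K F 2 ∧ yz x z ≠ 0 ∧ On {P} (yz x z) ∧ ND K (yz x z) ∧
  (∀ ω : L[X], ph ω (PL P x) ≠ 0 → MvPolynomial.aeval z (lw ω) ≠ 0) ∧
  ∀ (ω ω' : L[X]) (O : DV K F), IsCoprime (ph ω (PL P x)) (ω - ω') →
    (∀ c : L, algebraMap L F c ∈ O.O) → O.Int z → O.ord (MvPolynomial.aeval z (lw ω)) ≠ 0 →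
    O.ord (MvPolynomial.aeval z (lw ω')) = 0

/-- A nondegenerate valuation is finite or has the largest pole at `x`. -/
def StB4 : Prop := ∀ (K F : Type) [Field K] [Field F] [Algebra K F], FF K F 2 →
  ∀ (P : MvPolynomial (Fin 4) K) (d : ℕ), P.IsHomogeneous d →
  MvPolynomial.eval ![0, 0, 1, 0] P ≠ 0 → ∀ x t w : F, MvPolynomial.aeval ![1, x, t, w] P = 0 →
  ∀ O : DV K F, ND K (O.red ![1, x, t, w]) →
  (x ∈ O.O ∧ t ∈ O.O ∧ w ∈ O.O ∧ ¬ (IsAlgebraic K (O.res x) ∧ IsAlgebraic K (O.res t) ∧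
    IsAlgebraic K (O.res w))) ∨ (x ∉ O.O ∧ t / x ∈ O.O ∧ w / x ∈ O.O)

open MP_a9d3bd_zz in
/-- The graph that belongs to a curve of the family. -/
noncomputable def om {A ι : Type} [CommRing A] [IsDomain A] [Algebra K A] [Algebra K[X] A]
    [IsScalarTower K K[X] A] [Fintype ι] {m : ℕ} (S : Su K A ι m)
    (H : K × (Fin m × ι → K)) : (FractionRing A)[X] :=
  S.wl (Su.gp K A) (algebraMap K _ H.1) fun v => algebraMap K _ (H.2 v)

open MP_a9d3bd_zz in
/-- The valuations on the base change. -/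
def StB5 : Prop := ∀ (K A ι F : Type) [Field K] [CommRing A] [IsDomain A] [Algebra K A]
  [Algebra K[X] A] [IsScalarTower K K[X] A] [Module.Finite K[X] A] [Fintype ι] (m : ℕ)
  (S : Su K A ι m) [Field F] [Algebra (FractionRing A) F] [Algebra K F]
  [IsScalarTower K (FractionRing A) F], FF K (FractionRing A) 1 → FF K F 2 → 2 ≤ S.M →
  ∀ (P : MvPolynomial (Fin 4) K), P.IsHomogeneous S.d → MvPolynomial.eval ![0, 0, 1, 0] P ≠ 0 →
  S.P = MP_a9d3bd_yy.aff P → ∀ z : Fin 2 → F,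
  MvPolynomial.aeval z (PL P (MP_a9d3bd_yy.xL K A)) = 0 →
  ∀ O : DV K F, ND K (O.red (yz (MP_a9d3bd_yy.xL K A) z)) →
  (O.Int z ∧ ∀ H : K × (Fin m × ι → K), pd S.P S.d H.1 ≠ 0 →
    O.ord (MvPolynomial.aeval z (lw (om S H))) ≠ 0 →
    ∀ c : FractionRing A, algebraMap _ F c ∈ O.O) ∨
  (algebraMap _ F (MP_a9d3bd_yy.xL K A) ∉ O.O ∧ ∀ H H' : K × (Fin m × ι → K), H.1 ≠ S.c0 →
    H'.1 ≠ S.c0 → ∃ c : K, c ≠ 0 ∧
      O.res (MvPolynomial.aeval z (lw (om S H)) / MvPolynomial.aeval z (lw (om S H'))) =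
        algebraMap K O.K c)

open MP_a9d3bd_zz in
/-- The functional for the family. -/
noncomputable def muS {A ι : Type} [CommRing A] [IsDomain A] [Algebra K A] [Algebra K[X] A]
    [IsScalarTower K K[X] A] [Fintype ι] {m : ℕ} (S : Su K A ι m) (Λ : LF K (Fin 4)) :
    Su.Mu K A ι m := fun c g f u => mu0 Λ (MP_a9d3bd_yy.xL K A) (om S (c, g)) f u

open MP_a9d3bd_zz in
/-- The functional is good. -/
def StB6 : Prop := ∀ (K A ι : Type) [Field K] [CommRing A] [IsDomain A] [Algebra K A]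
  [Algebra K[X] A] [IsScalarTower K K[X] A] [Module.Finite K[X] A] [Module.IsTorsionFree K[X] A]
  [Fintype ι] (m : ℕ) (S : Su K A ι m), (∀ c : K, c ≠ 0 → ∃ n, 0 < n ∧ c ^ n = 1) →
  FF K (FractionRing A) 1 → 2 ≤ S.M →
  ∀ (P : MvPolynomial (Fin 4) K), P.IsHomogeneous S.d → MvPolynomial.eval ![0, 0, 1, 0] P ≠ 0 →
  S.P = MP_a9d3bd_yy.aff P → ∀ Λ : LF K (Fin 4), GF {P} Λ → S.Good (muS S Λ)

end Pool.Agent.MP_a9d3bd_x
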