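import Pool.Agent.MP_a9d3bd_x.St

namespace Pool.Agent.MP_a9d3bd_x

open MvPolynomial Sum Pool.Agent.MP_a9d3bd_q Pool.Agent.MP_a9d3bd_h Pool.Agent.MP_a9d3bd_v

theorem CC_gen {K ι ν E L : Type} [Field K] [Field E] [Algebra K E] [Field L] [Algebra K L]
    (y : ι → E) (t : ν → E) (χ : E →ₐ[K] L) (T : L) (hT : Transcendental χ.fieldRange T)
    (htop : χ.fieldRange ⊔ IntermediateField.adjoin K {T} = ⊤) :
    cyc K (Sum.elim (fun a => χ (y a) * T) fun i => χ (t i)) = cc K y t := by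
  obtain ⟨ψ, h1, h2, h3⟩ := exists_ratHom χ hT
  have h := cyc_map ψ (cp K y t)
  rw [hdeg_eq_one (h3.trans htop), Nat.cast_one, one_smul] at h
  rw [cc, ← h]
  congr 1
  funext s
  rcases s with a | i
  · simp only [cp, Sum.elim_inl, map_mul, h1, h2]
  · simp only [cp, Sum.elim_inr, h1]

theorem sCC : StCC := by
  intro K ι ν _ E L _ _ _ _ y t
  refine ⟨fun ψ => ?_, fun χ T hT htop => CC_gen y t χ T hT htop, fun c hc => ?_⟩
  · obtain ⟨Ψ, h1, h2, h3⟩ := exists_ratMap ψ
    have h := cyc_map Ψ (cp K y t)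
    rw [h3] at h
    rw [cc, cc, ← h]
    congr 1
    funext s
    rcases s with a | i
    · simp only [cp, Sum.elim_inl, map_mul, h1, h2]
    · simp only [cp, Sum.elim_inr, h1]
  · obtain ⟨h1, h2⟩ := BLP_scale (cst K E).fieldRange (c := cst K E c) tr_X ⟨c, rfl⟩
      ((map_ne_zero _).2 hc)
    rw [← CC_gen y t (cst K E) _ h1 (h2.trans top_X), cc]
    congr 1
    funext s
    rcases s with a | i
    · simp only [cp, Sum.elim_inl, Pi.smul_apply, smul_eq_mul, map_mul]
      ring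
    · simp only [cp, Sum.elim_inr]

end Pool.Agent.MP_a9d3bd_x
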