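import Pool.Agent.MP_a9d3bd_x.Top
import Pool.Agent.MP_a9d3bd_yy.BFin

namespace Pool.Agent.MP_a9d3bd_x

open MP_a9d3bd_h

/-- The vanishing of `CH_0(X,1)` with rational coefficients for smooth surfaces in space. -/
theorem fin_main (k : Type) [Field k] [Finite k] (P : MvPolynomial (Fin 4) k) (d : ℕ)
    (hd : P.IsHomogeneous d) (hs : Smooth {P} 2) :
    ∀ z ∈ Ch {P} (Fin 1) 1, Cl Sum.inr z → z ∈ Bd {P} (Fin 1) 1 :=
  red (sT0 sCC (sFACE sCC) sADM sNRM sDG) sMT sPT (sCL (sFACE sCC)) sSM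
    MP_a9d3bd_yy.coreK k P d hd hs

end Pool.Agent.MP_a9d3bd_x
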