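import Pool.Agent.MP_a9d3bd_x.St

namespace Pool.Agent.MP_a9d3bd_x

open MvPolynomial Sum Pool.Agent.MP_a9d3bd_q Pool.Agent.MP_a9d3bd_h Pool.Agent.MP_a9d3bd_v

theorem SM_core {k E : Type} [Field k] [Field E] (P : MvPolynomial (Fin 4) k)
    (h : Smooth {P} 2) (φ : MvPolynomial (Fin 4) k →+* E) (hz : ∃ b, φ (X b) ≠ 0)
    (hP : φ P = 0) : ∃ b, φ (pderiv b P) ≠ 0 := by
  by_contra hn
  have hn' : ∀ b, φ (pderiv b P) = 0 := fun b => by
    by_contra hb
    exact hn ⟨b, hb⟩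
  obtain ⟨a, G, hG, hdet⟩ := (h ⟨RingHom.ker φ, RingHom.ker_isPrime φ⟩ (fun f hf => by
    rw [Set.mem_singleton_iff.1 hf]
    exact hP)).2 hz
  apply hdet
  change φ _ = 0
  by_cases h1 : ∃ c, G c ∈ Ideal.span ({P} : Set (MvPolynomial (Fin 4) k))
  · obtain ⟨c, hc⟩ := h1
    obtain ⟨r, hr⟩ := Ideal.mem_span_singleton'.1 hc
    rw [RingHom.map_det]
    refine Matrix.det_eq_zero_of_row_eq_zero c fun b => ?_
    change φ (pderiv b (G c)) = 0
    rw [← hr, Derivation.leibniz, smul_eq_mul, smul_eq_mul, map_add, map_mul, map_mul, hP, hn',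
      mul_zero, zero_mul, add_zero]
  · have h2 : ∀ c, ∃ i, G c = X (a i) := fun c => (hG c).resolve_left fun hc => h1 ⟨c, hc⟩
    choose i hi using h2
    obtain ⟨c, c', hcc, he⟩ := Fintype.exists_ne_map_eq_of_card_lt i (by simp)
    rw [Matrix.det_zero_of_row_eq hcc, map_zero]
    funext b
    change pderiv b (G c) = pderiv b (G c')
    rw [hi c, hi c', he]

theorem SM_sm {k K : Type} [Field k] [Field K] [Algebra k K] (P : MvPolynomial (Fin 4) k)
    (h : Smooth {P} 2) : Sm (MvPolynomial.map (algebraMap k K) P) := by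
  intro E _ _ z hz hP
  obtain ⟨b, hb⟩ := SM_core P h
    ((aeval z : MvPolynomial (Fin 4) K →ₐ[K] E).toRingHom.comp
      (MvPolynomial.map (algebraMap k K))) (by
      obtain ⟨b, hb⟩ := Function.ne_iff.1 hz
      refine ⟨b, ?_⟩
      change aeval z (MvPolynomial.map (algebraMap k K) (X b)) ≠ 0
      rw [map_X, aeval_X]
      exact hb) hP
  refine ⟨b, ?_⟩
  rw [pderiv_map]
  exact hb

theorem sSM : StSM := by
  intro k K _ _ _ P h
  refine ⟨fun h0 => ?_, SM_sm P h⟩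
  obtain ⟨b, hb⟩ := SM_sm (K := K) P h K (fun _ => 1)
    (fun h1 => one_ne_zero (congrFun h1 0)) (by rw [h0, map_zero])
  apply hb
  rw [h0, map_zero, map_zero]

end Pool.Agent.MP_a9d3bd_x
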