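import Pool.Agent.MP_a9d3bd_x.Red
import Pool.Agent.MP_a9d3bd_x.T0
import Pool.Agent.MP_a9d3bd_x.CC
import Pool.Agent.MP_a9d3bd_x.FACE
import Pool.Agent.MP_a9d3bd_x.ADM
import Pool.Agent.MP_a9d3bd_x.NRM
import Pool.Agent.MP_a9d3bd_x.DG
import Pool.Agent.MP_a9d3bd_x.MT
import Pool.Agent.MP_a9d3bd_x.PT
import Pool.Agent.MP_a9d3bd_x.CL
import Pool.Agent.MP_a9d3bd_x.SM
import Pool.Agent.MP_a9d3bd_yy.Fin0

namespace Pool.Agent.MP_a9d3bd_x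

open MP_a9d3bd_h

/-- The vanishing follows from the statement for sections. -/
theorem top_of (h : ∀ (p : ℕ) [Fact p.Prime] (K : Type) [Field K] [IsAlgClosed K] [CharP K p],
    (∀ a : K, ∃ n, 0 < n ∧ a ^ p ^ n = a) → MP_a9d3bd_yy.SC K) (k : Type) [Field k] [Finite k]
    (P : MvPolynomial (Fin 4) k) (d : ℕ) (hd : P.IsHomogeneous d) (hs : Smooth {P} 2) :
    ∀ z ∈ Ch {P} (Fin 1) 1, Cl Sum.inr z → z ∈ Bd {P} (Fin 1) 1 :=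
  red (sT0 sCC (sFACE sCC) sADM sNRM sDG) sMT sPT (sCL (sFACE sCC)) sSM
    (MP_a9d3bd_yy.coreK_of h) k P d hd hs

end Pool.Agent.MP_a9d3bd_x
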