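import Pool.Agent.MP_a9d3bd_x.GF
import Pool.Agent.MP_a9d3bd_g.CDimW
import Pool.Agent.Mg.F53d700.G7f77e1

namespace Pool.Agent.MP_a9d3bd_x

open MvPolynomial Pool.Agent.MP_a9d3bd_q Pool.Agent.MP_a9d3bd_h Pool.Agent.MP_a9d3bd_g

variable {K : Type} [Field K]

theorem Uni_ht {Z : Pr K (Fin 3)} (hZ : ptd Z = 1) : Z.asIdeal.height ≤ 2 := by
  have h3 : ∀ P : Pr K (Fin 3), ptd P ≤ 3 := fun P => by
    have h1 : aff K (Fin 3) ≤ P := fun f hf => by
      have : f = 0 := hf
      rw [this]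
      exact zero_mem _
    have := ptd_le h1
    rwa [ptd_aff, Fintype.card_fin] at this
  have := Order.height_le_height_apply_of_strictMono (fun P : Pr K (Fin 3) => 3 - ptd P)
    (fun P Q h => by
      have := ptd_lt h
      have := h3 P
      show 3 - ptd P < 3 - ptd Q
      omega) Z
  rw [Order.height_nat, hZ] at this
  rw [PrimeSpectrum.height_eq_orderHeight]
  exact this

theorem Uni_sq {I : Ideal (R3 K)} (i : Fin 3) {f : R3 K} (h : f ∈ I * I) : pderiv i f ∈ I := by
  refine Submodule.mul_induction_on h (fun a ha b hb => ?_) fun a b ha hb => ?_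
  · rw [Derivation.leibniz, smul_eq_mul, smul_eq_mul]
    exact add_mem (I.mul_mem_right _ ha) (I.mul_mem_right _ hb)
  · rw [map_add]
    exact add_mem ha hb

theorem Uni_loc {R : Type} [CommRing R] [IsLocalRing R] {h a b : R}
    (hm : IsLocalRing.maximalIdeal R = Ideal.span {a, b}) (h1 : h ∈ IsLocalRing.maximalIdeal R)
    (h2 : h ∉ IsLocalRing.maximalIdeal R * IsLocalRing.maximalIdeal R) :
    ∃ c ∈ IsLocalRing.maximalIdeal R, IsLocalRing.maximalIdeal R ≤ Ideal.span {h, c} := by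
  have ha : a ∈ IsLocalRing.maximalIdeal R := hm ▸ Ideal.subset_span (by simp)
  have hb : b ∈ IsLocalRing.maximalIdeal R := hm ▸ Ideal.subset_span (by simp)
  obtain ⟨α, β, e⟩ := Ideal.mem_span_pair.1 (hm ▸ h1)
  by_cases hα : IsUnit α
  · refine ⟨b, hb, ?_⟩
    obtain ⟨u, rfl⟩ := hα
    rw [hm, Ideal.span_le, Set.insert_subset_iff, Set.singleton_subset_iff]
    refine ⟨Ideal.mem_span_pair.2 ⟨(u⁻¹ : Rˣ), -((u⁻¹ : Rˣ) * β), ?_⟩,
      Ideal.subset_span (by simp)⟩
    rw [← e, mul_add, ← mul_assoc, Units.inv_mul]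
    ring
  by_cases hβ : IsUnit β
  · refine ⟨a, ha, ?_⟩
    obtain ⟨u, rfl⟩ := hβ
    rw [hm, Ideal.span_le, Set.insert_subset_iff, Set.singleton_subset_iff]
    refine ⟨Ideal.subset_span (by simp),
      Ideal.mem_span_pair.2 ⟨(u⁻¹ : Rˣ), -((u⁻¹ : Rˣ) * α), ?_⟩⟩
    rw [← e, mul_add, ← mul_assoc _ (u : R), Units.inv_mul]
    ring
  exact absurd (e ▸ add_mem (Ideal.mul_mem_mul hα ha) (Ideal.mul_mem_mul hβ hb)) h2

theorem uni {H : R3 K} {Z : Pr K (Fin 3)} (h : Cv H Z) :
    ∃ f ∈ Z.asIdeal, ∀ g ∈ Z.asIdeal, LM Z (Ideal.span {H} ⊔ Ideal.span {f}) g := by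
  classical
  obtain ⟨h1, h2, i, h3⟩ := h
  set R := Localization.AtPrime Z.asIdeal
  have hreg : IsRegularLocalRing R := inferInstance
  have hd : (IsLocalRing.maximalIdeal R).spanFinrank ≤ 2 := by
    have e := hreg.spanFinrank_maximalIdeal
    rw [IsLocalization.AtPrime.ringKrullDim_eq_height Z.asIdeal R] at e
    have e' : ((IsLocalRing.maximalIdeal R).spanFinrank : ℕ∞) = Z.asIdeal.height := by
      exact_mod_cast e
    have := e' ▸ Uni_ht (dim_eq Z ▸ h2)
    exact_mod_cast this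
  obtain ⟨s, hs, hs'⟩ := Submodule.FG.exists_span_finset_card_eq_spanFinrank
    (IsNoetherian.noetherian (IsLocalRing.maximalIdeal R))
  have hab : ∃ a b : R, IsLocalRing.maximalIdeal R = Ideal.span {a, b} := by
    rw [← hs']
    have : s.card = 0 ∨ s.card = 1 ∨ s.card = 2 := by omega
    rcases this with c | c | c
    · exact ⟨0, 0, by simp [Finset.card_eq_zero.1 c]⟩
    · obtain ⟨a, rfl⟩ := Finset.card_eq_one.1 c
      exact ⟨a, a, by simp⟩
    · obtain ⟨a, b, -, rfl⟩ := Finset.card_eq_two.1 c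
      exact ⟨a, b, by simp⟩
  obtain ⟨a, b, hab⟩ := hab
  have hm := Localization.AtPrime.map_eq_maximalIdeal (I := Z.asIdeal)
  have hmem : ∀ g, algebraMap _ R g ∈ IsLocalRing.maximalIdeal R ↔ g ∈ Z.asIdeal :=
    IsLocalization.AtPrime.to_map_mem_maximal_iff R Z.asIdeal
  obtain ⟨c, hc, hle⟩ := Uni_loc hab ((hmem H).2 h1) (fun hh => by
    rw [← hm, ← Ideal.map_mul, ← lm_iff] at hh
    obtain ⟨w, hw, hw'⟩ := hh
    have := Uni_sq i hw'
    rw [Derivation.leibniz, smul_eq_mul, smul_eq_mul] at this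
    have := (Ideal.add_mem_iff_left _ (Z.asIdeal.mul_mem_right _ h1)).1 this
    exact (Z.2.mem_or_mem this).elim hw h3)
  obtain ⟨⟨f, u⟩, rfl⟩ := IsLocalization.mk'_surjective Z.asIdeal.primeCompl c
  refine ⟨f, (IsLocalization.AtPrime.mk'_mem_maximal_iff R Z.asIdeal f u).1 hc, fun g hg => ?_⟩
  rw [lm_iff]
  refine (le_trans hle ?_) ((hmem g).2 hg)
  rw [Ideal.span_le, Set.insert_subset_iff, Set.singleton_subset_iff]
  refine ⟨Ideal.mem_map_of_mem _ (Ideal.mem_sup_left (Ideal.mem_span_singleton_self H)), ?_⟩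
  show IsLocalization.mk' R f u ∈ _
  rw [IsLocalization.mk'_eq_mul_mk'_one]
  exact Ideal.mul_mem_right _ _
    (Ideal.mem_map_of_mem _ (Ideal.mem_sup_right (Ideal.mem_span_singleton_self f)))

theorem tp_notMem {H G : R3 K} {W : Pr K (Fin 3)} (h : Srf H W) {e : ℕ} (hG : Tp e G) :
    G ∉ W.asIdeal := by
  rw [h.eq, Ideal.mem_span_singleton]
  rintro ⟨q, hq⟩
  obtain ⟨h1, c, hc, h2⟩ := hG
  let E := FractionRing (R3 K)
  let y : Fin 3 → E := fun i => algebraMap (R3 K) E (X i)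
  have hy : ∀ F : R3 K, aeval y F = algebraMap (R3 K) E F := fun F => by
    have : (aeval y : R3 K →ₐ[K] E) = IsScalarTower.toAlgHom K (R3 K) E := by
      ext i
      simp [y]
    rw [this]
    rfl
  have hinj := IsFractionRing.injective (R3 K) E
  let T : R3 K →ₐ[K] Polynomial E := aeval fun i => Polynomial.C (y i) * Polynomial.X
  have hT : ∀ F d, (T F).coeff d = algebraMap (R3 K) E (homogeneousComponent d F) := fun F d => by
    rw [← hy]
    exact HK_coeff y F d
  have hlead : ∀ F d, F.totalDegree ≤ d → homogeneousComponent d F ≠ 0 →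
      (T F).leadingCoeff = algebraMap (R3 K) E (homogeneousComponent d F) := fun F d a b => by
    have : (T F).natDegree = d := Polynomial.natDegree_eq_of_le_of_coeff_ne_zero
      (Polynomial.natDegree_le_iff_coeff_eq_zero.2 fun n hn => by
        rw [hT, homogeneousComponent_eq_zero _ _ (by omega), map_zero])
      (by rw [hT]; exact (map_ne_zero_iff _ hinj).2 b)
    rw [Polynomial.leadingCoeff, this, hT]
  have c1 : coeff (Finsupp.single 2 H.totalDegree) (homogeneousComponent H.totalDegree H) = 1 := by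
    rw [coeff_homogeneousComponent, if_pos (by simp), h.top]
  have n0 : (C c * X 0 ^ e : R3 K) ≠ 0 := mul_ne_zero (by simpa using hc) (pow_ne_zero _ (X_ne_zero _))
  have e1 := hlead G e h1 (h2 ▸ n0)
  rw [hq, map_mul, Polynomial.leadingCoeff_mul, hlead H _ le_rfl (fun z => by simp [z] at c1),
    Polynomial.leadingCoeff, hT, ← map_mul, ← hq, h2] at e1
  have e2 := hinj e1
  have h3 := degreeOf_mul_eq (n := (2 : Fin 3)) (left_ne_zero_of_mul (e2 ▸ n0))
    (right_ne_zero_of_mul (e2 ▸ n0))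
  have h4 := monomial_le_degreeOf (2 : Fin 3) (f := homogeneousComponent H.totalDegree H)
    (m := Finsupp.single 2 H.totalDegree) (mem_support_iff.2 (by rw [c1]; exact one_ne_zero))
  rw [Finsupp.single_eq_same] at h4
  have h5 : degreeOf (2 : Fin 3) (C c * X 0 ^ e : R3 K) = 0 := by
    rw [C_mul_X_pow_eq_monomial, degreeOf_monomial_eq _ _ hc]
    simp
  have := h.two
  rw [e2, h5] at h3
  omega

end Pool.Agent.MP_a9d3bd_x
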