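import Pool.Agent.MP_a9d3bd_w.Main

namespace Pool.Agent.Results.MP_a9d3bd_ag.WhittakerDL

open MvPolynomial Pool.Agent.MP_a9d3bd_q Pool.Agent.MP_a9d3bd_s Pool.Agent.MP_a9d3bd_w

theorem result (p : ℕ) [Fact p.Prime] (k : Type) [Field k] [IsAlgClosed k] [Algebra (ZMod p) k]
    [Algebra.IsAlgebraic (ZMod p) k] (n l m e d : ℕ) (he : 0 < e)
    (G : Subgroup (Matrix.SpecialLinearGroup (Fin (n + 1)) k))
    (B V : Subgroup G) (P : Fin (l + 1) → Subgroup G) (F : G →* G)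
    (χ lam : MvPolynomial (Fin (n + 1) × Fin (n + 1)) k) (σ : G) (Y : Finset G)
    (hG : ZClosed (pts (Set.univ : Set G))) (hV : ZClosed (pts (V : Set G)))
    (hP : ∀ i, ZClosed (pts (P i : Set G))) (hGB : ZClosed (coneOf (Set.univ : Set G)))
    (hB : ∀ g : G, g ∈ B ↔ ∀ a, a ≠ 0 → col g a = 0)
    (hBt : ∀ g ∈ B, g.1.1.IsUpperTriangular) (hBP : ∀ i, B ≤ P i)
    (hBB : Finite (DoubleCoset.Quotient (B : Set G) B)) (hVB : V ≤ B)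
    (hVc : (vanishingIdeal k (pts (V : Set G))).IsPrime) (hF : Poly F)
    (hFB : ∀ g ∈ B, F g ∈ B) (hFV : ∀ g ∈ V, F g ∈ V)
    (hFm : ∀ (g : G) a b, (F^[m] g).1 a b = g.1 a b ^ p ^ e)
    (hχ : Addv V χ) (hl : Addv V lam)
    (hAS : ∀ v ∈ V, ev χ (F v) - ev χ v = ev lam v ^ p - ev lam v)
    (hσ : σ ∈ V ∧ F σ = σ ∧ ev lam σ ≠ 0)
    (hY : ∀ i g, (∃ y ∈ Y, g ∈ DoubleCoset.doubleCoset y V (P i ⊓ prev F P i)) ∨
      Line d V χ (P i) g ∨ Line d V χ (prev F P i) g)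
    (L : Type) [Field L] [Algebra k L] (j : ℕ) :
    RatEq (eqs L F P) j ⊔ old k (eqs L F P) j ⊔
      dif (eqs L F P) j (tw L l '' {γ | γ ∈ V ∧ F γ = γ ∧ ev lam γ = 0}) ⊔
      nrm (eqs L F P) j p (fun i => tw L l (σ ^ i)) = ⊤ := by
  let _ : W.Rl ↥(V ⊓ F.eqLocus (MonoidHom.id G)) :=
    ⟨(W.lamHom F hl).ker, p, fun i => ⟨σ, hσ.1, hσ.2.1⟩ ^ i⟩
  obtain ⟨T, hp, h0, h1, h2, h3⟩ := W.exists_tup (W.fb_closure p k) he hG hV hP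
    (by simpa only [coneOf, Set.mem_univ, true_and] using hGB) hB hBt hBP hBB hVB hVc hF hFB hFV
    hFm hχ hl hAS hσ.1 hσ.2.1 hσ.2.2 hY (fun _ h => h) (Fact.out : p.Prime).pos
  exact W.main T (hp ▸ W.fb_closure p k) h0 h1 h2 h3
    (Z := {γ | γ ∈ V ∧ F γ = γ ∧ ev lam γ = 0}) (fun γ h => ⟨γ.2.1, γ.2.2, h⟩) L j

end Pool.Agent.Results.MP_a9d3bd_ag.WhittakerDL
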